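import Pool.Agent.Lib.MP_86b854_co.Lv.Spec
import Pool.Agent.Lib.MP_86b854_co.Bad.Spec

set_option autoImplicit false

/-!
# MP_86b854_co : there are no bad discs, in the form of the accounting
-/

namespace C7

open PLM T72 Finset Equiv

theorem tNB (h1 : _root_.BadD.S_NoBad) (h2 : S_ShortBd) : S_NoBad := by
  classical
  intro V _ _ G _ M o L P g hM Φ ho hB
  obtain ⟨_, w, hw⟩ := h2 V G M hM.plane hM.tri Φ 7 hB.len7 (by decide) le_rfl
  have hp : _root_.BadD.Pent M Φ (Φ.filter fun f => len M f = 5) := by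
    refine ⟨filter_subset _ _, fun f hf => (mem_filter.1 hf).2, ?_, ?_, ?_, ?_⟩
    · intro f hf hf'
      rcases hB.face f hf with h | ⟨h, _⟩
      · exact h
      · exact absurd (mem_filter.2 ⟨hf, h⟩) hf'
    · intro v hv
      obtain ⟨f, ⟨hf, hf5, hvf⟩, _⟩ := hB.cover v hv
      exact ⟨f, mem_filter.2 ⟨hf, hf5⟩, hvf⟩
    · intro f hf v hv
      obtain ⟨hf1, hf5⟩ := mem_filter.1 hf
      rcases hB.face f hf1 with h | ⟨_, h⟩
      · omega
      · exact h v hv
    · intro f hf f' hf' v hv hv'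
      obtain ⟨hf1, hf5⟩ := mem_filter.1 hf
      obtain ⟨hf1', hf5'⟩ := mem_filter.1 hf'
      have hin : v ∈ inV M Φ := by
        rcases hB.face f hf1 with h | ⟨_, h⟩
        · omega
        · exact h v hv
      obtain ⟨f₀, _, huniq⟩ := hB.cover v hin
      exact (huniq f ⟨hf1, hf5, hv⟩).trans (huniq f' ⟨hf1', hf5', hv'⟩).symm
  obtain ⟨v, hv⟩ := hB.ne
  obtain ⟨f, ⟨hf, hf5, _⟩, _⟩ := hB.cover v hv
  exact h1 V G M o L P g hM Φ _ w ho hw hp ⟨f, mem_filter.2 ⟨hf, hf5⟩⟩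

end C7
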