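import Pool.Agent.Lib.MP_86b854_co.Lv.Spec

set_option autoImplicit false

/-!
# MP_86b854_co : the accounting over all level components
-/

namespace C7

open PLM T72 Finset Equiv

namespace AccL

/-- Reindexing a double sum along a parent function. -/
theorem sum_par {α β : Type} [DecidableEq α] (A : Finset α) (B : Finset β) (c : β → α → Prop)
    (par : β → α) (h : ∀ b ∈ B, par b ∈ A ∧ ∀ a ∈ A, c b a ↔ a = par b) (S : α → Finset β)
    (hS : ∀ a ∈ A, ∀ b, b ∈ S a ↔ b ∈ B ∧ c b a) (g : α → β → ℤ) :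
    ∑ a ∈ A, ∑ b ∈ S a, g a b = ∑ b ∈ B, g (par b) b := by
  rw [← Finset.sum_fiberwise_of_maps_to (g := par) (fun b hb => (h b hb).1)]
  refine sum_congr rfl fun a ha => ?_
  have h1 : S a = B.filter (fun b => par b = a) := by
    ext b
    rw [hS a ha, mem_filter]
    constructor
    · rintro ⟨hb, hc⟩
      exact ⟨hb, (((h b hb).2 a ha).1 hc).symm⟩
    · rintro ⟨hb, rfl⟩
      exact ⟨hb, ((h b hb).2 _ ha).2 rfl⟩
  rw [h1]
  refine sum_congr rfl fun b hb => ?_
  rw [(mem_filter.1 hb).2]

/-- The parent function. -/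
theorem exists_par {α β : Type} [Inhabited α] (A : Finset α) (B : Finset β) (c : β → α → Prop)
    (h : ∀ b ∈ B, ∃! a, a ∈ A ∧ c b a) :
    ∃ par : β → α, ∀ b ∈ B, par b ∈ A ∧ ∀ a ∈ A, c b a ↔ a = par b := by
  classical
  refine ⟨fun b => if hb : b ∈ B then (h b hb).choose else default, fun b hb => ?_⟩
  have h1 := (h b hb).choose_spec
  simp only [hb, dite_true]
  refine ⟨h1.1.1, fun a ha => ⟨fun hc => h1.2 a ⟨ha, hc⟩, ?_⟩⟩
  rintro rfl
  exact h1.1.2

end AccL

/-- **Acc.** -/
theorem tAcc (hFam : S_Fam) (hLoc : S_Loc) (hVal : S_ValD) : S_Acc := by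
  intro V _ _ G _ M X pi hC h4
  classical
  obtain ⟨-, hF2, hF3, hF4, -, -, -⟩ := hFam V G M X pi hC
  have hL := hLoc V G M X pi hC
  have hV := hVal V G M X pi hC
  set KA := KF M X pi with hKA
  set DA := DF M X pi with hDA
  set K0 := KA.filter (fun K => rt M X ∉ K) with hK0
  set K1 := KA.filter (fun K => rt M X ∈ K) with hK1
  set D0 := DA.filter (fun D => rt M X ∉ D) with hD0
  -- parents
  obtain ⟨pK, hpK⟩ := AccL.exists_par KA D0 (fun D K => Ch (IG M X) pi D K)
    (fun D hD => hF2 D (mem_filter.1 hD).1 (mem_filter.1 hD).2)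
  obtain ⟨pD, hpD⟩ := AccL.exists_par DA K0 (fun K D => Ch (IG M X) pi K D)
    (fun K hK => hF3 K (mem_filter.1 hK).1 (mem_filter.1 hK).2)
  have hmK : ∀ K ∈ KA, ∀ D, D ∈ chK M X pi K ↔ D ∈ D0 ∧ Ch (IG M X) pi D K := by
    intro K _ D
    rw [hD0, mem_filter]
    unfold chK
    rw [mem_filter]
    tauto
  have hmD : ∀ D ∈ DA, ∀ K, K ∈ chD M X pi D ↔ K ∈ K0 ∧ Ch (IG M X) pi K D := by
    intro D _ K
    rw [hK0, mem_filter]
    unfold chD
    rw [mem_filter]
    tauto
  have hsK : ∀ g : Finset (Nd M X) → Finset (Nd M X) → ℤ,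
      ∑ K ∈ KA, ∑ D ∈ chK M X pi K, g K D = ∑ D ∈ D0, g (pK D) D := fun g =>
    AccL.sum_par KA D0 (fun D K => Ch (IG M X) pi D K) pK hpK (chK M X pi) hmK g
  have hsD : ∀ g : Finset (Nd M X) → Finset (Nd M X) → ℤ,
      ∑ D ∈ DA, ∑ K ∈ chD M X pi D, g D K = ∑ K ∈ K0, g (pD K) K := fun g =>
    AccL.sum_par DA K0 (fun K D => Ch (IG M X) pi K D) pD hpD (chD M X pi) hmD g
  -- membership of D in the children of its parent
  have hch : ∀ D ∈ D0, pK D ∈ KA ∧ D ∈ chK M X pi (pK D) := by
    intro D hD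
    have h1 := hpK D hD
    exact ⟨h1.1, (hmK _ h1.1 D).2 ⟨hD, (h1.2 _ h1.1).2 rfl⟩⟩
  -- the number of vertices
  have hX : (2 * X.card : ℤ) = ∑ K ∈ KA, rho M X pi K +
      ∑ D ∈ D0, ((lenD M X pi (pK D) D : ℤ) - 2 + 2 * iso M X pi (pK D) D) := by
    have h1 : (X.card : ℤ) = ∑ K ∈ KA, ((VK M X pi K).card : ℤ) := by
      have h2 := Finset.card_eq_sum_card_image (fun v => tc (IG M X) pi (nv M X v)) X
      have h3 : X.image (fun v => tc (IG M X) pi (nv M X v)) = KA := by
        rw [hKA]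
        rfl
      rw [h3] at h2
      rw [h2]
      push_cast
      refine sum_congr rfl fun K _ => ?_
      rfl
    rw [h1, ← hsK (fun K D => (lenD M X pi K D : ℤ) - 2 + 2 * iso M X pi K D),
      ← sum_add_distrib, mul_sum]
    refine sum_congr rfl fun K _ => ?_
    unfold rho
    ring
  -- splitting KA
  have hsplit : ∀ g : Finset (Nd M X) → ℤ,
      ∑ K ∈ KA, g K = ∑ K ∈ K1, g K + ∑ K ∈ K0, g K := by
    intro g
    exact (sum_filter_add_sum_filter_not KA (fun K => rt M X ∈ K) g).symm
  have hlcs : ((lcs (IG M X) pi (rt M X)).card : ℤ) = K0.card + D0.card := by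
    rw [hF4]
    push_cast
    rfl
  have hr1 : ∀ K ∈ K1, min (2 * ((VK M X pi K).card : ℤ)) 6 ≤ rho M X pi K := fun K hK =>
    (hL K (mem_filter.1 hK).1).2 (mem_filter.1 hK).2
  have hr0 : ∀ K ∈ K0, 7 + (if Single M X pi K then 0 else 2) ≤ rho M X pi K := by
    intro K hK
    obtain ⟨h1, h2⟩ := (hL K (mem_filter.1 hK).1).1 (mem_filter.1 hK).2
    by_cases hs : Single M X pi K
    · rw [if_pos hs]
      omega
    · rw [if_neg hs]
      by_contra h3
      exact hs (h2 (by omega))
  have hd : ∀ D ∈ D0, 5 ≤ lenD M X pi (pK D) D ∧ -2 ≤ val M X pi (pK D) D ∧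
      (val M X pi (pK D) D < 0 → BadD M X pi (pK D) D) := fun D hD =>
    hV (pK D) (hch D hD).1 D (hch D hD).2
  constructor
  · -- the first bound
    have h1 : (0 : ℤ) ≤ ∑ K ∈ K1, rho M X pi K := by
      refine sum_nonneg fun K hK => ?_
      have h2 := hr1 K hK
      have h3 : (0 : ℤ) ≤ min (2 * ((VK M X pi K).card : ℤ)) 6 := by
        rw [le_min_iff]
        constructor
        · positivity
        · norm_num
      omega
    have h2 : (7 * K0.card : ℤ) ≤ ∑ K ∈ K0, rho M X pi K := by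
      have h3 : ∑ K ∈ K0, (7 : ℤ) ≤ ∑ K ∈ K0, rho M X pi K := by
        refine sum_le_sum fun K hK => ?_
        have h4 := hr0 K hK
        have h5 : (0 : ℤ) ≤ (if Single M X pi K then 0 else 2) := by
          split_ifs <;> norm_num
        omega
      rw [sum_const, nsmul_eq_mul] at h3
      linarith
    have h3 : (3 * D0.card : ℤ) ≤
        ∑ D ∈ D0, ((lenD M X pi (pK D) D : ℤ) - 2 + 2 * iso M X pi (pK D) D) := by
      have h4 : ∑ D ∈ D0, (3 : ℤ) ≤
          ∑ D ∈ D0, ((lenD M X pi (pK D) D : ℤ) - 2 + 2 * iso M X pi (pK D) D) := by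
        refine sum_le_sum fun D hD => ?_
        have h5 := (hd D hD).1
        omega
      rw [sum_const, nsmul_eq_mul] at h4
      linarith
    have h4 := hsplit (fun K => rho M X pi K)
    have h5 : (0 : ℤ) ≤ K0.card := by positivity
    have h6 : (3 * (lcs (IG M X) pi (rt M X)).card : ℤ) ≤ 2 * X.card := by
      rw [hlcs]
      linarith
    exact_mod_cast h6
  · -- the second bound
    -- total excess
    have hLam : ∑ D ∈ D0, ∑ f ∈ FD M X pi D, ((len M f : ℤ) - 4) ≤ Lam M X := by
      have h1 : Lam M X = ∑ D ∈ DA, ∑ f ∈ FD M X pi D, ((len M f : ℤ) - 4) := by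
        unfold Lam
        rw [← Finset.sum_fiberwise_of_maps_to (s := univ.filter fun f => ¬ RootF M X f) (t := DA)
          (g := fun f => tc (IG M X) pi (nf M X f))]
        · refine sum_congr rfl fun D _ => ?_
          refine sum_congr ?_ fun _ _ => rfl
          unfold FD
          rw [filter_filter]
        · intro f _
          rw [hDA]
          exact mem_image_of_mem _ (mem_univ f)
      rw [h1]
      refine sum_le_sum_of_subset_of_nonneg (filter_subset _ _) fun D _ _ => ?_
      refine sum_nonneg fun f _ => ?_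
      have := h4 f
      omega
    -- the number of the components which are not single
    have hSg : ∑ D ∈ D0, (2 * (((chD M X pi D).filter fun K' => ¬ Single M X pi K').card : ℤ)) ≤
        ∑ K ∈ K0, (if Single M X pi K then 0 else 2) := by
      rw [← hsD (fun _ K => if Single M X pi K then 0 else 2)]
      calc ∑ D ∈ D0, (2 * (((chD M X pi D).filter fun K' => ¬ Single M X pi K').card : ℤ))
          = ∑ D ∈ D0, ∑ K ∈ chD M X pi D, (if Single M X pi K then (0 : ℤ) else 2) := by
            refine sum_congr rfl fun D _ => ?_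
            rw [card_filter]
            push_cast
            rw [mul_sum]
            refine sum_congr rfl fun K _ => ?_
            split_ifs <;> simp_all
        _ ≤ _ := by
            refine sum_le_sum_of_subset_of_nonneg (filter_subset _ _) fun D _ _ => ?_
            refine sum_nonneg fun K _ => ?_
            split_ifs <;> norm_num
    -- the bad components
    have hBad : -(2 * (nbad M X pi : ℤ)) ≤ ∑ D ∈ D0, val M X pi (pK D) D := by
      have h1 : (nbad M X pi : ℤ) = ∑ D ∈ D0, (if ∃ K ∈ KF M X pi, Ch (IG M X) pi D K ∧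
          BadD M X pi K D then (1 : ℤ) else 0) := by
        unfold nbad
        rw [hD0, sum_filter, card_filter]
        push_cast
        refine sum_congr rfl fun D _ => ?_
        split_ifs <;> simp_all
      rw [h1, mul_sum, ← sum_neg_distrib]
      refine sum_le_sum fun D hD => ?_
      obtain ⟨-, h2, h3⟩ := hd D hD
      by_cases h5 : val M X pi (pK D) D < 0
      · have h6 := h3 h5
        rw [if_pos ⟨pK D, (hch D hD).1, ((hmK _ (hch D hD).1 D).1 (hch D hD).2).2, h6⟩]
        omega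
      · have h6 : (0 : ℤ) ≤ (if ∃ K ∈ KF M X pi, Ch (IG M X) pi D K ∧ BadD M X pi K D
            then (1 : ℤ) else 0) := by
          split_ifs <;> norm_num
        omega
    have hR0 : 7 * (K0.card : ℤ) + ∑ K ∈ K0, (if Single M X pi K then (0 : ℤ) else 2) ≤
        ∑ K ∈ K0, rho M X pi K := by
      calc 7 * (K0.card : ℤ) + ∑ K ∈ K0, (if Single M X pi K then (0 : ℤ) else 2)
          = ∑ K ∈ K0, (7 + (if Single M X pi K then (0 : ℤ) else 2)) := by
            rw [sum_add_distrib, sum_const, nsmul_eq_mul]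
            ring
        _ ≤ _ := sum_le_sum hr0
    have hR1 : ∑ K ∈ K1, min (2 * ((VK M X pi K).card : ℤ)) 6 ≤ ∑ K ∈ K1, rho M X pi K :=
      sum_le_sum hr1
    have hval : ∑ D ∈ D0, val M X pi (pK D) D =
        ∑ D ∈ D0, ((lenD M X pi (pK D) D : ℤ) - 2 + 2 * iso M X pi (pK D) D) - 7 * D0.card +
        4 * ∑ D ∈ D0, ∑ f ∈ FD M X pi D, ((len M f : ℤ) - 4) +
        ∑ D ∈ D0, (2 * (((chD M X pi D).filter fun K' => ¬ Single M X pi K').card : ℤ)) := by
      have h1 : (7 * D0.card : ℤ) = ∑ D ∈ D0, (7 : ℤ) := by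
        rw [sum_const, nsmul_eq_mul]
        ring
      rw [h1, mul_sum, ← sum_sub_distrib, ← sum_add_distrib, ← sum_add_distrib]
      refine sum_congr rfl fun D _ => ?_
      unfold val
      ring
    have hs := hsplit (fun K => rho M X pi K)
    rw [hlcs]
    linarith

end C7
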