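import Pool.Agent.Lib.MP_86b854_co.Lv.Spec

set_option autoImplicit false

namespace C7

open PLM T72 Finset Equiv

namespace BadRedAux

set_option linter.unusedSectionVars false

variable {V : Type} [Fintype V] [DecidableEq V] {G : SimpleGraph V} [DecidableRel G.Adj]

theorem nf_root {M : CMap G.Dart V} {X : Finset V} {f : Fc M} (h : RootF M X f) :
    nf M X f = rt M X := by
  unfold nf rt
  rw [dif_pos h]

theorem nf_not {M : CMap G.Dart V} {X : Finset V} {f : Fc M} (h : ¬ RootF M X f) :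
    nf M X f = some (Sum.inr ⟨f, h⟩) := by
  unfold nf
  rw [dif_neg h]

theorem nv_mem {M : CMap G.Dart V} {X : Finset V} {v : V} (h : v ∈ X) :
    nv M X v = some (Sum.inl ⟨v, h⟩) := by
  unfold nv
  rw [dif_pos h]

theorem nc_nv {M : CMap G.Dart V} {X : Finset V} {v : V} (h : v ∈ X) :
    nc M X (nv M X v) = true := by
  rw [nv_mem h]
  rfl

theorem nc_nf {M : CMap G.Dart V} {X : Finset V} (f : Fc M) :
    nc M X (nf M X f) = false := by
  by_cases h : RootF M X f
  · rw [nf_root h]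
    rfl
  · rw [nf_not h]
    rfl

theorem nf_inj {M : CMap G.Dart V} {X : Finset V} {f g : Fc M} (hf : ¬ RootF M X f)
    (hg : ¬ RootF M X g) (h : nf M X f = nf M X g) : f = g := by
  rw [nf_not hf, nf_not hg] at h
  exact congrArg Subtype.val (Sum.inr.inj (Option.some.inj h))

theorem nv_inj {M : CMap G.Dart V} {X : Finset V} {v w : V} (hv : v ∈ X)
    (hw : w ∈ X) (h : nv M X v = nv M X w) : v = w := by
  rw [nv_mem hv, nv_mem hw] at h
  exact congrArg Subtype.val (Sum.inl.inj (Option.some.inj h))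

theorem lc_le {N : Type} [Fintype N] [DecidableEq N] {I : SimpleGraph N} {pi : N → ℤ} {i : ℤ}
    {x y : N} (hx : pi x ≤ i) (hy : y ∈ lc I pi i x) : pi y ≤ i := by
  have h : Relation.ReflTransGen (fun a b => I.Adj a b ∧ pi a ≤ i ∧ pi b ≤ i) x y := by
    classical
    have := (mem_filter.1 hy).2
    exact this
  induction h with
  | refl => exact hx
  | tail _ h _ => exact h.2.2

theorem mem_tc {N : Type} [Fintype N] [DecidableEq N] (I : SimpleGraph N) (pi : N → ℤ)
    (x : N) : x ∈ tc I pi x := by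
  classical
  exact mem_filter.2 ⟨mem_univ _, Relation.ReflTransGen.refl⟩

theorem tc_level {N : Type} [Fintype N] [DecidableEq N] {I : SimpleGraph N} {pi : N → ℤ}
    {x y : N} (h : tc I pi x = tc I pi y) : pi x = pi y := by
  apply le_antisymm
  · have : x ∈ tc I pi y := h ▸ mem_tc I pi x
    exact lc_le le_rfl this
  · have : y ∈ tc I pi x := h ▸ mem_tc I pi y
    exact lc_le le_rfl this

end BadRedAux

open BadRedAux

theorem tBadRed (hFam : S_Fam) (hChild : S_Child) : S_BadRed := by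
  intro V _ _ G _ M X pi hctx K hK D hD hbad
  classical
  obtain ⟨f1, -, -, -, -, f6, -⟩ := hFam V G M X pi hctx
  have hD' : D ∈ DF M X pi ∧ Ch (IG M X) pi D K ∧ rt M X ∉ D := by
    unfold chK at hD
    rw [mem_filter] at hD
    exact hD
  obtain ⟨hDF, hCh, hrt⟩ := hD'
  have hchild := hChild V G M X pi hctx K hK D hDF hCh
  have hroot : ∀ f ∈ fD M X D, ¬ RootF M X f := by
    intro f hf hr
    unfold fD at hf
    rw [mem_filter, nf_root hr] at hf
    exact hrt hf.2
  have hmemD : ∀ f, f ∈ fD M X D ↔ nf M X f ∈ D := by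
    intro f
    unfold fD
    rw [mem_filter]
    exact ⟨fun h => h.2, fun h => ⟨mem_univ _, h⟩⟩
  -- vertex nodes are not the node of `D`
  have htop : ∀ v ∈ X, tc (IG M X) pi (nv M X v) ≠ D := by
    intro v hv he
    unfold DF at hDF
    rw [mem_image] at hDF
    obtain ⟨y, -, hy⟩ := hDF
    have hl : pi (nv M X v) = pi (nf M X y) := tc_level (he.trans hy.symm)
    have h1 : Even (pi (nf M X y)) := (f1 _).2 (nc_nf y)
    rw [← hl] at h1
    have h2 := (f1 _).1 h1
    rw [nc_nv hv] at h2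
    exact absurd h2 (by simp)
  -- children of `D` are single
  have hsing : ∀ x ∈ D, tc (IG M X) pi x ≠ D → ∃ K' ⊆ D, x ∈ K' ∧ Single M X pi K' := by
    intro x hx hne
    obtain ⟨K', hK', hCh', hxK'⟩ := f6 D hDF x hx hne
    refine ⟨K', hCh'.1, hxK', hbad.sing K' ?_⟩
    unfold chD
    rw [mem_filter]
    exact ⟨hK', hCh', fun h => hrt (hCh'.1 h)⟩
  have hVK : ∀ K' v, v ∈ VK M X pi K' ↔ v ∈ X ∧ tc (IG M X) pi (nv M X v) = K' := by
    intro K' v
    unfold VK
    rw [mem_filter]
  -- a face in `Φ` of length different from `4` is the pentagon of a single child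
  have hpent : ∀ f ∈ fD M X D, len M f ≠ 4 → ∃ K' ⊆ D, nf M X f ∈ K' ∧ len M f = 5 ∧
      (∀ v, Inc M v f ↔ v ∈ VK M X pi K') ∧
      (∀ x, x ∈ K' ↔ x = nf M X f ∨ ∃ v ∈ VK M X pi K', x = nv M X v) := by
    intro f hf hlen
    have hr := hroot f hf
    have hne : tc (IG M X) pi (nf M X f) ≠ D := by
      intro he
      apply hlen
      apply hbad.quad
      unfold FD
      rw [mem_filter]
      exact ⟨mem_univ _, hr, he⟩
    obtain ⟨K', hsub, hmem, f', hr', hl', -, hinc, hset⟩ := hsing _ ((hmemD f).1 hf) hne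
    have hff : f = f' := by
      rcases (hset _).1 hmem with h | ⟨v, hv, h⟩
      · exact nf_inj hr hr' h
      · exfalso
        rw [nf_not hr, nv_mem ((hVK K' v).1 hv).1] at h
        exact Sum.inr_ne_inl (Option.some.inj h)
    subst hff
    exact ⟨K', hsub, hmem, hl', hinc, hset⟩
  refine ⟨⟨hbad.bd7, ?_, ?_, ?_⟩, hroot⟩
  · obtain ⟨v, hvX, hvD⟩ := hbad.ne
    exact ⟨v, hchild.2 v hvD hvX⟩
  · intro f hf
    by_cases hlen : len M f = 4
    · exact Or.inl hlen
    · right
      obtain ⟨K', hsub, hmem, hl, hinc, hset⟩ := hpent f hf hlen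
      refine ⟨hl, fun v hv => ?_⟩
      have h1 := (hinc v).1 hv
      have h2 : nv M X v ∈ K' := (hset _).2 (Or.inr ⟨v, h1, rfl⟩)
      exact hchild.2 v (hsub h2) ((hVK K' v).1 h1).1
  · intro v hv
    obtain ⟨hvX, hvD⟩ := hbad.cov v hv
    obtain ⟨K', hsub, hmem, f', hr', hl', -, hinc, hset⟩ := hsing _ hvD (htop v hvX)
    have hvK : v ∈ VK M X pi K' := by
      rcases (hset _).1 hmem with h | ⟨v', hv', h⟩
      · exfalso
        rw [nf_not hr', nv_mem hvX] at h
        exact Sum.inl_ne_inr (Option.some.inj h)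
      · have := nv_inj hvX ((hVK K' v').1 hv').1 h
        rwa [this]
    refine ⟨f', ⟨(hmemD f').2 (hsub ((hset _).2 (Or.inl rfl))), hl', (hinc v).2 hvK⟩, ?_⟩
    rintro g ⟨hgD, hgl, hgv⟩
    obtain ⟨K'', -, hmem'', -, hinc'', -⟩ := hpent g hgD (by rw [hgl]; norm_num)
    have h1 := (hinc'' v).1 hgv
    have hKK : K'' = K' := by
      rw [← ((hVK K'' v).1 h1).2, ← ((hVK K' v).1 hvK).2]
    rw [hKK] at hmem''
    rcases (hset _).1 hmem'' with h | ⟨v', hv', h⟩
    · exact nf_inj (hroot g hgD) hr' h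
    · exfalso
      rw [nf_not (hroot g hgD), nv_mem ((hVK K' v').1 hv').1] at h
      exact Sum.inr_ne_inl (Option.some.inj h)

end C7
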