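import Pool.Agent.Lib.MP_86b854_co.Lv.Spec
import Pool.Agent.Lib.MP_86b854_co.D.Bas

set_option autoImplicit false
set_option linter.unusedSectionVars false

/-!
# MP_86b854_co : `S_Child`, the faces of a child form one region
-/

namespace C7

open PLM T72 Finset Equiv

namespace ChildA

section Lev

variable {N : Type} [Fintype N] [DecidableEq N] {I : SimpleGraph N} {pi : N → ℤ}

theorem mem_lc {i : ℤ} {x y : N} : y ∈ lc I pi i x ↔
    Relation.ReflTransGen (fun a b => I.Adj a b ∧ pi a ≤ i ∧ pi b ≤ i) x y := by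
  simp [lc]

theorem lc_self (i : ℤ) (x : N) : x ∈ lc I pi i x := mem_lc.2 Relation.ReflTransGen.refl

theorem rt_symm {i : ℤ} {x y : N}
    (h : Relation.ReflTransGen (fun a b => I.Adj a b ∧ pi a ≤ i ∧ pi b ≤ i) x y) :
    Relation.ReflTransGen (fun a b => I.Adj a b ∧ pi a ≤ i ∧ pi b ≤ i) y x := by
  induction h with
  | refl => exact Relation.ReflTransGen.refl
  | tail _ h1 ih => exact Relation.ReflTransGen.head ⟨h1.1.symm, h1.2.2, h1.2.1⟩ ih

theorem lc_eq {i : ℤ} {x y : N} (h : y ∈ lc I pi i x) : lc I pi i y = lc I pi i x := by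
  have h1 := mem_lc.1 h
  ext z
  rw [mem_lc, mem_lc]
  exact ⟨fun h2 => h1.trans h2, fun h2 => (rt_symm h1).trans h2⟩

theorem lc_le {i : ℤ} {x : N} (hx : pi x ≤ i) {y : N} (h : y ∈ lc I pi i x) : pi y ≤ i := by
  have h1 := mem_lc.1 h
  induction h1 with
  | refl => exact hx
  | tail _ h1 _ => exact h1.2.2

theorem lc_adj {i : ℤ} {x : N} (hx : pi x ≤ i) {y z : N} (h : y ∈ lc I pi i x)
    (hyz : I.Adj y z) (hz : pi z ≤ i) : z ∈ lc I pi i x :=
  mem_lc.2 ((mem_lc.1 h).tail ⟨hyz, lc_le hx h, hz⟩)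

theorem tc_lev {x y : N} (h : tc I pi x = tc I pi y) : pi x = pi y := by
  apply le_antisymm
  · have h1 : x ∈ tc I pi y := h ▸ lc_self _ _
    exact lc_le le_rfl h1
  · have h1 : y ∈ tc I pi x := h ▸ lc_self _ _
    exact lc_le le_rfl h1

end Lev

variable {V : Type} [Fintype V] [DecidableEq V] {G : SimpleGraph V} [DecidableRel G.Adj]
  {M : CMap G.Dart V} {X : Finset V}

theorem nc_nv {v : V} (h : v ∈ X) : nc M X (nv M X v) = true := by
  unfold nv
  rw [dif_pos h]
  rfl

theorem nc_nf (f : Fc M) : nc M X (nf M X f) = false := by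
  unfold nf
  split_ifs <;> rfl

theorem nf_root {f : Fc M} (h : RootF M X f) : nf M X f = rt M X := by
  unfold nf
  rw [dif_pos h]
  rfl

theorem nf_inj {f g : Fc M} (h : nf M X f = nf M X g) : (RootF M X f ∧ RootF M X g) ∨ f = g := by
  unfold nf at h
  split_ifs at h with h1 h2 h2
  · exact Or.inl ⟨h1, h2⟩
  · right
    have h3 := Option.some.inj h
    have h4 := Sum.inr.inj h3
    exact congrArg Subtype.val h4

theorem adj_nv {v : V} {f : Fc M} (hv : v ∈ X) (h : Inc M v f) :
    (IG M X).Adj (nv M X v) (nf M X f) := by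
  refine ⟨?_, v, f, hv, h, Or.inl ⟨rfl, rfl⟩⟩
  rw [nc_nv hv, nc_nf]
  exact Bool.noConfusion

theorem inc_fst (d : G.Dart) : Inc M d.fst (fc M d) := ⟨d, rfl, rfl⟩

theorem inc_fst' (hM : PlaneMap M) (d : G.Dart) : Inc M d.fst (fc M d.symm) :=
  ⟨M.σ d, Bas.sig_fst hM d, (Bas.fc_symm hM d).symm⟩

theorem inc_snd (hM : PlaneMap M) (d : G.Dart) : Inc M d.snd (fc M d) :=
  ⟨M.φ d, Bas.phi_fst hM d, Bas.fc_phi d⟩

theorem inc_snd' (d : G.Dart) : Inc M d.snd (fc M d.symm) := ⟨d.symm, rfl, rfl⟩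

theorem notin_dIn {U : Finset V} {d : G.Dart} (h : d ∉ dIn G U) : d.fst ∉ U ∨ d.snd ∉ U := by
  by_contra h1
  push Not at h1
  exact h (by simp only [dIn, mem_filter, mem_univ, true_and]; exact h1)

theorem dIn_symm {U : Finset V} {d : G.Dart} (h : d ∉ dIn G U) : d.symm ∉ dIn G U := by
  intro h1
  apply h
  simp only [dIn, mem_filter, mem_univ, true_and] at h1 ⊢
  exact ⟨h1.2, h1.1⟩

/-- all faces around a vertex outside of `U` have the same status in a closed set of faces -/
theorem around (hM : PlaneMap M) {U : Finset V} {R : Finset (Fc M)} (hR : Clo M (dIn G U) R)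
    {u : V} (hu : u ∉ U) {f g : Fc M} (hf : Inc M u f) (hg : Inc M u g) (h : f ∈ R) : g ∈ R := by
  obtain ⟨d, hd, rfl⟩ := hf
  obtain ⟨e, he, rfl⟩ := hg
  have hsc : M.σ.SameCycle d e := by
    rw [← M.hv, hM.1, hM.1, hd, he]
  have := PanD.SameCycle.mem_closed (S := {x : G.Dart | x.fst = u ∧ fc M x ∈ R}) hsc (by
    intro x hx
    obtain ⟨hx1, hx2⟩ := hx
    refine ⟨(Bas.sig_fst hM x).trans hx1, ?_⟩
    rw [← Bas.fc_symm hM]
    refine (hR x ?_).1 hx2
    intro h1
    simp only [dIn, mem_filter, mem_univ, true_and] at h1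
    exact hu (hx1 ▸ h1.1)) ⟨hd, h⟩
  exact this.2

/-- the faces which belong to a node -/
def At (M : CMap G.Dart V) (X : Finset V) (x : Nd M X) (f : Fc M) : Prop :=
  x = nf M X f ∨ ∃ u ∈ X, x = nv M X u ∧ Inc M u f

end ChildA

open ChildA in
theorem tChild (hFam : S_Fam) : S_Child := by
  intro V _ _ G _ M X pi hC K hK D hD hDK
  obtain ⟨hpar, -⟩ := hFam V G M X pi hC
  obtain ⟨hsub, x, y, hx, hy, hxy⟩ := hDK
  have hM := hC.plane
  have hstep := hC.lev.step
  obtain ⟨v₀, hv₀, hKv⟩ := mem_image.1 hK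
  obtain ⟨f₀, -, hDf⟩ := mem_image.1 hD
  have hlv : pi (nv M X v₀) = pi y := tc_lev (hKv.trans hy.symm)
  have hodd : ¬ Even (pi y) := by
    rw [← hlv, hpar, nc_nv hv₀]
    exact Bool.noConfusion
  have hDle : ∀ z ∈ D, pi z ≤ pi y - 1 := by
    intro z hz
    rw [← hx] at hz
    have := lc_le le_rfl hz
    omega
  have hDcl : ∀ z ∈ D, ∀ u, (IG M X).Adj z u → pi u ≤ pi y - 1 → u ∈ D := by
    intro z hz u hzu hu
    rw [← hx] at hz ⊢
    exact lc_adj le_rfl hz hzu (by omega)
  have hKcl : ∀ z ∈ K, ∀ u, (IG M X).Adj z u → pi u ≤ pi y → u ∈ K := by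
    intro z hz u hzu hu
    rw [← hy] at hz ⊢
    exact lc_adj le_rfl hz hzu hu
  have hU : ∀ u ∈ X, nv M X u ∈ K → pi (nv M X u) = pi y → u ∈ VK M X pi K := by
    intro u hu h1 h2
    rw [VK, mem_filter]
    refine ⟨hu, ?_⟩
    rw [← hy] at h1
    have h3 := lc_eq h1
    unfold tc
    rw [h2, h3]
    exact hy
  have hU' : ∀ u ∈ VK M X pi K, u ∈ X ∧ pi (nv M X u) = pi y := by
    intro u hu
    rw [VK, mem_filter] at hu
    exact ⟨hu.1, tc_lev (hu.2.trans hy.symm)⟩
  -- Claim A
  have hA : ∀ u ∈ X, u ∉ VK M X pi K → ∀ f, Inc M u f → nf M X f ∈ D → nv M X u ∈ D := by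
    intro u hu huK f huf hf
    have hadj := adj_nv hu huf
    have h1 := hstep _ _ hadj
    have h2 := hDle _ hf
    by_cases h3 : pi (nv M X u) ≤ pi y - 1
    · exact hDcl _ hf _ hadj.symm h3
    · exfalso
      apply huK
      apply hU u hu
      · exact hKcl _ (hsub hf) _ hadj.symm (by omega)
      · omega
  -- Claim C
  have hCl : ∀ u ∈ X, nv M X u ∈ D → ∀ f, Inc M u f → nf M X f ∈ D := by
    intro u hu huD f huf
    have hadj := adj_nv hu huf
    have h1 := hstep _ _ hadj
    have h2 := hDle _ huD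
    refine hDcl _ huD _ hadj ?_
    have h3 : ¬ Even (pi (nv M X u)) := by
      rw [hpar, nc_nv hu]
      exact Bool.noConfusion
    rw [Int.not_even_iff] at hodd h3
    omega
  have hB : ∀ u ∈ X, nv M X u ∈ D → u ∉ VK M X pi K := by
    intro u _ h1 h2
    have h3 := hDle _ h1
    have h4 := (hU' u h2).2
    omega
  have hmem : ∀ f, f ∈ fD M X D ↔ nf M X f ∈ D := by
    intro f
    simp [fD]
  have hmove : ∀ u, u ∉ VK M X pi K → ∀ f g, Inc M u f → Inc M u g → nf M X f ∈ D →
      nf M X g ∈ D := by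
    intro u hu f g huf hug hf
    by_cases hX : u ∈ X
    · exact hCl u hX (hA u hX hu f huf hf) g hug
    · have h1 : RootF M X f := ⟨u, hX, huf⟩
      have h2 : RootF M X g := ⟨u, hX, hug⟩
      rw [nf_root h2]
      rwa [nf_root h1] at hf
  have hclo1 : ∀ d : G.Dart, d ∉ dIn G (VK M X pi K) → nf M X (fc M d) ∈ D →
      nf M X (fc M d.symm) ∈ D := by
    intro d hd hf
    rcases notin_dIn hd with h1 | h1
    · exact hmove _ h1 _ _ (inc_fst d) (inc_fst' hM d) hf
    · exact hmove _ h1 _ _ (inc_snd hM d) (inc_snd' d) hf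
  refine ⟨?_, ?_⟩
  · classical
    rw [regs, mem_filter]
    refine ⟨mem_univ _, ⟨f₀, ?_⟩, ?_, ?_⟩
    · rw [hmem, ← hDf]
      exact lc_self _ _
    · intro d hd
      rw [hmem, hmem]
      refine ⟨hclo1 d hd, fun h => ?_⟩
      have h1 := hclo1 d.symm (dIn_symm hd) h
      rwa [SimpleGraph.Dart.symm_symm] at h1
    · intro R' hR' hne hcl
      have hclX : Clo M (dIn G X) R' := by
        intro d hd
        apply hcl d
        intro h1
        apply hd
        unfold HK dIn at h1
        rw [mem_filter] at h1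
        rw [dIn, mem_filter]
        exact ⟨mem_univ _, (hU' _ h1.2.1).1, (hU' _ h1.2.2).1⟩
      -- same status
      have hst : ∀ z ∈ D, ∀ f g, At M X z f → At M X z g → f ∈ R' → g ∈ R' := by
        intro z hz f g hf hg hfR
        rcases hf with hf | ⟨u, hu, huz, huf⟩
        · rcases hg with hg | ⟨u', hu', hu'z, hu'g⟩
          · rcases nf_inj (hf.symm.trans hg) with ⟨h1, h2⟩ | rfl
            · exact (hC.root R' hclX f g h1 h2).1 hfR
            · exact hfR
          · exfalso
            have h1 : nc M X z = true := by rw [hu'z, nc_nv hu']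
            rw [hf, nc_nf] at h1
            exact Bool.noConfusion h1
        · rcases hg with hg | ⟨u', hu', hu'z, hu'g⟩
          · exfalso
            have h1 : nc M X z = true := by rw [huz, nc_nv hu]
            rw [hg, nc_nf] at h1
            exact Bool.noConfusion h1
          · have h1 : nv M X u = nv M X u' := huz.symm.trans hu'z
            have h2 : u = u' := by
              unfold nv at h1
              rw [dif_pos hu, dif_pos hu'] at h1
              have h3 := Option.some.inj h1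
              have h4 := Sum.inl.inj h3
              exact congrArg Subtype.val h4
            subst h2
            exact around hM hcl (hB u hu (huz ▸ hz)) huf hu'g hfR
      obtain ⟨f₁, hf₁⟩ := hne
      have hf₁D : nf M X f₁ ∈ D := (hmem _).1 (hR' hf₁)
      have hDeq : D = lc (IG M X) pi (pi x) (nf M X f₁) := by
        rw [← hx] at hf₁D
        rw [lc_eq hf₁D]
        exact hx.symm
      have hall : ∀ z, Relation.ReflTransGen
          (fun a b => (IG M X).Adj a b ∧ pi a ≤ pi x ∧ pi b ≤ pi x) (nf M X f₁) z →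
          ∃ f ∈ R', At M X z f := by
        intro z hz
        induction hz with
        | refl => exact ⟨f₁, hf₁, Or.inl rfl⟩
        | @tail a b h1 h2 ih =>
          obtain ⟨f, hf, hfa⟩ := ih
          have haD : a ∈ D := by
            rw [hDeq]
            exact mem_lc.2 h1
          obtain ⟨-, v, g, hv, hvg, h3⟩ := h2.1
          rcases h3 with ⟨h3, h4⟩ | ⟨h3, h4⟩
          · exact ⟨g, hst a haD f g hfa (Or.inr ⟨v, hv, h3, hvg⟩) hf, Or.inl h4⟩
          · exact ⟨g, hst a haD f g hfa (Or.inl h4) hf, Or.inr ⟨v, hv, h3, hvg⟩⟩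
      apply Finset.Subset.antisymm hR'
      intro f hf
      have hfD : nf M X f ∈ D := (hmem _).1 hf
      have hfD' := hfD
      rw [hDeq] at hfD'
      obtain ⟨g, hg, hga⟩ := hall _ (mem_lc.1 hfD')
      exact hst _ hfD g f hga (Or.inl rfl) hg
  · intro v hv hX
    rw [Bas.mem_inV]
    intro d hd
    rw [hmem]
    exact hCl v hX hv _ ⟨d, hd, rfl⟩

end C7
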