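import Pool.Agent.Lib.MP_86b854_co.Lv.Spec

set_option autoImplicit false
set_option linter.unusedSectionVars false

namespace C7

open PLM T72 Finset Equiv

namespace FamA

/-! ### generic part -/

section Gen

variable {N : Type} [Fintype N] [DecidableEq N] {I : SimpleGraph N} {pi : N → ℤ}

/-- the facts of `S_LC` -/
structure LCF (I : SimpleGraph N) (pi : N → ℤ) : Prop where
  l1 : ∀ i x, x ∈ lc I pi i x
  l2 : ∀ i x y, y ∈ lc I pi i x → lc I pi i y = lc I pi i x
  l3 : ∀ i j x, i ≤ j → lc I pi i x ⊆ lc I pi j x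
  l4 : ∀ i x, pi x ≤ i → ∀ y ∈ lc I pi i x, pi y ≤ i
  l5 : ∀ i x, pi x ≤ i → ∀ y ∈ lc I pi i x, ∀ z, I.Adj y z → pi z ≤ i → z ∈ lc I pi i x
  l6 : ∀ i x z, pi x ≤ i → z ∉ lc I pi i x → ∃ y ∈ lc I pi i x, pi y = i ∧
      tc I pi y = lc I pi i x ∧ ∃ u, I.Adj y u ∧ pi u = i + 1

theorem self_tc (h : LCF I pi) (x : N) : x ∈ tc I pi x := h.l1 _ _

theorem tc_level (h : LCF I pi) {x y : N} (e : tc I pi x = tc I pi y) : pi x = pi y := by
  have h1 : x ∈ tc I pi y := e ▸ self_tc h x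
  have h2 : y ∈ tc I pi x := e ▸ self_tc h y
  have h3 := h.l4 _ _ (le_refl (pi y)) x h1
  have h4 := h.l4 _ _ (le_refl (pi x)) y h2
  omega

theorem ch_unique (h : LCF I pi) {C C' C'' : Finset N} (h1 : Ch I pi C C') (h2 : Ch I pi C C'') :
    C' = C'' := by
  obtain ⟨hs1, x1, y1, hx1, hy1, hp1⟩ := h1
  obtain ⟨hs2, x2, y2, hx2, hy2, hp2⟩ := h2
  have e : pi x1 = pi x2 := tc_level h (hx1.trans hx2.symm)
  have m1 : x1 ∈ lc I pi (pi y1) y1 := by
    have : x1 ∈ C := hx1 ▸ self_tc h x1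
    have := hs1 this
    rw [← hy1] at this
    exact this
  have m2 : x1 ∈ lc I pi (pi y2) y2 := by
    have : x1 ∈ C := hx1 ▸ self_tc h x1
    have := hs2 this
    rw [← hy2] at this
    exact this
  have a1 := h.l2 _ _ _ m1
  have a2 := h.l2 _ _ _ m2
  have ey : pi y1 = pi y2 := by omega
  rw [ey] at a1
  rw [← hy1, ← hy2]
  unfold tc
  rw [ey]
  rw [← a1, ← a2]

theorem ch_disj (h : LCF I pi) {D D' K : Finset N} (h1 : Ch I pi D K) (h2 : Ch I pi D' K) {x : N}
    (hx : x ∈ D) (hx' : x ∈ D') : D = D' := by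
  obtain ⟨_, x1, y1, hx1, hy1, hp1⟩ := h1
  obtain ⟨_, x2, y2, hx2, hy2, hp2⟩ := h2
  have e : pi y1 = pi y2 := tc_level h (hy1.trans hy2.symm)
  have ex : pi x1 = pi x2 := by omega
  rw [← hx1] at hx ⊢
  rw [← hx2] at hx' ⊢
  have a1 := h.l2 _ _ _ hx
  have a2 := h.l2 _ _ _ hx'
  unfold tc
  rw [ex] at a1 ⊢
  rw [← a1, ← a2]

theorem pUp (h : LCF I pi) {y z : N} (hz : z ∉ tc I pi y) : ∃ y' u, tc I pi y' = tc I pi y ∧
    pi y' = pi y ∧ I.Adj y' u ∧ pi u = pi y + 1 ∧ Ch I pi (tc I pi y) (tc I pi u) := by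
  obtain ⟨y', hy', hp, ht, u, hu, hpu⟩ := h.l6 (pi y) y z (le_refl _) hz
  refine ⟨y', u, ht, hp, hu, hpu, ?_, y', u, ht, rfl, by omega⟩
  have h1 : y' ∈ lc I pi (pi u) u := h.l5 _ _ (le_refl _) u (h.l1 _ _) y' hu.symm (by omega)
  have h2 := h.l2 _ _ _ h1
  have h3 : lc I pi (pi y) y = lc I pi (pi y) y' := (h.l2 _ _ _ hy').symm
  intro w hw
  show w ∈ lc I pi (pi u) u
  rw [← h2]
  have hw' : w ∈ lc I pi (pi y) y' := by
    rw [← h3]; exact hw
  exact h.l3 _ _ _ (by omega) hw'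

theorem pDown (h : LCF I pi) {y0 x : N} (hx : x ∈ tc I pi y0) (hne : tc I pi x ≠ tc I pi y0) :
    ∃ y u, pi y = pi y0 - 1 ∧ I.Adj y u ∧ Ch I pi (tc I pi y) (tc I pi y0) ∧ x ∈ tc I pi y := by
  have h1 : pi x ≤ pi y0 := h.l4 _ _ (le_refl _) x hx
  have h2 : lc I pi (pi y0) x = lc I pi (pi y0) y0 := h.l2 _ _ _ hx
  have h3 : pi x ≤ pi y0 - 1 := by
    by_contra hc
    have : pi x = pi y0 := by omega
    apply hne
    unfold tc
    rw [this]
    exact h2
  have h4 : y0 ∉ lc I pi (pi y0 - 1) x := by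
    intro hc
    have := h.l4 _ _ h3 y0 hc
    omega
  obtain ⟨y, hy, hp, ht, u, hu, hpu⟩ := h.l6 (pi y0 - 1) x y0 h3 h4
  refine ⟨y, u, hp, hu, ⟨?_, y, y0, rfl, rfl, by omega⟩, ?_⟩
  · rw [ht]
    intro w hw
    show w ∈ lc I pi (pi y0) y0
    rw [← h2]
    exact h.l3 _ _ _ (by omega) hw
  · rw [ht]
    exact h.l1 _ _

end Gen

/-! ### nodes -/

variable {V : Type} [Fintype V] [DecidableEq V] {G : SimpleGraph V} [DecidableRel G.Adj]
  {M : CMap G.Dart V} {X : Finset V}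

theorem nc_nv {v : V} (h : v ∈ X) : nc M X (nv M X v) = true := by
  unfold nv
  rw [dif_pos h]
  rfl

theorem nc_nf (f : Fc M) : nc M X (nf M X f) = false := by
  unfold nf
  split_ifs <;> rfl

theorem nc_true {x : Nd M X} (h : nc M X x = true) : ∃ v ∈ X, x = nv M X v := by
  rcases x with _ | ⟨⟨v, hv⟩⟩ | ⟨⟨f, hf⟩⟩
  · exact absurd h (by simp [nc])
  · refine ⟨v, hv, ?_⟩
    unfold nv
    rw [dif_pos hv]
  · exact absurd h (by simp [nc])

theorem nc_false {x : Nd M X} (h : nc M X x = false) : x = rt M X ∨ ∃ f, x = nf M X f := by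
  rcases x with _ | ⟨⟨v, hv⟩⟩ | ⟨⟨f, hf⟩⟩
  · exact Or.inl rfl
  · exact absurd h (by simp [nc])
  · right
    refine ⟨f, ?_⟩
    unfold nf
    rw [dif_neg hf]

theorem adj_nf {x y : Nd M X} (h : (IG M X).Adj x y) (hx : nc M X x = false) :
    ∃ f, x = nf M X f := by
  obtain ⟨_, v, f, hv, _, h | h⟩ := h
  · rw [h.1, nc_nv hv] at hx
    exact absurd hx (by simp)
  · exact ⟨f, h.2⟩

theorem par {pi : Nd M X → ℤ}
    (hs : ∀ x y, (IG M X).Adj x y → pi x = pi y + 1 ∨ pi y = pi x + 1)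
    (hr : pi (rt M X) = 0) (hc : (IG M X).Connected) (x : Nd M X) :
    Even (pi x) ↔ nc M X x = false := by
  have key : ∀ {a b : Nd M X} (p : (IG M X).Walk a b), (Even (pi a) ↔ nc M X a = false) →
      (Even (pi b) ↔ nc M X b = false) := by
    intro a b p
    induction p with
    | nil => exact id
    | @cons a b c hab q ih =>
      intro ha
      apply ih
      have h1 : nc M X a ≠ nc M X b := hab.1
      have h2 : Even (pi a) ↔ ¬ Even (pi b) := by
        rcases hs a b hab with h | h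
        · rw [h]; simp
        · rw [h]; simp
      cases hna : nc M X a <;> cases hnb : nc M X b <;> simp_all
  obtain ⟨p⟩ := hc.preconnected (rt M X) x
  refine key p ?_
  rw [hr]
  simp [nc, rt]

end FamA

open FamA in
theorem tFam (hLC : S_LC) (hIC : S_IncConn) : S_Fam := by
  intro V _ _ G _ M X pi hctx
  have hI : (IG M X).Connected := hIC V G M hctx.plane hctx.conn X hctx.ne
  have hL : LCF (IG M X) pi := by
    obtain ⟨a1, a2, a3, a4, a5, a6⟩ := hLC (Nd M X) (IG M X) pi hI hctx.lev.step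
    exact ⟨a1, a2, a3, a4, a5, a6⟩
  have hpar : ∀ x, Even (pi x) ↔ nc M X x = false := par hctx.lev.step hctx.lev.root hI
  have hnc : ∀ x y, pi x = pi y → nc M X x = nc M X y := by
    intro x y h
    have h1 := hpar x
    have h2 := hpar y
    rw [h] at h1
    cases hx : nc M X x <;> cases hy : nc M X y <;> simp_all
  have hncs : ∀ x y, pi x = pi y + 1 → nc M X x ≠ nc M X y := by
    intro x y h he
    have h1 := hpar x
    have h2 := hpar y
    rw [h, Int.even_add_one, he, ← h2] at h1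
    tauto
  refine ⟨hpar, ?_, ?_, ?_, ?_, ?_, ?_⟩
  · intro D hD hr
    obtain ⟨f, _, rfl⟩ := mem_image.mp hD
    obtain ⟨y', u, ht, hp, hu, hpu, hch⟩ := pUp hL hr
    have h1 : nc M X u = true := by
      have h2 := hncs u (nf M X f) hpu
      rw [nc_nf] at h2
      simpa using h2
    obtain ⟨v, hv, hvu⟩ := nc_true h1
    refine ⟨tc (IG M X) pi u, ⟨?_, hch⟩, ?_⟩
    · rw [hvu]
      exact mem_image.mpr ⟨v, hv, rfl⟩
    · rintro K' ⟨_, hK'⟩
      exact ch_unique hL hK' hch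
  · intro K hK hr
    obtain ⟨v, hv, rfl⟩ := mem_image.mp hK
    obtain ⟨y', u, ht, hp, hu, hpu, hch⟩ := pUp hL hr
    have h1 : nc M X u = false := by
      have h2 := hncs u (nv M X v) hpu
      rw [nc_nv hv] at h2
      simpa using h2
    obtain ⟨f, hf⟩ := adj_nf hu.symm h1
    refine ⟨tc (IG M X) pi u, ⟨?_, hch⟩, ?_⟩
    · rw [hf]
      exact mem_image.mpr ⟨f, mem_univ _, rfl⟩
    · rintro D' ⟨_, hD'⟩
      exact ch_unique hL hD' hch
  · rw [← card_union_of_disjoint]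
    · congr 1
      ext C
      constructor
      · intro hC
        obtain ⟨x, hx, rfl⟩ := mem_image.mp hC
        have hrx : rt M X ∉ tc (IG M X) pi x := (mem_filter.mp hx).2
        rw [mem_union]
        cases hnx : nc M X x with
        | true =>
          left
          obtain ⟨v, hv, hvx⟩ := nc_true hnx
          refine mem_filter.mpr ⟨mem_image.mpr ⟨v, hv, by rw [hvx]⟩, hrx⟩
        | false =>
          right
          rcases nc_false hnx with h | ⟨f, hf⟩
          · exfalso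
            apply hrx
            rw [h]
            exact self_tc hL _
          · exact mem_filter.mpr ⟨mem_image.mpr ⟨f, mem_univ _, by rw [hf]⟩, hrx⟩
      · intro hC
        rw [mem_union] at hC
        rcases hC with hC | hC
        · obtain ⟨h1, h2⟩ := mem_filter.mp hC
          obtain ⟨v, hv, rfl⟩ := mem_image.mp h1
          exact mem_image.mpr ⟨nv M X v, mem_filter.mpr ⟨mem_univ _, h2⟩, rfl⟩
        · obtain ⟨h1, h2⟩ := mem_filter.mp hC
          obtain ⟨f, _, rfl⟩ := mem_image.mp h1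
          exact mem_image.mpr ⟨nf M X f, mem_filter.mpr ⟨mem_univ _, h2⟩, rfl⟩
    · rw [disjoint_left]
      intro C h1 h2
      obtain ⟨v, hv, e1⟩ := mem_image.mp (mem_filter.mp h1).1
      obtain ⟨f, _, e2⟩ := mem_image.mp (mem_filter.mp h2).1
      have h3 := hnc _ _ (tc_level hL (e1.trans e2.symm))
      rw [nc_nv hv, nc_nf] at h3
      exact absurd h3 (by simp)
  · intro K hK x hx hxi
    obtain ⟨v, hv, rfl⟩ := mem_image.mp hK
    have hne : tc (IG M X) pi x ≠ tc (IG M X) pi (nv M X v) := by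
      intro he
      have h1 : nc M X x = true := by
        rw [hnc _ _ (tc_level hL he)]
        exact nc_nv hv
      obtain ⟨v', hv', rfl⟩ := nc_true h1
      exact hxi (mem_image.mpr ⟨v', mem_filter.mpr ⟨hv', he⟩, rfl⟩)
    obtain ⟨y, u, hp, hu, hch, hxy⟩ := pDown hL hx hne
    have h1 : nc M X y = false := by
      have h2 := hncs (nv M X v) y (by omega)
      rw [nc_nv hv] at h2
      cases h3 : nc M X y
      · rfl
      · exact absurd h3.symm h2
    obtain ⟨f, hf⟩ := adj_nf hu h1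
    exact ⟨tc (IG M X) pi y, mem_image.mpr ⟨f, mem_univ _, by rw [hf]⟩, hch, hxy⟩
  · intro D hD x hx hne
    obtain ⟨f, _, rfl⟩ := mem_image.mp hD
    obtain ⟨y, u, hp, hu, hch, hxy⟩ := pDown hL hx hne
    have h1 : nc M X y = true := by
      have h2 := hncs (nf M X f) y (by omega)
      rw [nc_nf] at h2
      cases h3 : nc M X y
      · exact absurd h3.symm h2
      · rfl
    obtain ⟨v, hv, hvy⟩ := nc_true h1
    exact ⟨tc (IG M X) pi y, mem_image.mpr ⟨v, hv, by rw [hvy]⟩, hch, hxy⟩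
  · intro K _ D _ D' _ h1 h2 x hx hx'
    exact ch_disj hL h1 h2 hx hx'

end C7
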