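import Pool.Agent.Lib.MP_86b854_co.Lv.Child

set_option autoImplicit false
set_option linter.unusedSectionVars false

/-!
# MP_86b854_co : `S_Fin1`, a small odd cycle transversal if there is no bad disc
-/

namespace C7

open PLM T72 Finset Equiv

namespace Fin1A

open ChildA

variable {V : Type} [Fintype V] [DecidableEq V] {G : SimpleGraph V} [DecidableRel G.Adj]
  {M : CMap G.Dart V} {X : Finset V}

theorem nf_ne {f : Fc M} (h : ¬ RootF M X f) : nf M X f ≠ rt M X := by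
  unfold nf rt
  rw [dif_neg h]
  intro h1
  cases h1

theorem rt_notin_T0 : rt M X ∉ T0 M X := by
  intro h
  classical
  unfold T0 at h
  rw [mem_filter] at h
  obtain ⟨-, f, hf, h1, -⟩ := h
  exact nf_ne hf h1.symm

theorem even_Tn : Even (Tn M X).card := by
  unfold Tn
  split_ifs with h
  · exact h
  · rw [card_insert_of_notMem rt_notin_T0]
    exact (Nat.not_even_iff_odd.1 h).add_one

theorem root_out {P : Finset V} {o : Fc M} (hP : ∀ v, v ∈ P ↔ Inc M v o) : RootF M Pᶜ o := by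
  obtain ⟨d, hd⟩ := Bas.exists_fc o
  refine ⟨d.fst, ?_, d, rfl, hd⟩
  rw [mem_compl, not_not, hP]
  exact ⟨d, rfl, hd⟩

end Fin1A

open ChildA Fin1A in
theorem tFin1 (hAcc : S_Acc) (hBR : S_BadRed) (hMk : S_MkCtx) (hTJ : S_TJuse)
    (hIC : S_IncConn) (hOct : S_Oct) (hJW : S_JW) : S_Fin1 := by
  intro V _ _ G _ M o L P g hm hlen hbad
  classical
  have hM := hm.plane
  have hPne : ∃ v, v ∉ Pᶜ := by
    obtain ⟨v, hv, -⟩ := root_out hm.outer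
    exact ⟨v, hv⟩
  have hconn := hIC V G M hM hm.conn Pᶜ hPne
  obtain ⟨pi, hlev, ⟨J₀, hJ₀, hJ₀c⟩, hsw⟩ := hTJ (Nd M Pᶜ) (IG M Pᶜ) hconn
    ⟨nc M Pᶜ, fun x y h => h.1⟩ (Tn M Pᶜ) (rt M Pᶜ) even_Tn
  have hC := hMk V G M o L P g hm pi hlev
  have hnb : nbad M Pᶜ pi = 0 := by
    unfold nbad
    rw [card_eq_zero, filter_eq_empty_iff]
    rintro D hD ⟨hr, K, hK, hch, hBD⟩
    have hDK : D ∈ chK M Pᶜ pi K := by
      unfold chK
      rw [mem_filter]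
      exact ⟨hD, hch, hr⟩
    obtain ⟨h1, h2⟩ := hBR V G M Pᶜ pi hC K hK D hDK hBD
    exact hbad _ (fun h3 => h2 o h3 (root_out hm.outer)) h1
  obtain ⟨hA1, hA2⟩ := hAcc V G M Pᶜ pi hC hlen
  rw [hnb] at hA2
  have hmin : ∀ K ∈ (KF M Pᶜ pi).filter (fun K => rt M Pᶜ ∈ K),
      0 ≤ min (2 * ((VK M Pᶜ pi K).card : ℤ)) 6 := by
    intro K _
    apply le_min
    · positivity
    · norm_num
  have hsum := sum_nonneg hmin
  have key : ∀ J, IsJ (IG M Pᶜ) (Tn M Pᶜ) J →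
      J.card = (lcs (IG M Pᶜ) pi (rt M Pᶜ)).card →
      Wj M Pᶜ J ⊆ Pᶜ ∧ BipOn G (Pᶜ \ Wj M Pᶜ J) ∧ 3 * (Wj M Pᶜ J).card ≤ (Pᶜ).card ∧
        14 * ((Wj M Pᶜ J).card : ℤ) +
          ∑ K ∈ (KF M Pᶜ pi).filter (fun K => rt M Pᶜ ∈ K), min (2 * ((VK M Pᶜ pi K).card : ℤ)) 6
          ≤ 2 * (Pᶜ).card + 4 * Lam M Pᶜ := by
    intro J hJ hJc
    have h1 := hJW V G M Pᶜ J hJ
    have h2 := hOct V G M hM Pᶜ hC.root J hJ
    refine ⟨?_, h2, ?_, ?_⟩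
    · unfold Wj
      exact filter_subset _ _
    · omega
    · have h3 : (2 * ((Wj M Pᶜ J).card : ℤ)) ≤ ((lcs (IG M Pᶜ) pi (rt M Pᶜ)).card : ℤ) := by
        rw [← hJc]
        exact_mod_cast h1
      push_cast at hA2
      linarith
  refine ⟨⟨Wj M Pᶜ J₀, ?_⟩, ?_⟩
  · obtain ⟨h1, h2, h3, h4⟩ := key J₀ hJ₀ hJ₀c
    refine ⟨h1, h2, h3, ?_⟩
    linarith
  · intro x y hx hy hxy ⟨fx, hfx, hxf⟩ ⟨fy, hfy, hyf⟩
    have hx' : x ∈ Pᶜ := mem_compl.2 hx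
    have hy' : y ∈ Pᶜ := mem_compl.2 hy
    have hax : (IG M Pᶜ).Adj (rt M Pᶜ) (nv M Pᶜ x) := by
      rw [← nf_root hfx]
      exact (adj_nv hx' hxf).symm
    have hay : (IG M Pᶜ).Adj (rt M Pᶜ) (nv M Pᶜ y) := by
      rw [← nf_root hfy]
      exact (adj_nv hy' hyf).symm
    have hpx := hlev.step _ _ hax
    have hpy := hlev.step _ _ hay
    rw [hlev.root] at hpx hpy
    by_cases h1 : pi (nv M Pᶜ x) = -1
    · obtain ⟨J, hJ, hJc, he⟩ := hsw _ hax h1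
      obtain ⟨k1, k2, k3, k4⟩ := key J hJ hJc
      refine ⟨Wj M Pᶜ J, k1, k2, k3, by linarith, Or.inl ?_⟩
      unfold Wj
      rw [mem_filter]
      exact ⟨hx', _, he, Sym2.mem_mk_right _ _⟩
    by_cases h2 : pi (nv M Pᶜ y) = -1
    · obtain ⟨J, hJ, hJc, he⟩ := hsw _ hay h2
      obtain ⟨k1, k2, k3, k4⟩ := key J hJ hJc
      refine ⟨Wj M Pᶜ J, k1, k2, k3, by linarith, Or.inr (Or.inl ?_)⟩
      unfold Wj
      rw [mem_filter]
      exact ⟨hy', _, he, Sym2.mem_mk_right _ _⟩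
    have h3 : pi (nv M Pᶜ x) = 1 := by omega
    have h4 : pi (nv M Pᶜ y) = 1 := by omega
    obtain ⟨k1, k2, k3, k4⟩ := key J₀ hJ₀ hJ₀c
    refine ⟨Wj M Pᶜ J₀, k1, k2, k3, by linarith, Or.inr (Or.inr ?_)⟩
    have hr1 : ∀ z, (IG M Pᶜ).Adj (rt M Pᶜ) z → pi z = 1 →
        tc (IG M Pᶜ) pi z = lc (IG M Pᶜ) pi 1 (rt M Pᶜ) := by
      intro z hz hz1
      unfold tc
      rw [hz1]
      apply lc_eq
      apply lc_adj (by rw [hlev.root]; norm_num) (lc_self _ _) hz hz1.le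
    have hKx := hr1 _ hax h3
    have hKy := hr1 _ hay h4
    have hKF : lc (IG M Pᶜ) pi 1 (rt M Pᶜ) ∈
        (KF M Pᶜ pi).filter (fun K => rt M Pᶜ ∈ K) := by
      rw [mem_filter]
      refine ⟨?_, lc_self _ _⟩
      unfold KF
      rw [mem_image]
      exact ⟨x, hx', hKx⟩
    have h2c : 2 ≤ (VK M Pᶜ pi (lc (IG M Pᶜ) pi 1 (rt M Pᶜ))).card := by
      have hsub : ({x, y} : Finset V) ⊆ VK M Pᶜ pi (lc (IG M Pᶜ) pi 1 (rt M Pᶜ)) := by
        intro z hz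
        rw [mem_insert, mem_singleton] at hz
        unfold VK
        rw [mem_filter]
        rcases hz with rfl | rfl
        · exact ⟨hx', hKx⟩
        · exact ⟨hy', hKy⟩
      have h5 := card_le_card hsub
      rwa [card_pair hxy] at h5
    have h5 := single_le_sum hmin hKF
    have h6 : (4 : ℤ) ≤ min (2 * ((VK M Pᶜ pi (lc (IG M Pᶜ) pi 1 (rt M Pᶜ))).card : ℤ)) 6 := by
      apply le_min
      · have : (2 : ℤ) ≤ ((VK M Pᶜ pi (lc (IG M Pᶜ) pi 1 (rt M Pᶜ))).card : ℤ) := by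
          exact_mod_cast h2c
        linarith
      · norm_num
    linarith

end C7
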