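import Pool.Agent.Lib.MP_86b854_co.Lv.Spec
import Pool.Agent.Lib.MP_86b854_co.D.Bas

set_option autoImplicit false
set_option linter.unusedSectionVars false

/-!
# MP_86b854_co : the incidence graph is connected
-/

namespace C7

open PLM T72 Finset Equiv

namespace InCo

open Bas

variable {V : Type} [Fintype V] [DecidableEq V] {G : SimpleGraph V} [DecidableRel G.Adj]
  {M : CMap G.Dart V} {X : Finset V}

theorem reach (v : V) (f : Fc M) (h : Inc M v f) :
    (IG M X).Reachable (nv M X v) (nf M X f) := by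
  by_cases hv : v ∈ X
  · refine SimpleGraph.Adj.reachable ⟨?_, v, f, hv, h, Or.inl ⟨rfl, rfl⟩⟩
    have h1 : nc M X (nv M X v) = true := by
      have h0 : nv M X v = some (Sum.inl ⟨v, hv⟩) := dif_pos hv
      rw [h0]
      rfl
    have h2 : nc M X (nf M X f) = false := by
      by_cases hf : RootF M X f
      · have h0 : nf M X f = none := dif_pos hf
        rw [h0]
        rfl
      · have h0 : nf M X f = some (Sum.inr ⟨f, hf⟩) := dif_neg hf
        rw [h0]
        rfl
    rw [h1, h2]
    decide
  · have h1 : nv M X v = none := dif_neg hv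
    have h2 : nf M X f = none := dif_pos ⟨v, hv, h⟩
    have h3 : nv M X v = nf M X f := h1.trans h2.symm
    exact h3 ▸ SimpleGraph.Reachable.refl _

theorem reach_dart (hM : PlaneMap M) (d : G.Dart) :
    (IG M X).Reachable (nv M X d.fst) (nv M X d.snd) :=
  (reach d.fst (fc M d) ⟨d, rfl, rfl⟩).trans
    (reach d.snd (fc M d) ⟨M.φ d, phi_fst hM d, fc_phi d⟩).symm

end InCo

open InCo Bas in
theorem tIncConn : S_IncConn := by
  intro V _ _ G _ M hM hG X hX
  obtain ⟨v₀, hv₀⟩ := hX
  have h0 : nv M X v₀ = rt M X := dif_neg hv₀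
  have h1 : ∀ v, (IG M X).Reachable (rt M X) (nv M X v) := by
    intro v
    refine conn_closed hG {x | (IG M X).Reachable (rt M X) (nv M X x)} ?_ v₀ v ?_
    · intro a b hab ha
      exact ha.trans (reach_dart hM ⟨(a, b), hab⟩)
    · change (IG M X).Reachable (rt M X) (nv M X v₀)
      rw [h0]
  have h2 : ∀ f, (IG M X).Reachable (rt M X) (nf M X f) := by
    intro f
    obtain ⟨d, rfl⟩ := exists_fc f
    exact (h1 d.fst).trans (reach d.fst _ ⟨d, rfl, rfl⟩)
  have h3 : ∀ x, (IG M X).Reachable (rt M X) x := by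
    intro x
    match x with
    | none => exact SimpleGraph.Reachable.refl _
    | some (Sum.inl ⟨v, hv⟩) =>
      have h4 : nv M X v = some (Sum.inl ⟨v, hv⟩) := dif_pos hv
      rw [← h4]
      exact h1 v
    | some (Sum.inr ⟨f, hf⟩) =>
      have h4 : nf M X f = some (Sum.inr ⟨f, hf⟩) := dif_neg hf
      rw [← h4]
      exact h2 f
  have : Nonempty (Nd M X) := ⟨rt M X⟩
  exact ⟨fun x y => (h3 x).symm.trans (h3 y)⟩

end C7
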