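import Pool.Agent.Lib.MP_86b854_co.Lv.Spec

set_option autoImplicit false

namespace C7

open PLM T72 Finset Equiv

namespace JWp

variable {V : Type} [Fintype V] [DecidableEq V] {G : SimpleGraph V} [DecidableRel G.Adj]

theorem nc_nv {M : CMap G.Dart V} {X : Finset V} {v : V} (h : v ∈ X) :
    nc M X (nv M X v) = true := by
  unfold nv
  rw [dif_pos h]
  rfl

theorem nc_nf {M : CMap G.Dart V} {X : Finset V} (f : Fc M) : nc M X (nf M X f) = false := by
  unfold nf
  split_ifs <;> rfl

theorem nv_inj {M : CMap G.Dart V} {X : Finset V} {v w : V} (hv : v ∈ X) (hw : w ∈ X)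
    (h : nv M X v = nv M X w) : v = w := by
  unfold nv at h
  rw [dif_pos hv, dif_pos hw] at h
  have h2 := Sum.inl.inj (Option.some.inj h)
  exact congrArg Subtype.val h2

theorem notin_T {M : CMap G.Dart V} {X : Finset V} {v : V} (h : v ∈ X) :
    nv M X v ∉ Tn M X := by
  classical
  have h0 : nv M X v ∉ T0 M X := by
    intro hm
    unfold T0 at hm
    rw [mem_filter] at hm
    obtain ⟨-, f, -, hf, -⟩ := hm
    have h1 := nc_nv (M := M) h
    rw [hf, nc_nf] at h1
    exact Bool.false_ne_true h1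
  unfold Tn
  split_ifs with he
  · exact h0
  · rw [mem_insert]
    rintro (hr | hm)
    · have h1 := nc_nv (M := M) h
      rw [hr] at h1
      exact Bool.false_ne_true h1
    · exact h0 hm

end JWp

theorem tJW : S_JW := by
  classical
  intro V _ _ G _ M X J hJ
  have hW : ∀ v ∈ Wj M X J, 2 ≤ (J.filter fun e => nv M X v ∈ e).card := by
    intro v hv
    unfold Wj at hv
    rw [mem_filter] at hv
    obtain ⟨hvX, e, heJ, hve⟩ := hv
    have hev : ¬ Odd (J.filter fun e => nv M X v ∈ e).card := by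
      intro ho
      exact JWp.notin_T hvX ((hJ.2 _).mp (by convert ho))
    have hpos : 0 < (J.filter fun e => nv M X v ∈ e).card :=
      card_pos.mpr ⟨e, mem_filter.mpr ⟨heJ, hve⟩⟩
    rw [Nat.not_odd_iff_even] at hev
    obtain ⟨k, hk⟩ := hev
    omega
  have hdisj : ∀ v ∈ Wj M X J, ∀ w ∈ Wj M X J, v ≠ w →
      Disjoint (J.filter fun e => nv M X v ∈ e) (J.filter fun e => nv M X w ∈ e) := by
    intro v hv w hw hvw
    have hvX : v ∈ X := (mem_filter.mp hv).1
    have hwX : w ∈ X := (mem_filter.mp hw).1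
    rw [Finset.disjoint_left]
    intro e he1 he2
    rw [mem_filter] at he1 he2
    have hne : nv M X v ≠ nv M X w := fun h => hvw (JWp.nv_inj hvX hwX h)
    have hee : e = s(nv M X v, nv M X w) := ((Sym2.mem_and_mem_iff hne).mp ⟨he1.2, he2.2⟩)
    have hadj := hJ.1 e he1.1
    rw [hee, SimpleGraph.mem_edgeSet] at hadj
    have h3 : nc M X (nv M X v) ≠ nc M X (nv M X w) := hadj.1
    rw [JWp.nc_nv hvX, JWp.nc_nv hwX] at h3
    exact h3 rfl
  calc 2 * (Wj M X J).card = ∑ _v ∈ Wj M X J, 2 := by rw [sum_const, smul_eq_mul, mul_comm]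
    _ ≤ ∑ v ∈ Wj M X J, (J.filter fun e => nv M X v ∈ e).card := sum_le_sum hW
    _ = ((Wj M X J).biUnion fun v => J.filter fun e => nv M X v ∈ e).card :=
        (card_biUnion hdisj).symm
    _ ≤ J.card := card_le_card (by
        intro e he
        rw [mem_biUnion] at he
        obtain ⟨v, -, hv⟩ := he
        exact (mem_filter.mp hv).1)

end C7
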