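import Pool.Agent.Lib.MP_86b854_co.Lv.Spec

set_option autoImplicit false
set_option linter.unusedSectionVars false

/-!
# MP_86b854_co : isolated vertices are components
-/

namespace C7

open PLM T72 Finset Equiv

namespace KapAux

variable {V : Type} [Fintype V] [DecidableEq V] {G : SimpleGraph V} [DecidableRel G.Adj]

open Classical in
/-- the component of a vertex -/
noncomputable def qV (A : Finset V) (v : V) : Option {v : V // v ∈ A} :=
  if h : v ∈ A then some ⟨v, h⟩ else none

theorem qV_none {A : Finset V} {v : V} (h : v ∉ A) : qV A v = none := dif_neg h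

theorem ncmp_ge {A : Finset V} {H : Finset G.Dart} (hH : ∀ d ∈ H, d.fst ∉ A ∧ d.snd ∉ A)
    (hx : ∃ x, x ∉ A) : A.card + 1 ≤ ncmp H := by
  classical
  have h1 : Function.Surjective (Quotient.lift (s := cmpS H) (qV A) (by
      intro a b hab
      exact (hab {x | qV A a = qV A x} fun d hd => by
        change qV A a = qV A d.fst ↔ qV A a = qV A d.snd
        rw [qV_none (hH d hd).1, qV_none (hH d hd).2]).1 rfl)) := by
    intro b
    cases b with
    | none =>
      obtain ⟨x, hx⟩ := hx
      exact ⟨Quotient.mk _ x, qV_none hx⟩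
    | some v => exact ⟨Quotient.mk _ v.1, dif_pos v.2⟩
  have hfin : Finite (Quotient (cmpS H)) := Quotient.finite _
  have h2 := Nat.card_le_card_of_surjective _ h1
  rw [Nat.card_eq_fintype_card, Fintype.card_option, Fintype.card_coe] at h2
  exact h2

theorem mem_dIn {U : Finset V} {d : G.Dart} : d ∈ dIn G U ↔ d.fst ∈ U ∧ d.snd ∈ U := by
  simp [dIn]

end KapAux

open KapAux in
theorem tKap : S_Kap := by
  intro V _ _ G _ U A hA hiso hne
  have h1 : (Uᶜ ∪ A).card + 1 ≤ ncmp (dIn G U) := by
    have hin : ∀ d : G.Dart, d ∈ dIn G U → d.fst ∉ Uᶜ ∪ A ∧ d.snd ∉ Uᶜ ∪ A := by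
      intro d hd
      obtain ⟨h2, h3⟩ := mem_dIn.1 hd
      constructor
      · intro h4
        rcases mem_union.1 h4 with h5 | h5
        · exact (mem_compl.1 h5) h2
        · exact hiso _ h5 _ h3 d.adj
      · intro h4
        rcases mem_union.1 h4 with h5 | h5
        · exact (mem_compl.1 h5) h3
        · exact hiso _ h5 _ h2 d.adj.symm
    obtain ⟨d, hd⟩ := hne
    exact ncmp_ge hin ⟨d.fst, (hin d hd).1⟩
  have h2 : (Uᶜ ∪ A).card = Uᶜ.card + A.card := by
    apply card_union_of_disjoint
    rw [Finset.disjoint_left]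
    intro x hx hx'
    exact (mem_compl.1 hx) (hA hx')
  have h3 := card_add_card_compl U
  unfold kap
  have h4 : ((Uᶜ.card + A.card + 1 : ℕ) : ℤ) ≤ ncmp (dIn G U) := by
    rw [← h2]
    exact_mod_cast h1
  push_cast at h4
  have h5 : ((U.card + Uᶜ.card : ℕ) : ℤ) = Fintype.card V := by exact_mod_cast h3
  push_cast at h5
  linarith

end C7
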