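import Pool.Agent.Lib.MP_86b854_co.Lv.Spec

set_option autoImplicit false

namespace C7

open PLM T72 Finset Equiv

namespace LCp

variable {N : Type} [Fintype N] [DecidableEq N] {I : SimpleGraph N} {pi : N → ℤ}

theorem mem_lc {i : ℤ} {x y : N} : y ∈ lc I pi i x ↔
    Relation.ReflTransGen (fun a b => I.Adj a b ∧ pi a ≤ i ∧ pi b ≤ i) x y := by
  classical
  unfold lc
  rw [mem_filter]
  exact ⟨fun h => h.2, fun h => ⟨mem_univ _, h⟩⟩

theorem refl (i : ℤ) (x : N) : x ∈ lc I pi i x := mem_lc.mpr Relation.ReflTransGen.refl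

theorem symm' {i : ℤ} {x y : N} (h : y ∈ lc I pi i x) : x ∈ lc I pi i y := by
  rw [mem_lc] at h ⊢
  induction h with
  | refl => exact Relation.ReflTransGen.refl
  | tail _ hbc ih => exact Relation.ReflTransGen.head ⟨hbc.1.symm, hbc.2.2, hbc.2.1⟩ ih

theorem eq_of_mem {i : ℤ} {x y : N} (h : y ∈ lc I pi i x) : lc I pi i y = lc I pi i x := by
  have h' := symm' h
  ext z
  rw [mem_lc, mem_lc]
  exact ⟨fun hz => (mem_lc.mp h).trans hz, fun hz => (mem_lc.mp h').trans hz⟩

theorem le_of_mem {i : ℤ} {x y : N} (hx : pi x ≤ i) (h : y ∈ lc I pi i x) : pi y ≤ i := by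
  rw [mem_lc] at h
  induction h with
  | refl => exact hx
  | tail _ hbc _ => exact hbc.2.2

theorem mem_of_adj {i : ℤ} {x y z : N} (hx : pi x ≤ i) (h : y ∈ lc I pi i x) (ha : I.Adj y z)
    (hz : pi z ≤ i) : z ∈ lc I pi i x := by
  have hy := le_of_mem hx h
  rw [mem_lc] at h ⊢
  exact h.tail ⟨ha, hy, hz⟩

end LCp

theorem tLC : S_LC := by
  intro N _ _ I pi hc hstep
  refine ⟨LCp.refl, fun i x y h => LCp.eq_of_mem h, ?_, fun i x hx y hy => LCp.le_of_mem hx hy,
    fun i x hx y hy z ha hz => LCp.mem_of_adj hx hy ha hz, ?_⟩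
  · intro i j x hij y hy
    rw [LCp.mem_lc] at hy ⊢
    induction hy with
    | refl => exact Relation.ReflTransGen.refl
    | tail _ hbc ih => exact ih.tail ⟨hbc.1, hbc.2.1.trans hij, hbc.2.2.trans hij⟩
  · intro i x z hx hz
    obtain ⟨p⟩ := hc.preconnected x z
    obtain ⟨d, -, h1, h2⟩ := p.exists_boundary_dart (lc I pi i x : Set N)
      (by exact_mod_cast LCp.refl i x) (by exact_mod_cast hz)
    have h1' : d.fst ∈ lc I pi i x := by exact_mod_cast h1
    have h2' : d.snd ∉ lc I pi i x := by exact_mod_cast h2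
    have hle := LCp.le_of_mem hx h1'
    have hgt : ¬ pi d.snd ≤ i := fun h => h2' (LCp.mem_of_adj hx h1' d.adj h)
    have hs := hstep _ _ d.adj
    have hi : pi d.fst = i := by omega
    refine ⟨d.fst, h1', hi, ?_, d.snd, d.adj, by omega⟩
    unfold tc
    rw [hi]
    exact LCp.eq_of_mem h1'

end C7
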