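import Pool.Agent.Lib.MP_86b854_co.Lv.ValD

set_option autoImplicit false
set_option linter.unusedSectionVars false

/-!
# MP_86b854_co : the local inequality at a vertex component
-/

namespace C7

open PLM T72 Finset Equiv

namespace LocL

variable {V : Type} [Fintype V] [DecidableEq V] {G : SimpleGraph V} [DecidableRel G.Adj]
  {M : CMap G.Dart V}

/-- the complement of a region has the reversed boundary -/
theorem bd_compl (R : Finset (Fc M)) : (bd M Rᶜ).card = (bd M R).card := by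
  refine card_bij' (fun d _ => d.symm) (fun d _ => d.symm) ?_ ?_ ?_ ?_
  · intro d hd
    rw [mem_bd, mem_compl, mem_compl, not_not] at hd
    rw [mem_bd, SimpleGraph.Dart.symm_symm]
    exact ⟨hd.2, hd.1⟩
  · intro d hd
    rw [mem_bd] at hd
    rw [mem_bd, SimpleGraph.Dart.symm_symm, mem_compl, mem_compl, not_not]
    exact ⟨hd.2, hd.1⟩
  · intro d _
    exact SimpleGraph.Dart.symm_symm d
  · intro d _
    exact SimpleGraph.Dart.symm_symm d

end LocL

open ValL LocL in
/-- **Loc.** -/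
theorem tLoc (hFam : S_Fam) (hChild : S_Child) (hOdd : S_Odd) (hTriv : S_Triv) (hRegU : S_RegU)
    (hRegs : S_Regs) (hKap : S_Kap) (hLenR : S_LenR) (hOne : S_One) (hSB : S_ShortBd) :
    S_Loc := by
  intro V _ _ G _ M X pi hC K hK
  classical
  obtain ⟨-, -, -, -, hF5, -, hF7⟩ := hFam V G M X pi hC
  have hX : X.Nonempty := X_ne hK
  obtain ⟨f0, hf0⟩ := exists_root hC hX
  have hdart : Nonempty G.Dart := by
    obtain ⟨d, _⟩ := exists_dart M f0
    exact ⟨d⟩
  have hHs : ∀ d ∈ HK M X pi K, d.symm ∈ HK M X pi K := fun d hd => dIn_symm hd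
  obtain ⟨hR1, hR2, -, -⟩ := hRegs V G M hC.plane (HK M X pi K) hHs
  have hRU : (2 * (VK M X pi K).card : ℤ) = 2 + 2 * kap G (VK M X pi K) +
      ∑ R ∈ regs M (HK M X pi K), ((lenR M (HK M X pi K) R : ℤ) - 2) :=
    hRegU V G M hC.plane hC.conn hdart (VK M X pi K)
  set H := HK M X pi K with hH
  set C := chK M X pi K with hCK
  -- the children
  have hch : ∀ D ∈ C, D ∈ DF M X pi ∧ Ch (IG M X) pi D K ∧ rt M X ∉ D := fun D hD =>
    mem_chK.1 hD
  have hreg : ∀ D ∈ C, fD M X D ∈ regs M H := fun D hD =>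
    (hChild V G M X pi hC K hK D (hch D hD).1 (hch D hD).2.1).1
  have hne : ∀ R ∈ regs M H, R.Nonempty := fun R hR => (mem_regs.1 hR).1
  have hdisj : ∀ D ∈ C, ∀ D' ∈ C, ∀ f, f ∈ fD M X D → f ∈ fD M X D' → D = D' := by
    intro D hD D' hD' f h1 h2
    exact hF7 K hK D (hch D hD).1 D' (hch D' hD').1 (hch D hD).2.1 (hch D' hD').2.1 _
      (mem_fD.1 h1) (mem_fD.1 h2)
  have hinj : Set.InjOn (fD M X) (C : Set (Finset (Nd M X))) := by
    intro D hD D' hD' h
    obtain ⟨f, hf⟩ := hne _ (hreg D hD)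
    exact hdisj D hD D' hD' f hf (h ▸ hf)
  set I := C.image (fD M X) with hI
  set Q := regs M H \ I with hQ
  have hIr : I ⊆ regs M H := by
    intro R hR
    obtain ⟨D, hD, rfl⟩ := mem_image.1 hR
    exact hreg D hD
  have hsplit : ∀ g : Finset (Fc M) → ℤ,
      ∑ R ∈ regs M H, g R = ∑ D ∈ C, g (fD M X D) + ∑ R ∈ Q, g R := by
    intro g
    rw [← sum_sdiff hIr, hI, sum_image (fun D hD D' hD' h => hinj hD hD' h), add_comm]
  have hroot : ∀ R ∈ regs M H, ∀ f ∈ R, RootF M X f → R ∈ Q := by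
    intro R hR f hf hrf
    rw [hQ, mem_sdiff]
    refine ⟨hR, fun hRI => ?_⟩
    obtain ⟨D, hD, rfl⟩ := mem_image.1 hRI
    exact not_root_of (hch D hD).2.2 hf hrf
  obtain ⟨R0, hR0, hf0R⟩ := hR1 f0
  have hR0Q : R0 ∈ Q := hroot R0 hR0 f0 hf0R hf0
  have hQd : ∀ R ∈ Q, ∀ D ∈ C, ∀ f, f ∈ fD M X D → f ∉ R := by
    intro R hR D hD f h1 h2
    rw [hQ, mem_sdiff] at hR
    apply hR.2
    rw [hR2 R hR.1 _ (hreg D hD) f h2 h1]
    exact mem_image_of_mem _ hD
  -- the formula for `rho`
  set s := ∑ R ∈ Q, ((lenR M H R : ℤ) - 2) with hs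
  set io := ∑ D ∈ C, (iso M X pi K D : ℤ) with hio
  have hRU2 : (2 * (VK M X pi K).card : ℤ) = 2 + 2 * kap G (VK M X pi K) +
      ∑ D ∈ C, ((lenD M X pi K D : ℤ) - 2) + s := by
    rw [hRU, hsplit]
    unfold lenD
    rw [← hH, hs]
    ring
  have hrho : rho M X pi K = 2 + 2 * (kap G (VK M X pi K) - io) + s := by
    have h1 : ∑ D ∈ C, ((lenD M X pi K D : ℤ) - 2 + 2 * iso M X pi K D) =
        ∑ D ∈ C, ((lenD M X pi K D : ℤ) - 2) + 2 * io := by
      rw [hio, mul_sum, ← sum_add_distrib]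
    unfold rho
    rw [← hCK, h1]
    linarith
  -- facts in the case that there is a child
  have hnu : C.Nonempty → ∀ R ∈ regs M H, R ≠ univ := by
    rintro ⟨D1, hD1⟩ R hR hu
    obtain ⟨f1, hf1⟩ := hne _ (hreg D1 hD1)
    have h1 : R = R0 := hR2 R hR R0 hR0 f0 (by rw [hu]; exact mem_univ _) hf0R
    exact hQd R (by rw [h1]; exact hR0Q) D1 hD1 f1 hf1 (by rw [hu]; exact mem_univ _)
  have hlr : C.Nonempty → ∀ R ∈ regs M H, bd M R ⊆ H ∧ 4 ≤ (bd M R).card ∧
      lenR M H R =
        (bd M R).card + (H.filter fun d => fc M d ∈ R ∧ fc M d.symm ∈ R).card ∧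
      Even (H.filter fun d => fc M d ∈ R ∧ fc M d.symm ∈ R).card := by
    intro hCn R hR
    obtain ⟨h1, h2, h3, h4, -⟩ := hLenR V G M hC.plane hC.conn hC.tri H hHs R
      (mem_regs.1 hR).2.1 (mem_regs.1 hR).1 (hnu hCn R hR)
    exact ⟨h1, h2, h3, h4⟩
  have hl4 : C.Nonempty → ∀ R ∈ regs M H, 4 ≤ lenR M H R := by
    intro hCn R hR
    obtain ⟨_, h2, h3, _⟩ := hlr hCn R hR
    omega
  have hkap : C.Nonempty → 1 ≤ kap G (VK M X pi K) - io := by
    intro hCn
    have hHne : (dIn G (VK M X pi K)).Nonempty := by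
      obtain ⟨h1, h2, -, -⟩ := hlr hCn R0 hR0
      have h3 : (bd M R0).Nonempty := card_pos.1 (by omega)
      exact h3.mono h1
    have h1 := hKap V G (VK M X pi K) (C.biUnion fun D => (VK M X pi K).filter fun v =>
      v ∈ inV M (fD M X D) ∧ ∀ u ∈ VK M X pi K, ¬ G.Adj v u) (by
        intro v hv
        obtain ⟨D, _, h⟩ := mem_biUnion.1 hv
        exact (mem_filter.1 h).1) (by
        intro v hv
        obtain ⟨D, _, h⟩ := mem_biUnion.1 hv
        exact (mem_filter.1 h).2.2) hHne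
    rw [card_biUnion] at h1
    · have h2 : ((∑ D ∈ C, ((VK M X pi K).filter fun v =>
          v ∈ inV M (fD M X D) ∧ ∀ u ∈ VK M X pi K, ¬ G.Adj v u).card : ℕ) : ℤ) = io := by
        rw [hio]
        push_cast
        refine sum_congr rfl fun D _ => ?_
        unfold iso
        congr 2
      rw [h2] at h1
      omega
    · intro D hD D' hD' hDD
      rw [Function.onFun, Finset.disjoint_left]
      intro v h1 h2
      obtain ⟨d, hd⟩ := dart_at hC hX v
      have h3 := mem_inV.1 (mem_filter.1 h1).2.1 d hd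
      have h4 := mem_inV.1 (mem_filter.1 h2).2.1 d hd
      exact hDD (hdisj D hD D' hD' _ h3 h4)
  have hs2 : C.Nonempty → 2 * (Q.card : ℤ) ≤ s := by
    intro hCn
    have h1 : ∑ R ∈ Q, (2 : ℤ) ≤ s := by
      refine sum_le_sum fun R hR => ?_
      have h2 := hl4 hCn R (mem_sdiff.1 hR).1
      omega
    rw [sum_const, nsmul_eq_mul] at h1
    linarith
  have hQ1 : 1 ≤ Q.card := card_pos.2 ⟨R0, hR0Q⟩
  constructor
  · -- the root is not in `K`
    intro hrK
    have hCodd : Odd C.card := (hOdd V G M X pi hC K hK).2 hrK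
    have hCn : C.Nonempty := by
      rw [← card_pos]
      exact hCodd.pos
    have hlodd : Odd (∑ D ∈ C, lenD M X pi K D) := by
      rw [odd_sum_iff_odd_card_odd]
      rw [filter_true_of_mem (fun D hD => (hOdd V G M X pi hC K hK).1 D hD)]
      exact hCodd
    obtain ⟨r, hr⟩ := hlodd
    have hsl : ∑ D ∈ C, ((lenD M X pi K D : ℤ) - 2) = 2 * r + 1 - 2 * C.card := by
      rw [sum_sub_distrib, sum_const, nsmul_eq_mul]
      have h1 : ((∑ D ∈ C, lenD M X pi K D : ℕ) : ℤ) = 2 * r + 1 := by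
        rw [hr]
        push_cast
        ring
      push_cast at h1
      rw [h1]
      ring
    have hk1 := hkap hCn
    have hs3 := hs2 hCn
    have h7 : 7 ≤ rho M X pi K := by omega
    refine ⟨h7, fun h9 => ?_⟩
    have hc1 : kap G (VK M X pi K) - io = 1 := by omega
    have hs4 : s = 3 := by omega
    have hQc : Q.card = 1 := by omega
    obtain ⟨R1, hR1'⟩ := card_eq_one.1 hQc
    have hR01 : R0 = R1 := by
      rw [hR1', mem_singleton] at hR0Q
      exact hR0Q
    subst hR01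
    have hlR : lenR M H R0 = 5 := by
      rw [hs, hR1', sum_singleton] at hs4
      omega
    obtain ⟨-, hb4, hbl, hbe⟩ := hlr hCn R0 hR0
    have hb5 : (bd M R0).card = 5 := by
      obtain ⟨e, he⟩ := hbe
      omega
    -- the complement
    have hb5' : (bd M R0ᶜ).card = 5 := by rw [bd_compl, hb5]
    have hsub : ∀ D ∈ C, fD M X D ⊆ R0ᶜ := by
      intro D hD f hf
      rw [mem_compl]
      exact hQd R0 hR0Q D hD f hf
    have hne' : (R0ᶜ).Nonempty := by
      obtain ⟨D1, hD1⟩ := hCn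
      exact (hne _ (hreg D1 hD1)).mono (hsub D1 hD1)
    have hnr : ∀ f ∈ R0ᶜ, ¬ RootF M X f := by
      intro f hf hrf
      obtain ⟨R2, hR2', hfR2⟩ := hR1 f
      have h1 := hroot R2 hR2' f hfR2 hrf
      rw [hR1', mem_singleton] at h1
      rw [h1] at hfR2
      exact (mem_compl.1 hf) hfR2
    obtain ⟨f, hf⟩ := card_eq_one.1 (hC.nosep R0ᶜ hne' hnr (by omega))
    rw [hf] at hb5' hnr hsub
    have hfr : ¬ RootF M X f := hnr f (mem_singleton_self f)
    have hfD : ∀ D ∈ C, fD M X D = {f} := by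
      intro D hD
      exact (subset_singleton_iff.1 (hsub D hD)).resolve_left (hne _ (hreg D hD)).ne_empty
    obtain ⟨hin, hl5⟩ := hOne V G M hC.plane hC.conn hC.tri f (card_pos.1 (by omega)) (by omega)
      (fun v hv => hC.deg v (inV_X hC hX hnr hv))
    obtain ⟨D1, hD1⟩ := hCn
    have hCs : C = {D1} := by
      rw [eq_singleton_iff_unique_mem]
      refine ⟨hD1, fun D hD => ?_⟩
      exact hinj hD hD1 ((hfD D hD).trans (hfD D1 hD1).symm)
    have hnov : ∀ v ∈ X, nv M X v ∉ D1 := by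
      intro v hv hvD
      have h1 := (hChild V G M X pi hC K hK D1 (hch D1 hD1).1 (hch D1 hD1).2.1).2 v hvD hv
      rw [hfD D1 hD1, hin] at h1
      exact notMem_empty _ h1
    obtain ⟨f', -, hD1f, hfD1, -, hlf, hinc⟩ := hTriv V G M X pi hC K hK D1 hD1 hnov
    have hff : f' = f := by
      rw [hfD D1 hD1] at hfD1
      exact (singleton_injective hfD1).symm
    subst hff
    have hiso : io = 0 := by
      rw [hio, hCs, sum_singleton]
      have h1 : iso M X pi K D1 = 0 := by
        unfold iso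
        rw [card_eq_zero, filter_eq_empty_iff]
        intro v _ h
        rw [hfD D1 hD1, hin] at h
        exact notMem_empty _ h.1
      rw [h1]
      rfl
    have hU : (VK M X pi K).card = 5 := by
      rw [hCs, sum_singleton, hlf, hl5, hb5', hs4] at hRU2
      push_cast at hRU2
      omega
    obtain ⟨-, w, hw⟩ := hSB V G M hC.plane hC.tri {f'} 5 hb5' (by norm_num) (by norm_num)
    have hwinc : ∀ i, Inc M (w i) f' := by
      intro i
      have h1 : (⟨(w i, w (i + 1)), hw.2.1 i⟩ : G.Dart) ∈ bd M {f'} := (hw.2.2 _).2 ⟨i, rfl, rfl⟩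
      have h2 := (mem_bd.1 h1).1
      rw [mem_singleton] at h2
      exact ⟨_, rfl, h2⟩
    have hUw : (univ : Finset (ZMod 5)).image w = VK M X pi K := by
      apply eq_of_subset_of_card_le
      · intro v hv
        obtain ⟨i, -, rfl⟩ := mem_image.1 hv
        exact hinc _ (hwinc i)
      · rw [card_image_of_injective _ hw.1, hU]
        decide
    refine ⟨f', hfr, by omega, hU, fun v => ⟨hinc v, fun hv => ?_⟩, fun x => ⟨fun hx => ?_, ?_⟩⟩
    · rw [← hUw] at hv
      obtain ⟨i, -, rfl⟩ := mem_image.1 hv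
      exact hwinc i
    · by_cases hxv : x ∈ (VK M X pi K).image (nv M X)
      · obtain ⟨v, hv, rfl⟩ := mem_image.1 hxv
        exact Or.inr ⟨v, hv, rfl⟩
      · left
        obtain ⟨D, hD, hDK, hxD⟩ := hF5 K hK x hx hxv
        have h1 : D ∈ C := mem_chK.2 ⟨hD, hDK, fun h => hrK (hDK.1 h)⟩
        rw [hCs, mem_singleton] at h1
        rw [h1, hD1f, mem_singleton] at hxD
        exact hxD
    · rintro (rfl | ⟨v, hv, rfl⟩)
      · apply (hch D1 hD1).2.1.1
        rw [hD1f]
        exact mem_singleton_self _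
      · have h1 := (mem_VK.1 hv).2
        rw [← h1]
        exact tc_self _
  · -- the root is in `K`
    intro _
    rcases C.eq_empty_or_nonempty with hC0 | hCn
    · have h1 : rho M X pi K = 2 * (VK M X pi K).card := by
        unfold rho
        rw [← hCK, hC0, sum_empty, sub_zero]
      rw [h1]
      exact min_le_left _ _
    · have hk1 := hkap hCn
      have hs3 := hs2 hCn
      exact (min_le_right _ _).trans (by omega)

end C7
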