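import Pool.Agent.Lib.MP_86b854_co.Lv.Spec
import Pool.Agent.Lib.MP_86b854_co.D.Bas

set_option autoImplicit false

/-!
# MP_86b854_co : the setting of the accounting for a minimal counterexample
-/

namespace C7

open PLM T72 Finset Equiv

open Bas in
/-- **MkCtx.** -/
theorem tMkCtx (h1 : S_MinOuter) (h2 : S_MinDeg) (h3 : S_Root) : S_MkCtx := by
  intro V _ _ G _ M o L P g hD pi hpi
  have hM := hD.plane
  obtain ⟨-, -, h4, w, hB, hw⟩ := h1 V G M o L P g hD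
  have hX : ∀ v, v ∉ Pᶜ ↔ v ∈ P := by
    intro v
    rw [mem_compl, not_not]
  have hroot : RootF M Pᶜ o := by
    obtain ⟨d, hd⟩ := exists_fc o
    exact ⟨d.fst, (hX _).2 ((hD.outer _).2 ⟨d, rfl, hd⟩), d, rfl, hd⟩
  refine ⟨hM, hD.conn, hD.tri, ?_, ?_, ?_, ?_, hpi⟩
  · exact ⟨w 0, (hX _).2 ((hw _).2 ⟨0, rfl⟩)⟩
  · intro v hv
    exact h2 V G L P g hD.cex v (mem_compl.1 hv)
  · refine h3 V G M hM Pᶜ fun A hA u v hu hv => ?_
    obtain ⟨i, rfl⟩ := (hw _).1 ((hX _).1 hu)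
    obtain ⟨j, rfl⟩ := (hw _).1 ((hX _).1 hv)
    refine cyc_iff (by omega : len M o ≠ 0) (P := fun i => w i ∈ A) (fun i => ?_) i j
    exact hA (bdart hB.2.1 i) ((hX _).2 ((hw _).2 ⟨i, rfl⟩)) ((hX _).2 ((hw _).2 ⟨i + 1, rfl⟩))
  · intro R hR hno hcard
    have ho : o ∉ R := fun h => hno o h hroot
    rcases hD.nosep R ho hR hcard with h | h
    · exact h
    · exfalso
      have h5 := bdart_mem hB 0
      have h6 := (mem_bd.1 h5).1
      have h7 := h.ge h6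
      exact hno _ h7 ⟨w 0, (hX _).2 ((hw _).2 ⟨0, rfl⟩), bdart hB.2.1 0, rfl, rfl⟩

end C7
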