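import Pool.Agent.Lib.MP_86b854_co.Lv.Spec
import Pool.Agent.Lib.MP_86b854_co.D.Bas

set_option autoImplicit false
set_option linter.unusedSectionVars false

/-!
# MP_86b854_co : there are no minimal counterexamples
-/

namespace C7

open PLM T72 Finset Equiv

namespace NoMinAux

variable {V : Type} [Fintype V] [DecidableEq V] {G : SimpleGraph V} [DecidableRel G.Adj]
  {M : CMap G.Dart V}

theorem eBt_pos {W P : Finset V} {x c : V} (hx : x ∈ W) (hc : c ∈ P) (h : G.Adj x c) :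
    1 ≤ eBt G W P := by
  unfold eBt
  exact card_pos.2 ⟨(x, c), mem_filter.2 ⟨mem_product.2 ⟨hx, hc⟩, h⟩⟩

open Classical in
theorem Lam_le {X : Finset V} {o : Fc M} (h4 : ∀ f, 4 ≤ len M f) (ho : RootF M X o) :
    Lam M X ≤ ∑ f ∈ univ \ {o}, ((len M f : ℤ) - 4) := by
  unfold Lam
  apply sum_le_sum_of_subset_of_nonneg
  · intro f hf
    rw [mem_filter] at hf
    rw [mem_sdiff, mem_singleton]
    exact ⟨mem_univ _, fun h => hf.2 (h ▸ ho)⟩
  · intro f _ _
    have := h4 f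
    omega

open Classical in
theorem Lam_lt {X : Finset V} {o f₀ : Fc M} (h4 : ∀ f, 4 ≤ len M f) (ho : RootF M X o)
    (hf : f₀ ≠ o) (hr : RootF M X f₀) (h5 : 5 ≤ len M f₀) :
    Lam M X + 1 ≤ ∑ f ∈ univ \ {o}, ((len M f : ℤ) - 4) := by
  have h1 : f₀ ∉ univ.filter (fun f => ¬ RootF M X f) := by
    rw [mem_filter]
    exact fun h => h.2 hr
  have h2 : insert f₀ (univ.filter (fun f => ¬ RootF M X f)) ⊆ univ \ {o} := by
    intro f hf'
    rw [mem_sdiff, mem_singleton]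
    refine ⟨mem_univ _, ?_⟩
    rintro rfl
    rcases mem_insert.1 hf' with h | h
    · exact hf h.symm
    · exact (mem_filter.1 h).2 ho
  have h3 := sum_le_sum_of_subset_of_nonneg (f := fun f => (len M f : ℤ) - 4) h2 (by
    intro f _ _
    have := h4 f
    omega)
  rw [sum_insert h1] at h3
  have h6 : Lam M X = ∑ f ∈ univ.filter (fun f => ¬ RootF M X f), ((len M f : ℤ) - 4) := rfl
  rw [h6]
  omega

end NoMinAux

open Bas NoMinAux in
/-- **NoMin.** -/
theorem tNoMin (h1 : S_Fin1) (h2 : S_NoBad) (h3 : S_Quad5) (h4 : S_Val) (h5 : S_MinOuter)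
    (h6 : S_FaceLen) : S_NoMin := by
  intro V _ _ G _ M o L P g hD
  have hM := hD.plane
  obtain ⟨hne, hin, hk, w, hB, hw⟩ := h5 V G M o L P g hD
  have hlen : ∀ f, 4 ≤ len M f := h6 V G M hM hD.conn hD.tri ⟨univ \ {o}, _, bdart_mem hB 0⟩
  obtain ⟨hA, hA2⟩ := h1 V G M o L P g hD hlen (h2 V G M o L P g hD)
  have hroot : RootF M Pᶜ o := by
    obtain ⟨d, hd⟩ := exists_fc o
    refine ⟨d.fst, ?_, d, rfl, hd⟩
    rw [mem_compl, not_not]
    exact (hD.outer _).2 ⟨d, rfl, hd⟩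
  have hLam := Lam_le (X := Pᶜ) hlen hroot
  have hpos : 0 < (Pᶜ).card := card_pos.2 hne
  have key : ∀ W ⊆ Pᶜ, BipOn G (Pᶜ \ W) → 3 * W.card ≤ (Pᶜ).card →
      ((Pᶜ).card : ℤ) + 2 * (∑ f ∈ univ \ {o}, ((len M f : ℤ) - 4)) + 8 +
        3 * eBt G W P < 7 * W.card + 2 * len M o := by
    intro W hW hbip hcard
    have h7 : (Pᶜ \ W).Nonempty := by
      rw [← card_pos, card_sdiff_of_subset hW]
      omega
    have h8 := h4 V G M o L P g hD (univ \ {o}) (len M o) w (by omega) hB (by simp) W ∅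
      (by rw [hin]; exact hW) (by rw [hin]; exact h7) (by rw [hin]; exact hbip)
      (empty_subset _) (by simp) (by simp) (by simp)
    rw [hin, compl_compl] at h8
    simp only [card_empty, Nat.cast_zero] at h8
    have h9 : (0 : ℤ) ≤ (chd M (univ \ {o})).card := Nat.cast_nonneg _
    linarith
  have hk2 : len M o ≤ 5 := hD.len_le
  obtain ⟨W, hW, hbip, hc3, hc7⟩ := hA
  have k1 := key W hW hbip hc3
  have e0 : (0 : ℤ) ≤ eBt G W P := Nat.cast_nonneg _
  rcases Nat.lt_or_ge (len M o) 5 with hlt | hge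
  · have e4 : (len M o : ℤ) = 4 := by omega
    rw [e4] at k1
    linarith
  · have e5 : len M o = 5 := by omega
    have e5' : (len M o : ℤ) = 5 := by omega
    rcases h3 V G M o L P g hD e5 with ⟨f, hf, hr, h5f⟩ | ⟨x, y, hx, hy, hxy, ⟨c, hc, hxc⟩,
      ⟨c', hc', hyc⟩, hfx, hfy⟩
    · have := Lam_lt (X := Pᶜ) hlen hroot hf hr h5f
      rw [e5'] at k1
      linarith
    · obtain ⟨W', hW', hbip', hc3', hc7', hor⟩ := hA2 x y hx hy hxy hfx hfy
      have k2 := key W' hW' hbip' hc3'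
      have e0' : (0 : ℤ) ≤ eBt G W' P := Nat.cast_nonneg _
      rw [e5'] at k2
      rcases hor with h | h | h
      · have h9 : (1 : ℤ) ≤ eBt G W' P := by exact_mod_cast eBt_pos h hc hxc
        linarith
      · have h9 : (1 : ℤ) ≤ eBt G W' P := by exact_mod_cast eBt_pos h hc' hyc
        linarith
      · linarith

end C7
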