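import Pool.Agent.Lib.MP_86b854_co.Lv.Spec
import Pool.Agent.Lib.MP_86b854_co.D.Bas

set_option autoImplicit false

/-!
# MP_86b854_co : `S_Oct`. The vertices on a `T`-join are an odd cycle transversal.
-/

namespace C7

open PLM T72 Finset Equiv

namespace OctP

variable {V : Type} [Fintype V] [DecidableEq V] {G : SimpleGraph V} [DecidableRel G.Adj]
  {M : CMap G.Dart V}

omit [Fintype V] [DecidableRel G.Adj] [DecidableEq V] in
/-- the darts of `G` of a walk of a subgraph -/
def dl {G' : SimpleGraph V} (h : ∀ u v, G'.Adj u v → G.Adj u v) {u v : V} (w : G'.Walk u v) :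
    List G.Dart :=
  w.darts.map fun d => ⟨(d.fst, d.snd), h _ _ d.adj⟩

omit [Fintype V] [DecidableRel G.Adj] [DecidableEq V] in
theorem dl_len {G' : SimpleGraph V} (h : ∀ u v, G'.Adj u v → G.Adj u v) {u v : V}
    (w : G'.Walk u v) : (dl h w).length = w.length := by
  simp [dl]

omit [Fintype V] [DecidableRel G.Adj] [DecidableEq V] in
theorem dl_mem {G' : SimpleGraph V} (h : ∀ u v, G'.Adj u v → G.Adj u v) {u v : V}
    (w : G'.Walk u v) (d : G.Dart) (hd : d ∈ dl h w) : G'.Adj d.fst d.snd := by
  unfold dl at hd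
  rw [List.mem_map] at hd
  obtain ⟨e, -, rfl⟩ := hd
  exact e.adj

omit [Fintype V] [DecidableRel G.Adj] in
theorem dl_bal {G' : SimpleGraph V} (h : ∀ u v, G'.Adj u v → G.Adj u v) (x : V) {u v : V}
    (w : G'.Walk u v) :
    ((dl h w).map fun d => ((if d.fst = x then (1 : ZMod 2) else 0) +
      (if d.snd = x then 1 else 0))).sum = (if u = x then 1 else 0) + (if v = x then 1 else 0) := by
  induction w with
  | nil =>
    simp only [dl, SimpleGraph.Walk.darts_nil, List.map_nil, List.sum_nil]
    exact (CharTwo.add_self_eq_zero _).symm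
  | cons hadj p ih =>
    simp only [dl, SimpleGraph.Walk.darts_cons, List.map_cons, List.sum_cons] at ih ⊢
    rw [ih]
    have h3 : ∀ a b c : ZMod 2, a + b + (b + c) = a + c := by decide
    exact h3 _ _ _

omit [Fintype V] [DecidableEq V] [DecidableRel G.Adj] in
theorem count_sum {D : Type} [Fintype D] [DecidableEq D] (l : List D) (F : D → ZMod 2) :
    ∑ d, (l.count d : ZMod 2) * F d = (l.map F).sum := by
  induction l with
  | nil => simp
  | cons a l ih =>
    rw [List.map_cons, List.sum_cons, ← ih]
    have h1 : ∀ d, (((a :: l).count d : ℕ) : ZMod 2) * F d =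
        (if d = a then F d else 0) + (l.count d : ZMod 2) * F d := by
      intro d
      rw [List.count_cons]
      by_cases h : d = a
      · subst h
        simp only [beq_self_eq_true, if_true]
        push_cast
        ring
      · have h' : (a == d) = false := by
          rw [beq_eq_false_iff_ne]
          exact fun h2 => h h2.symm
        simp [h, h']
    rw [Finset.sum_congr rfl fun d _ => h1 d, Finset.sum_add_distrib, Finset.sum_ite_eq']
    simp

/-- the sum of a function over the terminals of a join is zero, if the function is constant along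
the edges of the join -/
theorem join_sum {N : Type} [Fintype N] [DecidableEq N] (I : SimpleGraph N) (T : Finset N)
    (J : Finset (Sym2 N)) (hJ : IsJ I T J) (H : N → ZMod 2)
    (hH : ∀ a b, s(a, b) ∈ J → H a = H b) : ∑ x ∈ T, H x = 0 := by
  have h1 : ∑ x ∈ T, H x = ∑ x, ((J.filter fun e => x ∈ e).card : ZMod 2) * H x := by
    rw [← Finset.sum_subset (Finset.subset_univ T)]
    · refine Finset.sum_congr rfl fun x hx => ?_
      have h2 := (hJ.2 x).2 hx
      have h3 : ((J.filter fun e => x ∈ e).card : ZMod 2) = 1 :=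
        (ZMod.natCast_eq_one_iff_odd).2 h2
      rw [h3, one_mul]
    · intro x _ hx
      have h2 : ¬ Odd (J.filter fun e => x ∈ e).card := fun h => hx ((hJ.2 x).1 h)
      rw [Nat.not_odd_iff_even] at h2
      have h3 : ((J.filter fun e => x ∈ e).card : ZMod 2) = 0 :=
        (ZMod.natCast_eq_zero_iff_even).2 h2
      rw [h3, zero_mul]
  rw [h1]
  have h2 : ∀ x : N, ((J.filter fun e => x ∈ e).card : ZMod 2) * H x =
      ∑ e ∈ J, if x ∈ e then H x else 0 := by
    intro x
    rw [← Finset.sum_filter, Finset.sum_const, nsmul_eq_mul]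
  rw [Finset.sum_congr rfl fun x _ => h2 x, Finset.sum_comm]
  refine Finset.sum_eq_zero fun e he => ?_
  induction e using Sym2.ind with
  | h a b =>
    have hab : a ≠ b := by
      have h3 := hJ.1 _ he
      rw [SimpleGraph.mem_edgeSet] at h3
      exact h3.ne
    have h3 : ∀ x, (if x ∈ s(a, b) then H x else 0) =
        (if x = a then H x else 0) + (if x = b then H x else 0) := by
      intro x
      simp only [Sym2.mem_iff]
      by_cases hx : x = a
      · subst hx
        simp [hab]
      · by_cases hx' : x = b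
        · subst hx'
          simp [hx]
        · simp [hx, hx']
    rw [Finset.sum_congr rfl fun x _ => h3 x, Finset.sum_add_distrib, Finset.sum_ite_eq',
      Finset.sum_ite_eq', if_pos (Finset.mem_univ _), if_pos (Finset.mem_univ _), hH a b he]
    exact CharTwo.add_self_eq_zero _

theorem face_sum (H : Fc M → ZMod 2) :
    ∑ d, H (fc M d) = ∑ f, (len M f : ZMod 2) * H f := by
  rw [← Finset.sum_fiberwise (Finset.univ) (fc M) (fun d => H (fc M d))]
  refine Finset.sum_congr rfl fun f _ => ?_
  have h1 : ∀ d ∈ Finset.univ.filter (fun d => fc M d = f), H (fc M d) = H f := by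
    intro d hd
    rw [(Finset.mem_filter.1 hd).2]
  rw [Finset.sum_congr rfl h1, Finset.sum_const, nsmul_eq_mul]
  rfl

/-- around a vertex -/
theorem around (hM : PlaneMap M) (H : Fc M → ZMod 2) (v : V)
    (h : ∀ d : G.Dart, d.fst = v → H (fc M d) = H (fc M d.symm)) (d e : G.Dart) (hd : d.fst = v)
    (he : e.fst = v) : H (fc M d) = H (fc M e) := by
  have h1 : M.σ.SameCycle d e := by
    rw [← M.hv, hM.1, hM.1, hd, he]
  have h2 := PanD.SameCycle.mem_closed (S := {x : G.Dart | x.fst = v ∧ H (fc M d) = H (fc M x)}) h1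
    (by
      rintro x ⟨hx1, hx2⟩
      refine ⟨?_, ?_⟩
      · rw [Bas.sig_fst hM, hx1]
      · rw [← Bas.fc_symm hM, ← h x hx1, ← hx2]) ⟨hd, rfl⟩
  exact h2.2

end OctP

open OctP in
theorem tOct : S_Oct := by
  classical
  intro V _ _ G _ M hM X hroot J hJ
  set S := X \ Wj M X J with hS
  let G' : SimpleGraph V :=
    { Adj := fun u v => G.Adj u v ∧ u ∈ S ∧ v ∈ S
      symm := ⟨fun u v h => ⟨h.1.symm, h.2.2, h.2.1⟩⟩
      loopless := ⟨fun u h => h.1.ne rfl⟩ }
  have hsub : ∀ u v, G'.Adj u v → G.Adj u v := fun u v h => h.1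
  suffices hcol : G'.Colorable 2 by
    obtain ⟨C⟩ := hcol
    refine ⟨fun v => decide (C v = 0), ?_⟩
    intro u hu v hv huv hc
    have h1 : C u ≠ C v := C.valid (show G'.Adj u v from ⟨huv, hu, hv⟩)
    have h2 : ∀ a b : Fin 2, a ≠ b → decide (a = 0) ≠ decide (b = 0) := by decide
    exact h2 _ _ h1 hc
  rw [SimpleGraph.two_colorable_iff_forall_loop_even]
  intro u w
  set l := dl hsub w with hl
  have hlmem : ∀ d ∈ l, d.fst ∈ S ∧ d.snd ∈ S := fun d hd => (dl_mem hsub w d hd).2
  rw [← dl_len hsub w, ← hl, ← ZMod.natCast_eq_zero_iff_even]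
  let c : G.Dart → ZMod 2 := fun d => (l.count d : ZMod 2)
  have hc0 : ∀ d : G.Dart, (d.fst ∉ S ∨ d.snd ∉ S) → c d = 0 := by
    intro d hd
    have h1 : d ∉ l := by
      intro h2
      rcases hd with h3 | h3
      · exact h3 (hlmem d h2).1
      · exact h3 (hlmem d h2).2
    show ((l.count d : ℕ) : ZMod 2) = 0
    rw [List.count_eq_zero_of_not_mem h1, Nat.cast_zero]
  let sy : G.Dart ≃ G.Dart := ⟨SimpleGraph.Dart.symm, SimpleGraph.Dart.symm,
    fun d => d.symm_symm, fun d => d.symm_symm⟩
  have hcyc : M.Cyc fun d => c d + c d.symm := by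
    refine ⟨fun d => ?_, fun x => ?_⟩
    · simp only [hM.2.1, SimpleGraph.Dart.symm_symm]
      exact add_comm _ _
    · have h1 : ∀ d : G.Dart, (if M.vt d = x then c d + c d.symm else 0) =
          c d * (if d.fst = x then 1 else 0) + c d.symm * (if d.fst = x then 1 else 0) := by
        intro d
        rw [hM.1]
        split_ifs <;> simp
      rw [Finset.sum_congr rfl fun d _ => h1 d, Finset.sum_add_distrib]
      have h2 : ∑ d : G.Dart, c d.symm * (if d.fst = x then 1 else 0) =
          ∑ d : G.Dart, c d * (if d.snd = x then 1 else 0) :=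
        Fintype.sum_equiv sy _ _ fun d => rfl
      rw [h2, ← Finset.sum_add_distrib]
      have h3 : ∀ d : G.Dart, c d * (if d.fst = x then 1 else 0) +
          c d * (if d.snd = x then 1 else 0) = (l.count d : ZMod 2) *
            ((if d.fst = x then (1 : ZMod 2) else 0) + (if d.snd = x then 1 else 0)) := by
        intro d
        rw [mul_add]
      rw [Finset.sum_congr rfl fun d _ => h3 d, count_sum, hl, dl_bal]
      exact CharTwo.add_self_eq_zero _
  obtain ⟨h, hh1, hh2⟩ := hM.2.2 _ hcyc
  let hF : Fc M → ZMod 2 := Quotient.lift h fun a b hab => PanD.eq_of_sameCycle hh1 hab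
  have hhF : ∀ d, hF (fc M d) = h d := fun d => rfl
  obtain ⟨a, ha⟩ : ∃ a : ZMod 2, ∀ f, RootF M X f → hF f = a := by
    by_cases hex : ∃ f, RootF M X f
    · obtain ⟨g, hg⟩ := hex
      refine ⟨hF g, fun f hf => ?_⟩
      have h1 := hroot (Finset.univ.filter fun f => hF f = 1) (by
        intro d hd
        rw [Finset.mem_filter, Finset.mem_filter, hhF, hhF]
        have h2 : c d + c d.symm = h d + h (M.α d) := hh2 d
        have h3 : d.fst ∉ S ∨ d.snd ∉ S := by
          by_contra h4
          push Not at h4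
          apply hd
          unfold dIn
          rw [Finset.mem_filter]
          exact ⟨Finset.mem_univ _, (Finset.mem_sdiff.1 h4.1).1, (Finset.mem_sdiff.1 h4.2).1⟩
        rw [hc0 d h3, hc0 d.symm h3.symm, hM.2.1] at h2
        have h5 : ∀ a b : ZMod 2, 0 + 0 = a + b → a = b := by decide
        rw [h5 _ _ h2]
        simp) f g hf hg
      simp only [Finset.mem_filter, Finset.mem_univ, true_and] at h1
      have h6 : ∀ a b : ZMod 2, (a = 1 ↔ b = 1) → a = b := by decide
      exact h6 _ _ h1
    · exact ⟨0, fun f hf => absurd ⟨f, hf⟩ hex⟩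
  let H : Fc M → ZMod 2 := fun f => hF f + a
  have hHr : ∀ f, RootF M X f → H f = 0 := by
    intro f hf
    show hF f + a = 0
    rw [ha f hf]
    exact CharTwo.add_self_eq_zero _
  have hHz : ∀ d : G.Dart, c d + c d.symm = H (fc M d) + H (fc M d.symm) := by
    intro d
    have h2 : c d + c d.symm = h d + h (M.α d) := hh2 d
    rw [hM.2.1] at h2
    rw [h2]
    show _ = (h d + a) + (h d.symm + a)
    have h3 : ∀ a b c : ZMod 2, a + b = (a + c) + (b + c) := by decide
    exact h3 _ _ _
  -- the length of the walk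
  have hlen : (l.length : ZMod 2) = ∑ d, c d := by
    have h1 := count_sum l fun _ => (1 : ZMod 2)
    simp only [mul_one, List.map_const', List.sum_replicate, nsmul_eq_mul] at h1
    exact h1.symm
  have hsum : ∑ d, c d = ∑ d, H (fc M d) := by
    have h1 : ∑ d, (H (fc M d) + c d) = 0 := by
      refine Finset.sum_involution (fun d _ => d.symm) ?_ ?_ ?_ ?_
      · intro d _
        have h2 := hHz d
        have h3 : ∀ p q r s : ZMod 2, p + q = r + s → (r + p) + (s + q) = 0 := by decide
        exact h3 _ _ _ _ h2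
      · intro d _ _
        exact d.symm_ne
      · intro d _
        exact Finset.mem_univ _
      · intro d _
        exact d.symm_symm
    rw [Finset.sum_add_distrib] at h1
    have h3 : ∀ p q : ZMod 2, p + q = 0 → q = p := by decide
    exact h3 _ _ h1
  -- values on the nodes
  let hv : V → ZMod 2 := fun v =>
    if hd : ∃ d : G.Dart, d.fst = v then H (fc M hd.choose) else 0
  have hhv : ∀ v ∈ Wj M X J, ∀ f, Inc M v f → hv v = H f := by
    rintro v hvW f ⟨d, hd1, hd2⟩
    have hex : ∃ d : G.Dart, d.fst = v := ⟨d, hd1⟩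
    show (if hd : ∃ d : G.Dart, d.fst = v then H (fc M hd.choose) else 0) = H f
    rw [dif_pos hex, ← hd2]
    refine around hM H v ?_ _ _ hex.choose_spec hd1
    intro e he
    have h1 : e.fst ∉ S := by
      rw [he]
      intro h2
      exact (Finset.mem_sdiff.1 h2).2 hvW
    have h2 := hHz e
    rw [hc0 e (Or.inl h1), hc0 e.symm (Or.inr h1)] at h2
    have h5 : ∀ a b : ZMod 2, 0 + 0 = a + b → a = b := by decide
    exact h5 _ _ h2
  let Hn : Nd M X → ZMod 2 := fun x =>
    match x with
    | none => 0
    | some (Sum.inl v) => hv v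
    | some (Sum.inr f) => H f
  have hHnf : ∀ f, Hn (nf M X f) = H f := by
    intro f
    by_cases hf : RootF M X f
    · have h1 : nf M X f = none := by
        unfold nf
        rw [dif_pos hf]
      rw [h1, hHr f hf]
    · have h1 : nf M X f = some (Sum.inr ⟨f, hf⟩) := by
        unfold nf
        rw [dif_neg hf]
      rw [h1]
  have hJn : ∀ x y, s(x, y) ∈ J → Hn x = Hn y := by
    have key : ∀ x y v f, s(x, y) ∈ J → v ∈ X → Inc M v f → x = nv M X v → y = nf M X f →
        Hn x = Hn y := by
      intro x y v f he hvX hI hx hy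
      have hvW : v ∈ Wj M X J := by
        unfold Wj
        rw [Finset.mem_filter]
        refine ⟨hvX, s(x, y), he, ?_⟩
        rw [← hx]
        exact Sym2.mem_mk_left _ _
      rw [hy, hHnf, hx]
      have h1 : nv M X v = some (Sum.inl ⟨v, hvX⟩) := by
        unfold nv
        rw [dif_pos hvX]
      rw [h1]
      exact hhv v hvW f hI
    intro x y he
    have h1 := hJ.1 _ he
    rw [SimpleGraph.mem_edgeSet] at h1
    obtain ⟨-, v, f, hvX, hI, h2 | h2⟩ := h1
    · exact key x y v f he hvX hI h2.1 h2.2
    · rw [Sym2.eq_swap] at he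
      exact (key y x v f he hvX hI h2.1 h2.2).symm
  have h0 := join_sum (IG M X) (Tn M X) J hJ Hn hJn
  have h1 : ∑ x ∈ Tn M X, Hn x = ∑ x ∈ T0 M X, Hn x := by
    unfold Tn
    split_ifs
    · rfl
    · exact Finset.sum_insert_zero rfl
  have h2 : T0 M X = (Finset.univ.filter fun f => ¬ RootF M X f ∧ Odd (len M f)).image (nf M X) := by
    ext x
    unfold T0
    simp only [Finset.mem_filter, Finset.mem_univ, true_and, Finset.mem_image]
    constructor
    · rintro ⟨f, h3, h4, h5⟩
      exact ⟨f, ⟨h3, h5⟩, h4.symm⟩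
    · rintro ⟨f, ⟨h3, h5⟩, h4⟩
      exact ⟨f, h3, h4.symm, h5⟩
  have hinj : Set.InjOn (nf M X)
      (Finset.univ.filter fun f => ¬ RootF M X f ∧ Odd (len M f) : Finset (Fc M)) := by
    intro f hf g hg hfg
    have hf' : ¬ RootF M X f := (Finset.mem_filter.1 hf).2.1
    have hg' : ¬ RootF M X g := (Finset.mem_filter.1 hg).2.1
    unfold nf at hfg
    rw [dif_neg hf', dif_neg hg'] at hfg
    have h3 := Option.some.inj hfg
    have h4 := Sum.inr.inj h3
    exact congrArg Subtype.val h4
  have h3 : ∑ x ∈ T0 M X, Hn x = ∑ f, (len M f : ZMod 2) * H f := by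
    rw [h2, Finset.sum_image hinj, ← Finset.sum_subset (Finset.subset_univ
      (Finset.univ.filter fun f => ¬ RootF M X f ∧ Odd (len M f)))]
    · refine Finset.sum_congr rfl fun f hf => ?_
      have h4 : (len M f : ZMod 2) = 1 :=
        (ZMod.natCast_eq_one_iff_odd).2 (Finset.mem_filter.1 hf).2.2
      rw [hHnf, h4, one_mul]
    · intro f _ hf
      by_cases hr : RootF M X f
      · rw [hHr f hr, mul_zero]
      · have h4 : ¬ Odd (len M f) := by
          intro h5
          exact hf (Finset.mem_filter.2 ⟨Finset.mem_univ _, hr, h5⟩)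
        rw [Nat.not_odd_iff_even] at h4
        have h5 : (len M f : ZMod 2) = 0 := (ZMod.natCast_eq_zero_iff_even).2 h4
        rw [h5, zero_mul]
  rw [hlen, hsum, face_sum, ← h3, ← h1, h0]

end C7
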