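import Pool.Agent.Lib.MP_86b854_co.Lv.Basic

set_option autoImplicit false

/-!
# MP_86b854_co : `S_Odd` (parities of the children)
-/

namespace C7

open PLM T72 Finset Equiv

/-- the number of terminals in a face component without the root has the parity of the sum of the
lengths of its faces -/
private lemma odd_sum_len {V : Type} [Fintype V] [DecidableEq V] {G : SimpleGraph V}
    [DecidableRel G.Adj] {M : CMap G.Dart V} {X : Finset V} {D : Finset (Nd M X)}
    (hr : rt M X ∉ D) (hnv : Odd (Tn M X ∩ D).card) : Odd (∑ f ∈ fD M X D, len M f) := by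
  classical
  rw [Finset.odd_sum_iff_odd_card_odd]
  have h1 : Tn M X ∩ D = ((fD M X D).filter fun f => Odd (len M f)).image (nf M X) := by
    ext x
    rw [Finset.mem_inter, Finset.mem_image]
    constructor
    · rintro ⟨hx, hxD⟩
      have hne : x ≠ rt M X := fun h => hr (h ▸ hxD)
      obtain ⟨f, hf, hxf, hodd⟩ := (mem_Tn hne).1 hx
      refine ⟨f, Finset.mem_filter.mpr ⟨?_, hodd⟩, hxf.symm⟩
      rw [mem_fD, ← hxf]
      exact hxD
    · rintro ⟨f, hf, rfl⟩
      rw [Finset.mem_filter, mem_fD] at hf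
      have hroot : ¬ RootF M X f := by
        intro h
        rw [nf_of_root h] at hf
        exact hr hf.1
      exact ⟨(nf_mem_Tn hroot).2 hf.2, hf.1⟩
  rw [h1, Finset.card_image_of_injOn] at hnv
  · exact hnv
  · intro f hf g _ hfg
    have hf2 := (Finset.mem_filter.mp (Finset.mem_coe.mp hf)).1
    rw [mem_fD] at hf2
    have hroot : ¬ RootF M X f := by
      intro h
      rw [nf_of_root h] at hf2
      exact hr hf2
    exact nf_inj hroot hfg

theorem tOdd (hFam : S_Fam) (hChild : S_Child) (hLenR : S_LenR) : S_Odd := by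
  classical
  intro V _ _ G _ M X pi hctx K hK
  obtain ⟨-, -, -, -, f5, -, f7⟩ := hFam V G M X pi hctx
  obtain ⟨u, hu, huK⟩ := mem_KF.1 hK
  -- the number of terminals in a child is odd
  have hodd : ∀ D ∈ chK M X pi K, Odd (Tn M X ∩ D).card := by
    intro D hD
    obtain ⟨h1, -, h3⟩ := mem_chK.1 hD
    obtain ⟨f, hf⟩ := mem_DF.1 h1
    rw [← hf] at h3 ⊢
    exact hctx.lev.odd _ h3
  refine ⟨?_, ?_⟩
  · intro D hD
    obtain ⟨h1, h2, h3⟩ := mem_chK.1 hD
    have hreg := (hChild V G M X pi hctx K hK D h1 h2).1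
    obtain ⟨hne, hclo, -⟩ := mem_regs.1 hreg
    have hnu : fD M X D ≠ univ := by
      obtain ⟨v, hv⟩ := hctx.ne
      have hvu : v ≠ u := fun h => hv (h ▸ hu)
      obtain ⟨d, hd⟩ := exists_dart_at hctx.conn hvu
      intro h
      have h4 : fc M d ∈ fD M X D := by
        rw [h]
        exact Finset.mem_univ _
      rw [mem_fD, nf_of_root ⟨v, hv, d, hd, rfl⟩] at h4
      exact h3 h4
    obtain ⟨-, -, -, -, e, he⟩ := hLenR V G M hctx.plane hctx.conn hctx.tri (HK M X pi K)
      (fun d hd => dIn_symm hd) (fD M X D) hclo hne hnu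
    have h5 := odd_sum_len h3 (hodd D hD)
    rw [he] at h5
    show Odd (lenR M (HK M X pi K) (fD M X D))
    obtain ⟨k, hk⟩ := h5
    exact ⟨k - e, by omega⟩
  · intro hrK
    have hTK : Odd (Tn M X ∩ K).card := by
      rw [← huK] at hrK ⊢
      exact hctx.lev.odd _ hrK
    have h1 : Tn M X ∩ K = (chK M X pi K).biUnion fun D => Tn M X ∩ D := by
      ext x
      rw [Finset.mem_inter, Finset.mem_biUnion]
      constructor
      · rintro ⟨hxT, hxK⟩
        have hx : x ∉ (VK M X pi K).image (nv M X) := by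
          intro h
          obtain ⟨v, hv, hvx⟩ := Finset.mem_image.1 h
          rw [← hvx] at hxT
          exact nv_not_mem_Tn (mem_VK.1 hv).1 hxT
        obtain ⟨D, hD, hDK, hxD⟩ := f5 K hK x hxK hx
        refine ⟨D, mem_chK.2 ⟨hD, hDK, fun h => hrK (hDK.1 h)⟩, ?_⟩
        exact Finset.mem_inter.2 ⟨hxT, hxD⟩
      · rintro ⟨D, hD, hx⟩
        rw [Finset.mem_inter] at hx
        exact ⟨hx.1, (mem_chK.1 hD).2.1.1 hx.2⟩
    rw [h1, Finset.card_biUnion, Finset.odd_sum_iff_odd_card_odd] at hTK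
    · rw [Finset.filter_true_of_mem hodd] at hTK
      exact hTK
    · intro D hD D' hD' hne
      show Disjoint (Tn M X ∩ D) (Tn M X ∩ D')
      rw [Finset.disjoint_left]
      intro x hx hx'
      rw [Finset.mem_inter] at hx hx'
      obtain ⟨a1, a2, -⟩ := mem_chK.1 hD
      obtain ⟨b1, b2, -⟩ := mem_chK.1 hD'
      exact hne (f7 K hK D a1 D' b1 a2 b2 x hx.2 hx'.2)

end C7
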