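import Pool.Agent.Lib.MP_86b854_co.Lv.Spec

set_option autoImplicit false

/-!
# MP_86b854_co : `S_One`
-/

namespace C7

open PLM T72 Finset Equiv

section OneAux

variable {V : Type} [Fintype V] [DecidableEq V] {G : SimpleGraph V} [DecidableRel G.Adj]

lemma one_fst {M : CMap G.Dart V} (hM : PlaneMap M) (d : G.Dart) : (M.σ d).fst = d.fst := by
  have h : M.vt (M.σ d) = M.vt d := by
    rw [M.hv]
    exact Perm.sameCycle_apply_left.2 (Perm.SameCycle.refl _ _)
  rw [hM.1, hM.1] at h
  exact h

lemma one_fc_phi (M : CMap G.Dart V) (d : G.Dart) : fc M (M.φ d) = fc M d := by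
  unfold fc
  apply Quotient.sound
  exact Perm.sameCycle_apply_left.2 (Perm.SameCycle.refl _ _)

lemma one_fc_symm {M : CMap G.Dart V} (hM : PlaneMap M) (d : G.Dart) :
    fc M d.symm = fc M (M.σ d) := by
  rw [← one_fc_phi M d.symm, CMap.φ_apply, hM.2.1, SimpleGraph.Dart.symm_symm]

/-- the darts which start in a set of vertices of degree at least three -/
lemma one_deg (A : Finset V) (h : ∀ v ∈ A, 3 ≤ G.degree v) :
    3 * A.card ≤ (univ.filter fun d : G.Dart => d.fst ∈ A).card := by
  have h1 : (univ.filter fun d : G.Dart => d.fst ∈ A).card =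
      ∑ v ∈ A, ((univ.filter fun d : G.Dart => d.fst ∈ A).filter fun d => d.fst = v).card :=
    card_eq_sum_card_fiberwise (fun d hd => (mem_filter.1 hd).2)
  rw [h1, mul_comm, ← smul_eq_mul, ← sum_const]
  refine sum_le_sum fun v hv => ?_
  have h2 := G.dart_fst_fiber_card_eq_degree v
  have h3 : ((univ.filter fun d : G.Dart => d.fst ∈ A).filter fun d => d.fst = v) =
      univ.filter fun d : G.Dart => d.fst = v := by
    ext d
    simp only [mem_filter, mem_univ, true_and]
    constructor
    · exact fun h => h.2
    · intro h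
      exact ⟨by rw [h]; exact hv, h⟩
  rw [h3, h2]
  exact h v hv

end OneAux

theorem tOne (hS : S_ShortBd) (hE : S_DiscEuler) : S_One := by
  intro V _ _ G _ M hM hc ht f hne h7 hdeg
  classical
  obtain ⟨h4, w, hw⟩ := hS V G M hM ht {f} (bd M {f}).card rfl (card_pos.2 hne).ne' h7
  have hEu := hE V G M hM hc {f} (bd M {f}).card w (by omega) hw
  rw [card_singleton, sum_singleton] at hEu
  -- split the darts of `f`
  set B := univ.filter fun d : G.Dart => fc M d = f ∧ fc M d.symm = f with hB
  have hlen : len M f = (bd M {f}).card + B.card := by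
    unfold len
    rw [← card_union_of_disjoint]
    · congr 1
      ext d
      simp only [bd, hB, mem_filter, mem_union, mem_univ, true_and, mem_singleton]
      tauto
    · rw [disjoint_left]
      intro d hd hd'
      simp only [bd, hB, mem_filter, mem_univ, true_and, mem_singleton] at hd hd'
      exact hd.2 hd'.2
  have hsub : (univ.filter fun d : G.Dart => d.fst ∈ inV M {f}) ⊆ B := by
    intro d hd
    simp only [hB, inV, mem_filter, mem_univ, true_and, mem_singleton] at hd ⊢
    refine ⟨hd d rfl, ?_⟩
    rw [one_fc_symm hM]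
    exact hd _ (one_fst hM d)
  have h3 := one_deg (inV M {f}) hdeg
  have h5 := card_le_card hsub
  have h0 : (inV M {f}).card = 0 := by omega
  exact ⟨card_eq_zero.1 h0, by omega⟩

end C7
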