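import Pool.Agent.Lib.MP_86b854_co.Lv.Spec
import Pool.Agent.Lib.MP_86b854_co.D.Bas

set_option autoImplicit false
set_option linter.unusedSectionVars false

/-!
# MP_86b854_co : `S_Quad5`, the faces at an outer face of length five
-/

namespace C7

open PLM T72 Finset Equiv

namespace Quad5A

variable {V : Type} [Fintype V] [DecidableEq V] {G : SimpleGraph V} [DecidableRel G.Adj]
  {M : CMap G.Dart V}

/-- a face of length four closes up after four steps -/
theorem four (hM : PlaneMap M) (d : G.Dart) (h : len M (fc M d) = 4) :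
    M.φ (M.φ (M.φ (M.φ d))) = d := by
  have h1 : M.φ d ≠ d := by
    intro h2
    have h3 := Bas.phi_fst hM d
    rw [h2] at h3
    exact d.fst_ne_snd h3
  have h2 : (M.φ.cycleOf d).support = univ.filter fun e => fc M e = fc M d := by
    ext e
    rw [Perm.mem_support_cycleOf_iff, mem_filter, Bas.fc_eq_iff]
    constructor
    · intro h3
      exact ⟨mem_univ _, h3.1.symm⟩
    · intro h3
      exact ⟨h3.2.symm, Perm.mem_support.2 h1⟩
  have h3 : (M.φ.cycleOf d).support.card = 4 := by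
    rw [h2]
    exact h
  have h4 := Perm.pow_mod_card_support_cycleOf_self_apply M.φ 4 d
  rw [h3] at h4
  have h5 : (M.φ ^ 4) d = M.φ (M.φ (M.φ (M.φ d))) := by
    simp [pow_succ]
  rw [← h5, ← h4]
  rfl

theorem dart_eq {d e : G.Dart} (h1 : d.fst = e.fst) (h2 : d.snd = e.snd) : d = e :=
  SimpleGraph.Dart.ext _ _ (Prod.ext h1 h2)

/-- adjacent vertices of a `5`-cycle are consecutive -/
theorem consec (htri : G.CliqueFree 3) {w : ZMod 5 → V} (hw : ∀ i, G.Adj (w i) (w (i + 1)))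
    {j k : ZMod 5} (h : G.Adj (w j) (w k)) : k = j + 1 ∨ k = j + 4 := by
  have h1 : k ≠ j := by
    rintro rfl
    exact G.loopless.irrefl _ h
  have h2 : k ≠ j + 2 := by
    rintro rfl
    apply htri {w j, w (j + 1), w (j + 2)}
    rw [SimpleGraph.is3Clique_triple_iff]
    refine ⟨hw j, h, ?_⟩
    have h3 := hw (j + 1)
    rwa [show j + 1 + 1 = j + 2 by ring] at h3
  have h3 : k ≠ j + 3 := by
    rintro rfl
    apply htri {w (j + 3), w (j + 4), w j}
    rw [SimpleGraph.is3Clique_triple_iff]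
    refine ⟨?_, h.symm, ?_⟩
    · have h3 := hw (j + 3)
      rwa [show j + 3 + 1 = j + 4 by ring] at h3
    · have h3 := hw (j + 4)
      rwa [show j + 4 + 1 = j by
        have h5 : (5 : ZMod 5) = 0 := rfl
        linear_combination h5] at h3
  have h4 : ∀ x : ZMod 5, x ≠ 0 → x ≠ 2 → x ≠ 3 → x = 1 ∨ x = 4 := by decide
  rcases h4 (k - j) (fun h5 => h1 (sub_eq_zero.1 h5)) (fun h5 => h2 (by rw [← h5]; ring))
    (fun h5 => h3 (by rw [← h5]; ring)) with h5 | h5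
  · left
    rw [← h5]
    ring
  · right
    rw [← h5]
    ring

end Quad5A

open Quad5A in
theorem tQuad5 (hMO : S_MinOuter) (hFL : S_FaceLen) : S_Quad5 := by
  intro V _ _ G _ M o L P g hm h5
  obtain ⟨-, -, -, hout⟩ := hMO V G M o L P g hm
  rw [h5] at hout
  obtain ⟨w, hBd, hP⟩ := hout
  have hM := hm.plane
  by_contra hcon
  push Not at hcon
  obtain ⟨hlong, hxy⟩ := hcon
  have hmemP : ∀ i, w i ∈ P := fun i => (hP _).2 ⟨i, rfl⟩
  have hbd : ∀ i, fc M (Bas.bdart hBd.2.1 i) ≠ o ∧ fc M (Bas.bdart hBd.2.1 i).symm = o := by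
    intro i
    have h1 := Bas.mem_bd.1 (Bas.bdart_mem hBd i)
    constructor
    · intro h2
      rw [h2] at h1
      simp at h1
    · by_contra h2
      apply h1.2
      simp [h2]
  have hroot : ∀ i, RootF M Pᶜ (fc M (Bas.bdart hBd.2.1 i)) := by
    intro i
    refine ⟨w i, ?_, Bas.bdart hBd.2.1 i, rfl, rfl⟩
    simp [hmemP i]
  have hlen : ∀ i, len M (fc M (Bas.bdart hBd.2.1 i)) = 4 := by
    intro i
    have h1 := hlong _ (hbd i).1 (hroot i)
    have h2 := hFL V G M hM hm.conn hm.tri ⟨univ \ {o}, _, Bas.bdart_mem hBd i⟩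
      (fc M (Bas.bdart hBd.2.1 i))
    omega
  -- the four darts of a face
  have hφ4 : ∀ i, M.φ (M.φ (M.φ (M.φ (Bas.bdart hBd.2.1 i)))) = Bas.bdart hBd.2.1 i :=
    fun i => four hM _ (hlen i)
  have e1 : ∀ i, (M.φ (Bas.bdart hBd.2.1 i)).fst = w (i + 1) := fun i => Bas.phi_fst hM _
  have e3 : ∀ i, (M.φ (M.φ (M.φ (Bas.bdart hBd.2.1 i)))).snd = w i := by
    intro i
    rw [← Bas.phi_fst hM, hφ4]
    rfl
  have e2 : ∀ i, (M.φ (M.φ (Bas.bdart hBd.2.1 i))).fst =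
      (M.φ (Bas.bdart hBd.2.1 i)).snd := fun i => Bas.phi_fst hM _
  have e4 : ∀ i, (M.φ (M.φ (M.φ (Bas.bdart hBd.2.1 i)))).fst =
      (M.φ (M.φ (Bas.bdart hBd.2.1 i))).snd := fun i => Bas.phi_fst hM _
  -- F1
  have F1 : ∀ i, (M.φ (Bas.bdart hBd.2.1 i)).snd ≠ w i := by
    intro i h
    have h1 : M.φ (Bas.bdart hBd.2.1 i) = (Bas.bdart hBd.2.1 i).symm :=
      dart_eq (e1 i) h
    have h2 := Bas.fc_phi (M := M) (Bas.bdart hBd.2.1 i)
    rw [h1] at h2
    exact (hbd i).1 (h2.symm.trans (hbd i).2)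
  have F2 : ∀ i, (M.φ (M.φ (M.φ (Bas.bdart hBd.2.1 i)))).fst ≠ w (i + 1) := by
    intro i h
    have h1 : M.φ (M.φ (M.φ (Bas.bdart hBd.2.1 i))) = (Bas.bdart hBd.2.1 i).symm :=
      dart_eq h (e3 i)
    have h2 : fc M (M.φ (M.φ (M.φ (Bas.bdart hBd.2.1 i)))) = fc M (Bas.bdart hBd.2.1 i) := by
      rw [Bas.fc_phi, Bas.fc_phi, Bas.fc_phi]
    rw [h1] at h2
    exact (hbd i).1 (h2.symm.trans (hbd i).2)
  have hA : ∀ i, (M.φ (Bas.bdart hBd.2.1 i)).snd ∈ P →
      (M.φ (Bas.bdart hBd.2.1 i)).snd = w (i + 2) := by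
    intro i h
    obtain ⟨k, hk⟩ := (hP _).1 h
    have hadj := (M.φ (Bas.bdart hBd.2.1 i)).adj
    rw [← hk, e1] at hadj
    rcases consec hm.tri hBd.2.1 hadj with h1 | h1
    · rw [← hk, h1]
      congr 1
      ring
    · exfalso
      apply F1 i
      rw [← hk, h1]
      congr 1
      have h5 : (5 : ZMod 5) = 0 := rfl
      linear_combination h5
  have hB : ∀ i, (M.φ (M.φ (M.φ (Bas.bdart hBd.2.1 i)))).fst ∈ P →
      (M.φ (M.φ (M.φ (Bas.bdart hBd.2.1 i)))).fst = w (i + 4) := by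
    intro i h
    obtain ⟨k, hk⟩ := (hP _).1 h
    have hadj := (M.φ (M.φ (M.φ (Bas.bdart hBd.2.1 i)))).adj.symm
    rw [← hk, e3] at hadj
    rcases consec hm.tri hBd.2.1 hadj with h1 | h1
    · exfalso
      apply F2 i
      rw [← hk, h1]
    · rw [← hk, h1]
  have hAB : ∀ i, (M.φ (Bas.bdart hBd.2.1 i)).snd = w (i + 2) →
      (M.φ (M.φ (M.φ (Bas.bdart hBd.2.1 i)))).fst ≠ w (i + 4) := by
    intro i h1 h2
    have hadj := (M.φ (M.φ (Bas.bdart hBd.2.1 i))).adj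
    rw [e2, h1, ← e4, h2] at hadj
    rcases consec hm.tri hBd.2.1 hadj with h3 | h3
    · have h4 : (4 : ZMod 5) = 3 := by linear_combination h3
      exact absurd h4 (by decide)
    · have h4 : (4 : ZMod 5) = 6 := by linear_combination h3
      exact absurd h4 (by decide)
  have hor : ∀ i, (M.φ (Bas.bdart hBd.2.1 i)).snd = w (i + 2) ∨
      (M.φ (M.φ (M.φ (Bas.bdart hBd.2.1 i)))).fst = w (i + 4) := by
    intro i
    by_contra hno
    push Not at hno
    have ha : (M.φ (Bas.bdart hBd.2.1 i)).snd ∉ P := fun h => hno.1 (hA i h)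
    have hb : (M.φ (M.φ (M.φ (Bas.bdart hBd.2.1 i)))).fst ∉ P := fun h => hno.2 (hB i h)
    refine hxy _ _ hb ha ?_ ⟨w i, hmemP i, ?_⟩ ⟨w (i + 1), hmemP _, ?_⟩
      ⟨_, hroot i, ⟨_, rfl, ?_⟩⟩ _ (hroot i) ⟨_, e2 i, ?_⟩
    · rw [e4, ← e2]
      exact (M.φ (M.φ (Bas.bdart hBd.2.1 i))).fst_ne_snd.symm
    · have hadj := (M.φ (M.φ (M.φ (Bas.bdart hBd.2.1 i)))).adj
      rwa [e3] at hadj
    · have hadj := (M.φ (Bas.bdart hBd.2.1 i)).adj
      rw [e1] at hadj
      exact hadj.symm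
    · rw [Bas.fc_phi, Bas.fc_phi, Bas.fc_phi]
    · rw [Bas.fc_phi, Bas.fc_phi]
  have hαβ : ∀ i, (M.φ (Bas.bdart hBd.2.1 i)).snd = w (i + 2) ↔
      (M.φ (M.φ (M.φ (Bas.bdart hBd.2.1 (i + 1))))).fst = w (i + 1 + 4) := by
    intro i
    have hi : i + 1 + 4 = i := by
      have h5 : (5 : ZMod 5) = 0 := rfl
      linear_combination h5
    have hi2 : i + 1 + 1 = i + 2 := by ring
    rw [hi]
    constructor
    · intro h
      have h1 : M.φ (Bas.bdart hBd.2.1 i) = Bas.bdart hBd.2.1 (i + 1) := by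
        apply dart_eq (e1 i)
        rw [h, ← hi2]
        rfl
      rw [← h1, hφ4]
      rfl
    · intro h
      have h1 : M.φ (M.φ (M.φ (Bas.bdart hBd.2.1 (i + 1)))) = Bas.bdart hBd.2.1 i :=
        dart_eq h (e3 (i + 1))
      rw [← h1, hφ4, ← hi2]
      rfl
  have hfin : ∀ i, (M.φ (Bas.bdart hBd.2.1 i)).snd = w (i + 2) ↔
      ¬ (M.φ (Bas.bdart hBd.2.1 (i + 1))).snd = w (i + 1 + 2) := by
    intro i
    rw [hαβ i]
    constructor
    · intro h1 h2
      exact hAB _ h2 h1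
    · intro h1
      exact (hor (i + 1)).resolve_left h1
  have g0 := hfin 0
  have g1 := hfin 1
  have g2 := hfin 2
  have g3 := hfin 3
  have g4 := hfin 4
  rw [show (0 : ZMod 5) + 1 = 1 from rfl] at g0
  rw [show (1 : ZMod 5) + 1 = 2 from rfl] at g1
  rw [show (2 : ZMod 5) + 1 = 3 from rfl] at g2
  rw [show (3 : ZMod 5) + 1 = 4 from rfl] at g3
  rw [show (4 : ZMod 5) + 1 = 0 from rfl] at g4
  tauto

end C7
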