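import Pool.Agent.Lib.MP_86b854_co.Lv.Spec

set_option autoImplicit false

/-!
# MP_86b854_co : the region formula for an induced subgraph
-/

namespace C7

open PLM T72 Finset Equiv

theorem tRegU (hE : S_EulerSub) (hR : S_Regs) : S_RegU := by
  classical
  intro V _ _ G _ M hM hG hne U
  have hH : ∀ d ∈ dIn G U, d.symm ∈ dIn G U := by
    intro d hd
    rw [dIn, mem_filter] at hd ⊢
    exact ⟨mem_univ _, hd.2.2, hd.2.1⟩
  obtain ⟨h1, h2, -, h4⟩ := hR V G M hM _ hH
  have h5 := hE V G M hM hG hne _ hH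
  have h6 : ∑ R ∈ regs M (dIn G U), lenR M (dIn G U) R = (dIn G U).card := by
    have h7 : (dIn G U) = (regs M (dIn G U)).biUnion
        fun R => (dIn G U).filter fun d => fc M d ∈ R := by
      ext d
      rw [mem_biUnion]
      constructor
      · intro hd
        obtain ⟨R, hR1, hR2⟩ := h1 (fc M d)
        exact ⟨R, hR1, mem_filter.2 ⟨hd, hR2⟩⟩
      · rintro ⟨R, -, hd⟩
        exact (mem_filter.1 hd).1
    have h8 := card_biUnion (s := regs M (dIn G U))
      (t := fun R => (dIn G U).filter fun d => fc M d ∈ R) (by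
        intro R hR1 R' hR2 hne
        refine disjoint_left.2 fun d hd hd' => hne ?_
        exact h2 R hR1 R' hR2 (fc M d) (mem_filter.1 hd).2 (mem_filter.1 hd').2)
    rw [← h7] at h8
    exact h8.symm
  have h9 : ∑ R ∈ regs M (dIn G U), ((lenR M (dIn G U) R : ℤ) - 2) =
      ((dIn G U).card : ℤ) - 2 * (ncls M (dIn G U) : ℤ) := by
    rw [sum_sub_distrib, sum_const, h4, ← h6, Nat.cast_sum, nsmul_eq_mul, mul_comm]
  rw [h9, kap]
  have h10 : (2 * ncls M (dIn G U) + 2 * Fintype.card V : ℤ) =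
      (dIn G U).card + 2 * ncmp (dIn G U) + 2 := by exact_mod_cast h5
  linarith

end C7
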