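import Pool.Agent.Lib.MP_86b854_co.Lv.Spec

set_option autoImplicit false

/-! # MP_86b854_co, levels: the regions are a partition of the faces -/

namespace C7

open PLM T72 Finset Equiv

namespace RegsA

variable {V : Type} [Fintype V] [DecidableEq V] {G : SimpleGraph V} [DecidableRel G.Adj]

theorem mem_regs (M : CMap G.Dart V) (H : Finset G.Dart) (R : Finset (Fc M)) :
    R ∈ regs M H ↔
      R.Nonempty ∧ Clo M H R ∧ ∀ R' ⊆ R, R'.Nonempty → Clo M H R' → R' = R := by
  simp only [regs, Finset.mem_filter, Finset.mem_univ, true_and]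

open Classical in
/-- the smallest closed set containing a face -/
noncomputable def rg (M : CMap G.Dart V) (H : Finset G.Dart) (f : Fc M) : Finset (Fc M) :=
  univ.filter fun g => ∀ C : Finset (Fc M), Clo M H C → f ∈ C → g ∈ C

theorem mem_rg (M : CMap G.Dart V) (H : Finset G.Dart) (f g : Fc M) :
    g ∈ rg M H f ↔ ∀ C : Finset (Fc M), Clo M H C → f ∈ C → g ∈ C := by
  simp only [rg, Finset.mem_filter, Finset.mem_univ, true_and]

theorem clo_rg (M : CMap G.Dart V) (H : Finset G.Dart) (f : Fc M) : Clo M H (rg M H f) := by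
  intro d hd
  rw [mem_rg, mem_rg]
  constructor
  · intro h C hC hf
    exact (hC d hd).1 (h C hC hf)
  · intro h C hC hf
    exact (hC d hd).2 (h C hC hf)

theorem self_rg (M : CMap G.Dart V) (H : Finset G.Dart) (f : Fc M) : f ∈ rg M H f := by
  rw [mem_rg]
  exact fun C _ hf => hf

theorem rg_sub (M : CMap G.Dart V) (H : Finset G.Dart) (f : Fc M) {C : Finset (Fc M)}
    (hC : Clo M H C) (hf : f ∈ C) : rg M H f ⊆ C := by
  intro g hg
  rw [mem_rg] at hg
  exact hg C hC hf

theorem clo_sdiff {M : CMap G.Dart V} {H : Finset G.Dart} {C C' : Finset (Fc M)}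
    (hC : Clo M H C) (hC' : Clo M H C') : Clo M H (C \ C') := by
  intro d hd
  rw [Finset.mem_sdiff, Finset.mem_sdiff, hC d hd, hC' d hd]

theorem rg_mem (M : CMap G.Dart V) (H : Finset G.Dart) (f : Fc M) : rg M H f ∈ regs M H := by
  rw [mem_regs]
  refine ⟨⟨f, self_rg M H f⟩, clo_rg M H f, ?_⟩
  intro R' hsub hne hclo
  by_cases hf : f ∈ R'
  · exact Finset.Subset.antisymm hsub (rg_sub M H f hclo hf)
  · exfalso
    have h1 : rg M H f ⊆ rg M H f \ R' :=
      rg_sub M H f (clo_sdiff (clo_rg M H f) hclo)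
        (by rw [Finset.mem_sdiff]; exact ⟨self_rg M H f, hf⟩)
    obtain ⟨g, hg⟩ := hne
    have h2 := h1 (hsub hg)
    rw [Finset.mem_sdiff] at h2
    exact h2.2 hg

theorem eq_rg {M : CMap G.Dart V} {H : Finset G.Dart} {R : Finset (Fc M)} (hR : R ∈ regs M H)
    {f : Fc M} (hf : f ∈ R) : R = rg M H f := by
  rw [mem_regs] at hR
  exact (hR.2.2 _ (rg_sub M H f hR.2.1 hf) ⟨f, self_rg M H f⟩ (clo_rg M H f)).symm

/-- sets of darts closed under `φ` are unions of faces -/
theorem mem_iff_of_fc {M : CMap G.Dart V} {S : Set G.Dart} (hS : ∀ x, x ∈ S ↔ M.φ x ∈ S)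
    {d e : G.Dart} (h : fc M d = fc M e) : d ∈ S ↔ e ∈ S := by
  have h1 : M.φ.SameCycle d e := Quotient.exact h
  obtain ⟨n, hn⟩ := h1
  have key : ∀ (n : ℤ) (x : G.Dart), x ∈ S ↔ (M.φ ^ n) x ∈ S := by
    intro n
    induction n using Int.induction_on with
    | zero => intro x; rw [zpow_zero]; rfl
    | succ n ih =>
      intro x
      rw [zpow_add_one, Perm.mul_apply, ← ih (M.φ x)]
      exact hS x
    | pred n ih =>
      intro x
      rw [zpow_sub_one, Perm.mul_apply, ← ih (M.φ⁻¹ x), hS (M.φ⁻¹ x)]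
      simp
  rw [key n d, hn]

/-- classes and regions -/
theorem cls_iff (M : CMap G.Dart V) (H : Finset G.Dart) (d e : G.Dart) :
    (clsS M H).r d e ↔ rg M H (fc M d) = rg M H (fc M e) := by
  classical
  constructor
  · intro h
    have h1 := h {x | fc M x ∈ rg M H (fc M d)} (fun x => by
      have hx : fc M x = fc M (M.φ x) :=
        Quotient.sound (show M.φ.SameCycle x (M.φ x) from ⟨1, by rw [zpow_one]⟩)
      rw [Set.mem_setOf_eq, Set.mem_setOf_eq, hx]) (fun x hx => clo_rg M H (fc M d) x hx)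
    have h2 : fc M e ∈ rg M H (fc M d) := h1.1 (self_rg M H (fc M d))
    exact eq_rg (rg_mem M H (fc M d)) h2
  · intro h S hS hS'
    have h3 : ∀ x : G.Dart, fc M x ∈ (univ.filter fun f : Fc M => ∀ y, fc M y = f → y ∈ S) ↔
        x ∈ S := by
      intro x
      rw [Finset.mem_filter]
      constructor
      · intro h
        exact h.2 x rfl
      · intro hx
        exact ⟨Finset.mem_univ _, fun y hy => (mem_iff_of_fc hS hy).2 hx⟩
    have hclo : Clo M H (univ.filter fun f : Fc M => ∀ y, fc M y = f → y ∈ S) := by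
      intro x hx
      rw [h3, h3]
      exact hS' x hx
    rw [← h3 d, ← h3 e]
    constructor
    · intro hd
      refine rg_sub M H (fc M d) hclo hd ?_
      rw [h]
      exact self_rg M H (fc M e)
    · intro he
      refine rg_sub M H (fc M e) hclo he ?_
      rw [← h]
      exact self_rg M H (fc M d)

theorem fc_surj (M : CMap G.Dart V) (f : Fc M) : ∃ d, fc M d = f := Quotient.exists_rep f

theorem card_regs (M : CMap G.Dart V) (H : Finset G.Dart) : (regs M H).card = ncls M H := by
  classical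
  have h1 : Nat.card {R // R ∈ regs M H} = (regs M H).card := by
    rw [Nat.card_eq_fintype_card, Fintype.card_coe]
  rw [← h1]
  unfold ncls
  symm
  refine Nat.card_congr (Equiv.ofBijective (Quotient.lift
    (fun d => (⟨rg M H (fc M d), rg_mem M H (fc M d)⟩ : {R // R ∈ regs M H})) ?_) ⟨?_, ?_⟩)
  · intro d e h
    exact Subtype.ext ((cls_iff M H d e).1 h)
  · intro a b
    refine Quotient.inductionOn₂ a b fun d e h => ?_
    exact Quotient.sound ((cls_iff M H d e).2 (Subtype.ext_iff.1 h))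
  · rintro ⟨R, hR⟩
    obtain ⟨f, hf⟩ := ((mem_regs M H R).1 hR).1
    obtain ⟨d, hd⟩ := fc_surj M f
    refine ⟨Quotient.mk _ d, ?_⟩
    refine Subtype.ext ?_
    change rg M H (fc M d) = R
    rw [hd]
    exact (eq_rg hR hf).symm

end RegsA

open RegsA in
theorem tRegs : S_Regs := by
  intro V _ _ G _ M _ H _
  refine ⟨fun f => ⟨rg M H f, rg_mem M H f, self_rg M H f⟩, ?_, ?_, card_regs M H⟩
  · intro R hR R' hR' f hf hf'
    rw [eq_rg hR hf, eq_rg hR' hf']
  · intro R hR C hC
    by_cases h : Disjoint R C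
    · exact Or.inr h
    · refine Or.inl ?_
      rw [Finset.not_disjoint_iff] at h
      obtain ⟨f, hf, hfC⟩ := h
      rw [eq_rg hR hf]
      exact rg_sub M H f hC hfC

end C7
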