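import Pool.Agent.Lib.MP_86b854_co.Lv.Basic

set_option autoImplicit false

/-!
# MP_86b854_co : the root faces are in one region
-/

namespace C7

open PLM T72 Finset Equiv

theorem tRoot : S_Root := by
  intro V _ _ G _ M hM X hX R hR f g hf hg
  obtain ⟨u, hu, du, hdu, rfl⟩ := hf
  obtain ⟨v, hv, dv, hdv, rfl⟩ := hg
  have hc : ∀ x, x ∉ X → ∀ d e : G.Dart, d.fst = x → e.fst = x → (fc M d ∈ R ↔ fc M e ∈ R) := by
    intro x hx d e hd he
    refine corner_iff hM (fun d hd => hR d ?_) hd he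
    intro h
    rw [mem_dIn, hd] at h
    exact hx h.1
  let A : Set V := {x | ∃ d : G.Dart, d.fst = x ∧ fc M d ∈ R}
  have hA : ∀ x, x ∉ X → ∀ d : G.Dart, d.fst = x → (x ∈ A ↔ fc M d ∈ R) := by
    intro x hx d hd
    constructor
    · rintro ⟨e, he, heR⟩
      exact (hc x hx e d he hd).1 heR
    · exact fun h => ⟨d, hd, h⟩
  have h1 := hX A (fun d h1 h2 => by
    rw [hA _ h1 d rfl, hA _ h2 (M.φ d) (fst_phi hM d), fc_phi]) u v hu hv
  rw [hA u hu du hdu, hA v hv dv hdv] at h1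
  exact h1

end C7
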