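import Pool.Agent.Lib.MP_86b854_co.Lv.Basic

set_option autoImplicit false
set_option linter.unusedSectionVars false

/-!
# MP_86b854_co : the value of a child without the root
-/

namespace C7

open PLM T72 Finset Equiv

namespace ValL

section Lev

variable {N : Type} [Fintype N] [DecidableEq N] {I : SimpleGraph N} {pi : N → ℤ}

theorem mem_lc {i : ℤ} {x y : N} : y ∈ lc I pi i x ↔
    Relation.ReflTransGen (fun a b => I.Adj a b ∧ pi a ≤ i ∧ pi b ≤ i) x y := by
  simp [lc]

theorem lc_self (i : ℤ) (x : N) : x ∈ lc I pi i x := mem_lc.2 Relation.ReflTransGen.refl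

theorem rt_symm {i : ℤ} {x y : N}
    (h : Relation.ReflTransGen (fun a b => I.Adj a b ∧ pi a ≤ i ∧ pi b ≤ i) x y) :
    Relation.ReflTransGen (fun a b => I.Adj a b ∧ pi a ≤ i ∧ pi b ≤ i) y x := by
  induction h with
  | refl => exact Relation.ReflTransGen.refl
  | tail _ h1 ih => exact Relation.ReflTransGen.head ⟨h1.1.symm, h1.2.2, h1.2.1⟩ ih

theorem lc_eq {i : ℤ} {x y : N} (h : y ∈ lc I pi i x) : lc I pi i y = lc I pi i x := by
  have h1 := mem_lc.1 h
  ext z
  rw [mem_lc, mem_lc]
  exact ⟨fun h2 => h1.trans h2, fun h2 => (rt_symm h1).trans h2⟩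

theorem lc_le {i : ℤ} {x : N} (hx : pi x ≤ i) {y : N} (h : y ∈ lc I pi i x) : pi y ≤ i := by
  have h1 := mem_lc.1 h
  induction h1 with
  | refl => exact hx
  | tail _ h1 _ => exact h1.2.2

theorem lc_adj {i : ℤ} {x : N} (hx : pi x ≤ i) {y z : N} (h : y ∈ lc I pi i x)
    (hyz : I.Adj y z) (hz : pi z ≤ i) : z ∈ lc I pi i x :=
  mem_lc.2 ((mem_lc.1 h).tail ⟨hyz, lc_le hx h, hz⟩)

theorem tc_self (x : N) : x ∈ tc I pi x := lc_self _ _

end Lev

variable {V : Type} [Fintype V] [DecidableEq V] {G : SimpleGraph V} [DecidableRel G.Adj]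
  {M : CMap G.Dart V} {X : Finset V} {pi : Nd M X → ℤ}

theorem dart_at (hC : Ctx M X pi) (hX : X.Nonempty) (v : V) : ∃ d : G.Dart, d.fst = v := by
  obtain ⟨v0, h0⟩ := hC.ne
  obtain ⟨v1, h1⟩ := hX
  by_cases h : v = v0
  · subst h
    exact exists_dart_at hC.conn (u := v) (v := v1) (fun h2 => h0 (h2 ▸ h1))
  · exact exists_dart_at hC.conn h

theorem exists_root (hC : Ctx M X pi) (hX : X.Nonempty) : ∃ f, RootF M X f := by
  obtain ⟨v0, h0⟩ := hC.ne
  obtain ⟨d, hd⟩ := dart_at hC hX v0
  exact ⟨fc M d, v0, h0, d, hd, rfl⟩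

theorem not_root_of {D : Finset (Nd M X)} (hD : rt M X ∉ D) {f : Fc M} (hf : f ∈ fD M X D) :
    ¬ RootF M X f := by
  intro h
  rw [mem_fD, nf_of_root h] at hf
  exact hD hf

theorem fD_ne_univ (hC : Ctx M X pi) (hX : X.Nonempty) {D : Finset (Nd M X)} (hD : rt M X ∉ D) :
    fD M X D ≠ univ := by
  intro h
  obtain ⟨f, hf⟩ := exists_root hC hX
  exact not_root_of hD (f := f) (by rw [h]; exact mem_univ _) hf

theorem X_ne {K : Finset (Nd M X)} (hK : K ∈ KF M X pi) : X.Nonempty := by
  obtain ⟨v, hv, -⟩ := mem_KF.1 hK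
  exact ⟨v, hv⟩

/-- vertices inside of a region without root faces are in `X` -/
theorem inV_X (hC : Ctx M X pi) (hX : X.Nonempty) {R : Finset (Fc M)}
    (hR : ∀ f ∈ R, ¬ RootF M X f) {v : V} (hv : v ∈ inV M R) : v ∈ X := by
  obtain ⟨d, hd⟩ := dart_at hC hX v
  have h1 := mem_inV.1 hv d hd
  exact not_rootF_mem (hR _ h1) ⟨d, hd, rfl⟩

end ValL

open ValL in
/-- **ValD.** -/
theorem tValD (hChild : S_Child) (hOdd : S_Odd) (hTriv : S_Triv) (hLenR : S_LenR) (hOne : S_One)
    (hFL : S_FaceLen) : S_ValD := by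
  intro V _ _ G _ M X pi hC K hK D hD
  classical
  obtain ⟨hD1, hD2, hD3⟩ := mem_chK.1 hD
  have hX : X.Nonempty := X_ne hK
  obtain ⟨hreg, hin⟩ := hChild V G M X pi hC K hK D hD1 hD2
  obtain ⟨hne, hclo, -⟩ := mem_regs.1 hreg
  have hnr : ∀ f ∈ fD M X D, ¬ RootF M X f := fun f hf => not_root_of hD3 hf
  obtain ⟨hb, h4, hlen, hev, -⟩ := hLenR V G M hC.plane hC.conn hC.tri (HK M X pi K)
    (fun d hd => dIn_symm hd) (fD M X D) hclo hne (fD_ne_univ hC hX hD3)
  have hodd : Odd (lenD M X pi K D) := (hOdd V G M X pi hC K hK).1 D hD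
  have hlen' : lenD M X pi K D = (bd M (fD M X D)).card +
      ((HK M X pi K).filter fun d => fc M d ∈ fD M X D ∧ fc M d.symm ∈ fD M X D).card := hlen
  set k := (bd M (fD M X D)).card with hk
  set b := ((HK M X pi K).filter fun d => fc M d ∈ fD M X D ∧ fc M d.symm ∈ fD M X D).card with hb'
  have hkodd : Odd k := by
    rw [hlen'] at hodd
    rcases Nat.even_or_odd k with h1 | h1
    · exact absurd (h1.add hev) (Nat.not_even_iff_odd.2 hodd)
    · exact h1
  have hk5 : 5 ≤ k := by
    obtain ⟨r, hr⟩ := hkodd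
    omega
  have hlen4 : ∀ f, 4 ≤ len M f := by
    refine hFL V G M hC.plane hC.conn hC.tri ⟨fD M X D, ?_⟩
    rw [← card_pos]
    omega
  have hl5 : 5 ≤ lenD M X pi K D := by omega
  refine ⟨hl5, ?_⟩
  have hS : (0 : ℤ) ≤ ∑ f ∈ FD M X pi D, ((len M f : ℤ) - 4) := by
    refine sum_nonneg fun f _ => ?_
    have := hlen4 f
    omega
  by_cases hv : ∀ v ∈ X, nv M X v ∉ D
  · -- a single face
    obtain ⟨f, -, -, -, hf4, hf5, -⟩ := hTriv V G M X pi hC K hK D hD hv
    have h0 : (0 : ℤ) ≤ val M X pi K D := by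
      unfold val
      rw [hf4, sum_singleton]
      omega
    exact ⟨by omega, fun h => absurd h (by omega)⟩
  · push Not at hv
    obtain ⟨v0, hv0, hv0D⟩ := hv
    have hv0in : v0 ∈ inV M (fD M X D) := hin v0 hv0D hv0
    have hk7 : 7 ≤ k := by
      by_contra hlt
      have hk5' : k = 5 := by
        obtain ⟨r, hr⟩ := hkodd
        omega
      have h1 := hC.nosep (fD M X D) hne hnr (by omega)
      obtain ⟨f, hf⟩ := card_eq_one.1 h1
      have h2 := hOne V G M hC.plane hC.conn hC.tri f
        (by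
          rw [← hf, ← card_pos]
          omega)
        (by
          rw [← hf]
          omega)
        (by
          intro v hv
          exact hC.deg v (inV_X hC hX (R := {f}) (by rw [← hf]; exact hnr) hv))
      rw [hf, h2.1] at hv0in
      exact notMem_empty _ hv0in
    have h9 : lenD M X pi K D = 7 ∨ 9 ≤ lenD M X pi K D := by
      obtain ⟨r, hr⟩ := hodd
      omega
    rcases h9 with h7 | h9
    · have hb0 : b = 0 := by omega
      have hval : val M X pi K D = -2 + 2 * iso M X pi K D +
          4 * ∑ f ∈ FD M X pi D, ((len M f : ℤ) - 4) +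
          2 * ((chD M X pi D).filter fun K' => ¬ Single M X pi K').card := by
        unfold val
        rw [h7]
        norm_num
      refine ⟨by omega, fun hneg => ?_⟩
      have hiso : iso M X pi K D = 0 := by omega
      have hsum : ∑ f ∈ FD M X pi D, ((len M f : ℤ) - 4) = 0 := by omega
      have hsg : ((chD M X pi D).filter fun K' => ¬ Single M X pi K').card = 0 := by omega
      -- no dart of `HK K` has both sides in the region
      have hnb : ∀ d ∈ HK M X pi K, ¬ (fc M d ∈ fD M X D ∧ fc M d.symm ∈ fD M X D) := by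
        intro d hd h1
        have h2 : d ∈ (HK M X pi K).filter fun d => fc M d ∈ fD M X D ∧ fc M d.symm ∈ fD M X D :=
          mem_filter.2 ⟨hd, h1⟩
        rw [card_eq_zero] at hb0
        rw [hb0] at h2
        exact notMem_empty _ h2
      constructor
      · omega
      · exact hb
      · exact ⟨v0, hv0, hv0D⟩
      · intro v hv
        have hvX : v ∈ X := inV_X hC hX hnr hv
        refine ⟨hvX, ?_⟩
        by_contra hvD
        obtain ⟨d, hd⟩ := dart_at hC hX v
        have hdR : fc M d ∈ fD M X D := mem_inV.1 hv d hd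
        have hadj : (IG M X).Adj (nf M X (fc M d)) (nv M X v) :=
          (adj_of_Inc hvX (f := fc M d) ⟨d, hd, rfl⟩).symm
        have hfD : nf M X (fc M d) ∈ D := mem_fD.1 hdR
        obtain ⟨hsub, x, y, hx, hy, hxy⟩ := hD2
        -- levels
        have hle : pi (nf M X (fc M d)) ≤ pi x := by
          rw [← hx] at hfD
          exact lc_le le_rfl hfD
        have hst := hC.lev.step _ _ hadj
        have hnle : ¬ pi (nv M X v) ≤ pi x := by
          intro h1
          apply hvD
          rw [← hx] at hfD ⊢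
          exact lc_adj le_rfl hfD hadj h1
        have hpv : pi (nv M X v) = pi y := by omega
        have hvK : nv M X v ∈ K := by
          have h1 := hsub hfD
          rw [← hy] at h1 ⊢
          exact lc_adj le_rfl h1 hadj (by omega)
        have htc : tc (IG M X) pi (nv M X v) = K := by
          rw [← hy] at hvK ⊢
          unfold tc at hvK ⊢
          rw [hpv]
          exact lc_eq hvK
        have hvVK : v ∈ VK M X pi K := mem_VK.2 ⟨hvX, htc⟩
        have hmem : v ∈ (VK M X pi K).filter fun v => v ∈ inV M (fD M X D) ∧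
            ∀ u ∈ VK M X pi K, ¬ G.Adj v u := by
          refine mem_filter.2 ⟨hvVK, hv, fun u hu hadj' => ?_⟩
          have hdart : (⟨(v, u), hadj'⟩ : G.Dart) ∈ HK M X pi K := mem_dIn.2 ⟨hvVK, hu⟩
          refine hnb _ hdart ⟨mem_inV.1 hv _ rfl, ?_⟩
          rw [← fc_sigma hC.plane]
          exact mem_inV.1 hv _ (fst_sigma hC.plane _)
        have hpos : 0 < iso M X pi K D := by
          unfold iso
          refine card_pos.2 ⟨v, ?_⟩
          convert hmem
        omega
      · intro f hf
        have h1 := (sum_eq_zero_iff_of_nonneg (fun f _ => by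
          have := hlen4 f
          omega)).1 hsum f hf
        omega
      · intro K' hK'
        by_contra h1
        have h2 : K' ∈ (chD M X pi D).filter fun K' => ¬ Single M X pi K' :=
          mem_filter.2 ⟨hK', h1⟩
        rw [card_eq_zero] at hsg
        rw [hsg] at h2
        exact notMem_empty _ h2
    · have h0 : (0 : ℤ) ≤ val M X pi K D := by
        unfold val
        omega
      exact ⟨by omega, fun h => absurd h (by omega)⟩

end C7
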