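import Pool.Agent.Lib.MP_86b854_co.Lv.Defs

set_option autoImplicit false

/-!
# MP_86b854_co : regions, incidence graph, levels, accounting (statements)

Every `def S_Foo : Prop` is one Lean task: write `Pool/Agent/Lib/MP_86b854_co/Lv/Foo.lean` containing
`theorem tFoo (hypotheses : S_...) : S_Foo` in the namespace `C7`; the allowed hypotheses are listed
in the docstring.  `Pool/Agent/Lib/MP_86b854_co/Lv/Basic.lean` has lemmas on `nv`, `nf`, `IG`, `lc`.

Standard facts: `M.φ d = M.σ d.symm`, `(M.φ d).fst = d.snd`, `fc M (M.σ d) = fc M d.symm`. All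
corners at a vertex are reached by `M.σ`. The faces of `d` and `d.symm` both contain `d.fst` and
`d.snd`.
-/

namespace C7

open PLM T72 Finset Equiv

/-! ### Regions -/

/-- **Regs.** The regions are a partition of the faces; their number is `ncls`.
PROOF. Closed sets are closed under intersection, complement, difference.  For a face `f` let `C f` be
the intersection of all closed sets containing `f`. It is a region: if `∅ ≠ R' ⊆ C f` is closed and
`f ∈ R'` then `C f ⊆ R'`; if `f ∉ R'` then `C f \ R'` is closed and contains `f`, so `R' = ∅`.  Two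
regions with a common face: their intersection is closed and nonempty, so equal to both. A region
`R` and a closed set `C`: `R ∩ C` is empty or `R`.  `ncls`: a set `S` of darts is closed under `φ` iff it
is `{d | fc M d ∈ F}` for a set `F` of faces, so two darts are in the same class iff no closed set of
faces separates their faces, iff the regions of their faces are equal; every face has a dart. -/
def S_Regs : Prop :=
  ∀ (V : Type) [Fintype V] [DecidableEq V] (G : SimpleGraph V) [DecidableRel G.Adj]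
    (M : CMap G.Dart V), PlaneMap M → ∀ H : Finset G.Dart, (∀ d ∈ H, d.symm ∈ H) →
      (∀ f, ∃ R ∈ regs M H, f ∈ R) ∧
      (∀ R ∈ regs M H, ∀ R' ∈ regs M H, ∀ f ∈ R, f ∈ R' → R = R') ∧
      (∀ R ∈ regs M H, ∀ C, Clo M H C → R ⊆ C ∨ Disjoint R C) ∧
      (regs M H).card = ncls M H

/-- **RegU.** Allowed: `S_EulerSub, S_Regs`. The region formula for the subgraph induced by `U`.
PROOF. `H = dIn G U` is symmetric. `∑ R, lenR R = H.card` (`S_Regs`: every dart of `H` has its face in
exactly one region); `S_EulerSub`. -/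
def S_RegU : Prop :=
  ∀ (V : Type) [Fintype V] [DecidableEq V] (G : SimpleGraph V) [DecidableRel G.Adj]
    (M : CMap G.Dart V), PlaneMap M → G.Connected → Nonempty G.Dart → ∀ U : Finset V,
      (2 * U.card : ℤ) =
        2 + 2 * kap G U + ∑ R ∈ regs M (dIn G U), ((lenR M (dIn G U) R : ℤ) - 2)

/-- **Kap.** Isolated vertices are components.
PROOF. In `cmpS (dIn G U)` the vertices outside of `U` and the vertices of `A` are classes of their own
(no dart of `dIn G U` starts or ends there), and the first vertex of a dart of `dIn G U` is in another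
class: `ncmp ≥ (|V| - |U|) + |A| + 1`. -/
def S_Kap : Prop :=
  ∀ (V : Type) [Fintype V] [DecidableEq V] (G : SimpleGraph V) [DecidableRel G.Adj]
    (U A : Finset V), A ⊆ U → (∀ a ∈ A, ∀ u ∈ U, ¬ G.Adj a u) → (dIn G U).Nonempty →
      (A.card : ℤ) + 1 ≤ kap G U

/-- **LenR.** Allowed: `S_ShortBd, S_Parity`. Length and boundary of a closed set of faces.
PROOF. `bd M R` is not empty: otherwise the set of the darts with face in `R` is closed under `φ` and
`symm`, hence under `σ`, so it is everything by connectedness (or empty). `bd M R ⊆ H`: `Clo`, and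
`H` is symmetric.  `4 ≤ (bd M R).card`: `S_ShortBd` if it is at most `7`.  The darts of `H` with face in
`R` are the boundary darts and the darts of `H` with both sides in `R` (`symm` is an involution without
fixed points on them).  The darts with face in `R` which are not in `H` have both sides in `R`, and
`symm` acts on them: `∑ len f = lenR + even`. -/
def S_LenR : Prop :=
  ∀ (V : Type) [Fintype V] [DecidableEq V] (G : SimpleGraph V) [DecidableRel G.Adj]
    (M : CMap G.Dart V), PlaneMap M → G.Connected → G.CliqueFree 3 → ∀ H : Finset G.Dart,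
      (∀ d ∈ H, d.symm ∈ H) → ∀ R : Finset (Fc M), Clo M H R → R.Nonempty → R ≠ univ →
      bd M R ⊆ H ∧ 4 ≤ (bd M R).card ∧
      lenR M H R =
        (bd M R).card + (H.filter fun d => fc M d ∈ R ∧ fc M d.symm ∈ R).card ∧
      Even (H.filter fun d => fc M d ∈ R ∧ fc M d.symm ∈ R).card ∧
      ∃ e : ℕ, ∑ f ∈ R, len M f = lenR M H R + 2 * e

/-- **One.** Allowed: `S_ShortBd, S_DiscEuler`. A single face with a short boundary has no vertices
inside.
PROOF. `k = (bd M R).card ≠ 0` (hypothesis). `S_ShortBd`: `Bd M R k w`, `k ≥ 4`; `S_DiscEuler` with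
`R = {f}`: `2 |inV M R| + 2 + k = len f + 2`.  The darts with both sides equal to `f` are `len f - k =
2 |inV M R|` darts, and all darts which start in `inV M R` are among them
(`fc M d.symm = fc M (M.σ d)`), at least `3 |inV M R|`. -/
def S_One : Prop :=
  ∀ (V : Type) [Fintype V] [DecidableEq V] (G : SimpleGraph V) [DecidableRel G.Adj]
    (M : CMap G.Dart V), PlaneMap M → G.Connected → G.CliqueFree 3 → ∀ f : Fc M,
      (bd M {f}).Nonempty → (bd M {f}).card ≤ 7 → (∀ v ∈ inV M {f}, 3 ≤ G.degree v) →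
      inV M {f} = ∅ ∧ len M f = (bd M {f}).card

/-! ### Root and incidence graph -/

/-- **Root.** If the complement of `X` is connected then the root faces are in one region.
PROOF. Let `R` be closed for `dIn G X`. For `v ∉ X` all corners at `v` have the same status: `e.fst = v`
gives `e ∉ dIn G X`, so `fc e ∈ R ↔ fc e.symm ∈ R`, and `fc M e.symm = fc M (M.σ e)`.  Let `A` be the set
of the vertices `v` with a corner in `R`.  For a dart `d` with both ends outside of `X`, `fc M d` is a
corner of both ends, so `d.fst ∈ A ↔ d.snd ∈ A`. Use the hypothesis for `A`. -/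
def S_Root : Prop :=
  ∀ (V : Type) [Fintype V] [DecidableEq V] (G : SimpleGraph V) [DecidableRel G.Adj]
    (M : CMap G.Dart V), PlaneMap M → ∀ X : Finset V,
      (∀ A : Set V, (∀ d : G.Dart, d.fst ∉ X → d.snd ∉ X → (d.fst ∈ A ↔ d.snd ∈ A)) →
        ∀ u v, u ∉ X → v ∉ X → (u ∈ A ↔ v ∈ A)) → RootConn M X

/-- **IncConn.** The incidence graph is connected.
PROOF. Everything is reachable from `rt M X`: `nv M X v` for a vertex `v ∈ X`: induction along a walk
of `G` to a vertex outside of `X`; for a dart `d = (a, b)` both `a`, `b` are on the face `fc M d`, and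
if `a ∉ X` or `b ∉ X` then `nf M X (fc M d) = rt M X`.  The node of a face `f` which does not touch `Xᶜ`
is adjacent to `nv M X d.fst` for a dart `d` of `f`. -/
def S_IncConn : Prop :=
  ∀ (V : Type) [Fintype V] [DecidableEq V] (G : SimpleGraph V) [DecidableRel G.Adj]
    (M : CMap G.Dart V), PlaneMap M → G.Connected → ∀ X : Finset V, (∃ v, v ∉ X) →
      (IG M X).Connected

/-- **Oct.** The vertices on a `T`-join are an odd cycle transversal.
PROOF. Let `S = X \ Wj M X J`. `G.induce S` has no odd closed walk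
(`SimpleGraph.two_colorable_iff_forall_loop_even`; the colouring of the induced graph gives `col`).
Let `w` be a closed walk of `G` with all vertices in `S`, `c d` the number of times that the dart `d`
is in `w.darts`, in `ZMod 2`, and `z d = c d + c d.symm`. `z` is a cycle (`M.Cyc`): at every vertex the
number of the darts of `w` which start there is the number of those which end there.  `z d = 0`
unless both ends of `d` are in `S`.  `M.Planar` gives `h` with `z d = h d + h d.symm`, constant on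
faces.  `{f | h f = 1}` is closed for `dIn G X`, so by `RootConn` `h` has the same value on all faces
touching `Xᶜ`; adding a constant we may assume that it is `0` there.
(1) `∑ d, h d = ∑ d, c d = length w`: `q d = h d + c d` satisfies `q d.symm = q d`, so the sum over all
darts is `0` (`Finset.sum_involution`).
(2) `∑ d, h d = ∑ f, len f * h f`, and for `f` not touching `Xᶜ` `len f` has the parity of the number of
edges of `J` at `nf M X f`.  So it is the sum over `e ∈ J` of `h` of the face of `e` (`0` for the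
root).  Sort the edges `e = {nv v, nf f}` by `v`: all faces around `v ∈ Wj` have the same value `h_v`
(edges at `v` have an end outside of `S`, so `z = 0`; `h (σ d) = h d.symm = h d`), which is `0` if `v` is
on a face touching `Xᶜ`. So the sum is `∑ v, h_v * (number of edges of J at nv v) = 0` (even). -/
def S_Oct : Prop :=
  ∀ (V : Type) [Fintype V] [DecidableEq V] (G : SimpleGraph V) [DecidableRel G.Adj]
    (M : CMap G.Dart V), PlaneMap M → ∀ X : Finset V, RootConn M X →
    ∀ J : Finset (Sym2 (Nd M X)), IsJ (IG M X) (Tn M X) J → BipOn G (X \ Wj M X J)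

/-- **JW.** Every vertex of `Wj` is on at least two edges of `J`.
PROOF. The number of edges of `J` at `nv M X v`, `v ∈ X`, is even (`nv v ∉ Tn`) and not `0` for
`v ∈ Wj`. Every edge of `J` joins `nv M X v`, `v ∈ X`, with the node of a face or the root: it
contains exactly one `nv M X v`. -/
def S_JW : Prop :=
  ∀ (V : Type) [Fintype V] [DecidableEq V] (G : SimpleGraph V) [DecidableRel G.Adj]
    (M : CMap G.Dart V) (X : Finset V) (J : Finset (Sym2 (Nd M X))),
    IsJ (IG M X) (Tn M X) J → 2 * (Wj M X J).card ≤ J.card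

/-! ### Level components -/

/-- **LC.** Level components of a connected graph.
PROOF. `Relation.ReflTransGen` for a symmetric relation; the relation for `i` is contained in the one
for `j ≥ i`. (6): a walk from `x` to the outside of `lc i x` has an edge `y z`, `y ∈ lc i x`,
`z ∉ lc i x`; `pi y ≤ i` (4), `pi z > i` (5), and `|pi y - pi z| = 1`. -/
def S_LC : Prop :=
  ∀ (N : Type) [Fintype N] [DecidableEq N] (I : SimpleGraph N) (pi : N → ℤ), I.Connected →
    (∀ x y, I.Adj x y → pi x = pi y + 1 ∨ pi y = pi x + 1) →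
    (∀ i x, x ∈ lc I pi i x) ∧
    (∀ i x y, y ∈ lc I pi i x → lc I pi i y = lc I pi i x) ∧
    (∀ i j x, i ≤ j → lc I pi i x ⊆ lc I pi j x) ∧
    (∀ i x, pi x ≤ i → ∀ y ∈ lc I pi i x, pi y ≤ i) ∧
    (∀ i x, pi x ≤ i → ∀ y ∈ lc I pi i x, ∀ z, I.Adj y z → pi z ≤ i → z ∈ lc I pi i x) ∧
    (∀ i x z, pi x ≤ i → z ∉ lc I pi i x → ∃ y ∈ lc I pi i x, pi y = i ∧ tc I pi y = lc I pi i x ∧
      ∃ u, I.Adj y u ∧ pi u = i + 1)

/-- **Fam.** Allowed: `S_LC, S_IncConn`. Vertex components and face components.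
PROOF. Parity: `IG M X` is connected and `pi` changes by one along edges, which join nodes with
different `nc`; `pi (rt M X) = 0`, `nc (rt M X) = false`.  The top level of a component is the maximum
of `pi` on it, so `tc x = tc y` implies `pi x = pi y`, so `nc x = nc y` ((1), (4)).  (2): `D = tc y`,
`y = nf f`; by `S_LC` (6) some `y' ∈ D` at the top level has a neighbour `u` at the level one higher,
`u` is a vertex node `nv v`, `v ∈ X`, and `K = tc u` contains `D`.  Unique: another `K' ⊇ D` of the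
same level is the same component. (3) is the same with the roles exchanged (`u` is the node of a
face, or the root, which is the node of a face: it is adjacent to a vertex node).  (5): `x ∈ K` of
level lower than the top level, `K ∋ x` connected: the component of `{pi ≤ i - 1}` containing `x` has a
top node at level `i - 1` (`S_LC` (6), the top nodes of `K` are not in it), which is the node of a
face. -/
def S_Fam : Prop :=
  ∀ (V : Type) [Fintype V] [DecidableEq V] (G : SimpleGraph V) [DecidableRel G.Adj]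
    (M : CMap G.Dart V) (X : Finset V) (pi : Nd M X → ℤ), Ctx M X pi →
      (∀ x, Even (pi x) ↔ nc M X x = false) ∧
      (∀ D ∈ DF M X pi, rt M X ∉ D → ∃! K, K ∈ KF M X pi ∧ Ch (IG M X) pi D K) ∧
      (∀ K ∈ KF M X pi, rt M X ∉ K → ∃! D, D ∈ DF M X pi ∧ Ch (IG M X) pi K D) ∧
      ((lcs (IG M X) pi (rt M X)).card = ((KF M X pi).filter fun K => rt M X ∉ K).card +
        ((DF M X pi).filter fun D => rt M X ∉ D).card) ∧
      (∀ K ∈ KF M X pi, ∀ x ∈ K, x ∉ (VK M X pi K).image (nv M X) →
        ∃ D ∈ DF M X pi, Ch (IG M X) pi D K ∧ x ∈ D) ∧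
      (∀ D ∈ DF M X pi, ∀ x ∈ D, tc (IG M X) pi x ≠ D →
        ∃ K ∈ KF M X pi, Ch (IG M X) pi K D ∧ x ∈ K) ∧
      (∀ K ∈ KF M X pi, ∀ D ∈ DF M X pi, ∀ D' ∈ DF M X pi, Ch (IG M X) pi D K →
        Ch (IG M X) pi D' K → ∀ x ∈ D, x ∈ D' → D = D')

/-- **Child.** Allowed: `S_LC, S_Fam`. The faces of a child of `K` form exactly one region.
PROOF. Let `i` be the level of `K`, `U = VK K`, `D` a component of `{pi ≤ i - 1}` in `K`. The nodes
`nv u`, `u ∈ X`, in `K` which are not in `D` and adjacent to `D` have level `i`, so `u ∈ U`; the nodes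
`nv u` in `D` have level `≤ i - 2` (parity), so `u ∉ U`.
Nonempty: `D = tc (nf f)`.
Closed: let `fc M d ∈ fD D` and `d ∉ dIn G U`, so an end `u` of `d` is not in `U`; `u` is on `fc d` and
on `fc d.symm`. If `u ∈ X` then `nv u` is adjacent to `nf (fc d) ∈ D`, so it is in `D` (it would be in
`U` otherwise), its level is `≤ i - 2`, so `nf (fc d.symm)` has level `≤ i - 1` and is in `D`.  If
`u ∉ X` then both faces are root faces: `nf = rt` for both.
Minimal: let `R' ⊆ fD D` be nonempty and closed for `dIn G U`, hence also for `dIn G X`. For every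
`x ∈ D` all faces `f` with `nf f = x` or (`x = nv u`, `Inc M u f`) have the same status: for the root by
`RootConn`, for `x = nv u` because `u ∉ U` (`fc e ∈ R' ↔ fc e.symm ∈ R'` for darts `e` at `u`, and
`fc e.symm = fc (M.σ e)`). Adjacent nodes have a common such face, and `D` is connected
(`Relation.ReflTransGen`), so all faces of `D` are in `R'`. -/
def S_Child : Prop :=
  ∀ (V : Type) [Fintype V] [DecidableEq V] (G : SimpleGraph V) [DecidableRel G.Adj]
    (M : CMap G.Dart V) (X : Finset V) (pi : Nd M X → ℤ), Ctx M X pi →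
    ∀ K ∈ KF M X pi, ∀ D ∈ DF M X pi, Ch (IG M X) pi D K →
      fD M X D ∈ regs M (HK M X pi K) ∧ ∀ v, nv M X v ∈ D → v ∈ X → v ∈ inV M (fD M X D)

/-- **Odd.** Allowed: `S_LC, S_Fam, S_Child, S_LenR`. Parities.
PROOF. (1) `T ∩ D` = the nodes `nf f`, `f ∈ fD D` with `len f` odd (the root is not in `D`; `nf` is
injective on the faces not touching `Xᶜ`), so `∑ (f ∈ fD D), len f` has the parity of `|T ∩ D|`, which
is odd (`Ctx.lev`, `D = tc (nf f)`); `S_LenR` (last part; `fD D ≠ univ` because the faces touching `Xᶜ` are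
not in it). (2) `T ∩ K` is the disjoint union of the `T ∩ D` over all children `D` (vertex nodes are not
in `T`; `S_Fam` (5), (7)), `|T ∩ K|` and all `|T ∩ D|` are odd. -/
def S_Odd : Prop :=
  ∀ (V : Type) [Fintype V] [DecidableEq V] (G : SimpleGraph V) [DecidableRel G.Adj]
    (M : CMap G.Dart V) (X : Finset V) (pi : Nd M X → ℤ), Ctx M X pi → ∀ K ∈ KF M X pi,
      (∀ D ∈ chK M X pi K, Odd (lenD M X pi K D)) ∧
      (rt M X ∉ K → Odd (chK M X pi K).card)

/-- **Triv.** Allowed: `S_LC, S_Fam, S_Child`. A child without vertices is a single face, and all its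
vertices are in `VK K`.
PROOF. Edges of `IG M X` join a vertex node with another node, so a component without vertex nodes is
a single node `nf f`, which is not the root. A vertex `v` of `f` is in `X`, `nv v` is adjacent to
`nf f`, not in `D`, so its level is the one of `K`, and it is in `K`.  So all darts of `f` are in `HK`,
`lenD = len f`; `FD = fD = {f}`. -/
def S_Triv : Prop :=
  ∀ (V : Type) [Fintype V] [DecidableEq V] (G : SimpleGraph V) [DecidableRel G.Adj]
    (M : CMap G.Dart V) (X : Finset V) (pi : Nd M X → ℤ), Ctx M X pi → ∀ K ∈ KF M X pi,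
    ∀ D ∈ chK M X pi K, (∀ v ∈ X, nv M X v ∉ D) →
      ∃ f, ¬ RootF M X f ∧ D = {nf M X f} ∧ fD M X D = {f} ∧ FD M X pi D = {f} ∧
        lenD M X pi K D = len M f ∧ ∀ v, Inc M v f → v ∈ VK M X pi K

/-- **Loc.** Allowed: `S_LC, S_Fam, S_Child, S_Odd, S_Triv, S_RegU, S_Regs, S_Kap, S_LenR, S_One,
S_ShortBd`. The local inequality at `K`.
PROOF. `U = VK K ≠ ∅`, `H = HK K`.  `fD` is injective on the children (they are disjoint and every one
has a face).  Let `Q` be the set of the regions which are not `fD D` for a child `D` without the root.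
`S_RegU`: `2 |U| = 2 + 2 kap + ∑ (D ∈ chK K), (lenD - 2) + ∑ (R ∈ Q), (lenR - 2)`, so
`rho K = 2 + 2 (kap - ∑ iso) + ∑ (R ∈ Q), (lenR - 2)`.
If there are at least two regions: `H ≠ ∅` and `lenR ≥ 4` for all of them (`S_LenR`), and
`∑ iso + 1 ≤ kap` by `S_Kap` (`A` = the vertices counted in the numbers `iso`; the sets for different
`D` are disjoint because a vertex has a corner, and the `fD D` are disjoint).
(1) The root is not in `K`: the number of children is odd, `≥ 1`, and `Q` contains the region of a face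
touching `Xᶜ`.  `∑ (R ∈ Q), lenR` is odd (`H.card` is even, the `lenD` are odd, their number is odd). With
`a = |Q| ≥ 1`, `∑ (R ∈ Q), (lenR - 2) ≥ 2 a + 1`. So `rho ≥ 2 + 2 + 3`.  If `rho < 9` then
`kap - ∑ iso = 1`, `a = 1`, `Q = {R}`, `lenR R = 5`, so `(bd M R).card = 5` (`≥ 4`, parity), and the
complement `R'` of `R` is the union of the `fD D`, has no faces touching `Xᶜ` and
`(bd M R').card = 5` (`symm`). `Ctx.nosep`: `R' = {f}`, so there is one child `D`, `fD D = {f}`.
`S_One`: `inV M {f} = ∅`, `len f = 5` (vertices with a corner in `f` are in `X`, degree `≥ 3`). By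
`S_Child` `D` has no vertices; `S_Triv`. `iso = 0`, `kap = 1`, `2 |U| = 2 + 2 + 3 + 3 = 10`.  The boundary
of `{f}` is a cycle with five different vertices (`S_ShortBd`), and all vertices of `f` are in `U`
(`S_Triv`), so `U = {v | Inc M v f}`.  `K`: by `S_Fam` (5), (7) every node of `K` is `nv v`, `v ∈ U`, or in
`D = {nf f}`.
(2) The root is in `K`. If there is only one region then there are no children without the root
(the root faces and `fD D` are disjoint), `rho = 2 |U|`.  Otherwise
`rho = 2 + 2 (kap - ∑ iso) + ∑ (R ∈ Q), (lenR - 2) ≥ 2 + 2 + 2`, because `Q` is not empty (it contains the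
region of the root faces). -/
def S_Loc : Prop :=
  ∀ (V : Type) [Fintype V] [DecidableEq V] (G : SimpleGraph V) [DecidableRel G.Adj]
    (M : CMap G.Dart V) (X : Finset V) (pi : Nd M X → ℤ), Ctx M X pi → ∀ K ∈ KF M X pi,
      (rt M X ∉ K → 7 ≤ rho M X pi K ∧ (rho M X pi K < 9 → Single M X pi K)) ∧
      (rt M X ∈ K → min (2 * ((VK M X pi K).card : ℤ)) 6 ≤ rho M X pi K)

/-- **ValD.** Allowed: `S_LC, S_Fam, S_Child, S_Odd, S_Triv, S_LenR, S_One, S_FaceLen`. The value of a
child.
PROOF. All faces have length `≥ 4` (`S_FaceLen`: `fD D` has a nonempty boundary by `S_LenR`).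
`lenD` is odd, `k = (bd M (fD D)).card` is odd and `≥ 4`, so `5 ≤ k ≤ lenD`.
If `D` has no vertices (`S_Triv`): `val ≥ len f - 9 + 4 (len f - 4) = 5 len f - 25 ≥ 0`.
If `D` has a vertex then `inV M (fD D) ≠ ∅` (`S_Child`) and `k ≠ 5` (`Ctx.nosep`: `fD D = {f}`, `S_One`), so
`k ≥ 7`. If `lenD ≥ 9` then `val ≥ 0` (all other terms are `≥ 0`).  If `lenD = 7` then `k = 7` and no dart of
`HK K` has both sides in `fD D`; `val = -2 + 2 iso + 4 ∑ + 2 #` and if `val < 0` then `iso = 0`, all top faces
of `D` have length `4` and all `K' ∈ chD D` are single. `BadD`: `cov`: let `v ∈ inV M (fD D)`; `v ∈ X` and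
`nv v` is adjacent to nodes of `D`. If `nv v ∉ D` then it is on the level of `K`, in `K`, so `v ∈ VK K`; all
darts of `HK K` at `v` would have both sides in `fD D`, so there are none and `v` is counted in `iso`,
contradiction. -/
def S_ValD : Prop :=
  ∀ (V : Type) [Fintype V] [DecidableEq V] (G : SimpleGraph V) [DecidableRel G.Adj]
    (M : CMap G.Dart V) (X : Finset V) (pi : Nd M X → ℤ), Ctx M X pi → ∀ K ∈ KF M X pi,
    ∀ D ∈ chK M X pi K, 5 ≤ lenD M X pi K D ∧ -2 ≤ val M X pi K D ∧
      (val M X pi K D < 0 → BadD M X pi K D)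

/-- **BadRed.** Allowed: `S_LC, S_Fam, S_Child`. A bad child is a bad disc.
PROOF. `Φ = fD D`. `ne`: `S_Child`. `face`: let `f ∈ Φ`; it does not touch `Xᶜ`. If `tc (nf f) = D` then
`f ∈ FD D`, `len f = 4`. Otherwise `nf f ∈ K'` for some `K' ∈ chD D` (`S_Fam` (6)), which is single:
`nf f = nf f'` where `f'` is the pentagon of `K'` (`nf f` is not a vertex node), so `f = f'`,
`len f = 5`, and its vertices `v` are in `VK K'`, so `nv v ∈ K' ⊆ D` and `v ∈ inV M Φ` by `S_Child`.
`cover`: `v ∈ inV M Φ`: `nv v ∈ D` by `cov`, `tc (nv v) ≠ D` (parity), so `nv v ∈ K'` for some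
`K' ∈ chD D`, which is single, with the pentagon `f`; `v ∈ VK K'`, so `Inc M v f`; `f ∈ Φ` because
`nf f ∈ K' ⊆ D`.  Unique: if `f'' ∈ Φ`, `len f'' = 5`, `Inc M v f''` then (as for `face`) `f''` is the
pentagon of a single `K''` with `v ∈ VK K''`, so `K'' = tc (nv v) = K'`, and `nf f'' ∈ K'` gives
`f'' = f`. -/
def S_BadRed : Prop :=
  ∀ (V : Type) [Fintype V] [DecidableEq V] (G : SimpleGraph V) [DecidableRel G.Adj]
    (M : CMap G.Dart V) (X : Finset V) (pi : Nd M X → ℤ), Ctx M X pi → ∀ K ∈ KF M X pi,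
    ∀ D ∈ chK M X pi K, BadD M X pi K D →
      BadDisc M (fD M X D) ∧ ∀ f ∈ fD M X D, ¬ RootF M X f

/-- **Acc.** Allowed: `S_Fam, S_Loc, S_ValD`. The accounting. Write `KF₀`, `DF₀` for the components without
the root.
PROOF. `∑ (K ∈ KF), |VK K| = |X|` (`Finset.card_eq_sum_card_image`).
`2 |VK K| = rho K + ∑ (D ∈ chK K), (lenD - 2 + 2 iso)`.  Every `D ∈ DF₀` is in `chK K` for exactly one
`K ∈ KF`, every `K' ∈ KF₀` is in `chD D` for exactly one `D ∈ DF` (`S_Fam` (2), (3)).
`Lam ≥ ∑ (D ∈ DF₀), ∑ (f ∈ FD D), (len f - 4)` (all faces have length `≥ 4`: for the faces not touching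
`Xᶜ` use the hypothesis).  `lcs.card = |KF₀| + |DF₀|`.
(1) `2 |X| ≥ ∑ (K ∈ KF), rho K + 3 |DF₀| ≥ 7 |KF₀| + 3 |DF₀|` (`rho K ≥ 0` if the root is in `K`).
(2) `2 |X| + 4 Lam - 7 lcs.card ≥ ∑ (K ∈ KF \ KF₀), rho K + ∑ (K ∈ KF₀), (rho K - 7) + ∑ (D ∈ DF₀),
(lenD - 2 + 2 iso - 7 + 4 ∑ (len f - 4))`, and `rho K - 7 ≥ 2` for `K` not single;
`∑ (K ∈ KF₀), 2 [not single] ≥ ∑ (D ∈ DF₀), 2 |{K' ∈ chD D not single}|`, so the last two sums are at
least `∑ (D ∈ DF₀), val ≥ -2 nbad`. -/
def S_Acc : Prop :=
  ∀ (V : Type) [Fintype V] [DecidableEq V] (G : SimpleGraph V) [DecidableRel G.Adj]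
    (M : CMap G.Dart V) (X : Finset V) (pi : Nd M X → ℤ), Ctx M X pi → (∀ f, 4 ≤ len M f) →
      3 * (lcs (IG M X) pi (rt M X)).card ≤ 2 * X.card ∧
      7 * ((lcs (IG M X) pi (rt M X)).card : ℤ) +
        ∑ K ∈ (KF M X pi).filter (fun K => rt M X ∈ K), min (2 * ((VK M X pi K).card : ℤ)) 6 ≤
        2 * X.card + 4 * Lam M X + 2 * nbad M X pi

/-! ### The minimal counterexample -/

/-- **MkCtx.** Allowed: `S_MinOuter, S_MinDeg, S_Root`. The setting for `X = Pᶜ`.
PROOF. `ne`: `P` is not empty. `root`: `S_Root`; `P = {w i}` and `w i`, `w (i + 1)` are adjacent, so a set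
`A` as in `S_Root` contains all or none of them (induction over `ZMod k`: `w 0, w 1, ...`).
`nosep`: `o ∉ R` (`o` touches `P`); `MinDisc.nosep`: `R.card = 1` or `R = univ \ {o}`; the latter contains
the face of a boundary dart `d = (w 0, w 1)`, which touches `P`: contradiction. -/
def S_MkCtx : Prop :=
  ∀ (V : Type) [Fintype V] [DecidableEq V] (G : SimpleGraph V) [DecidableRel G.Adj]
    (M : CMap G.Dart V) (o : Fc M) (L : V → Finset ℕ) (P : Finset V) (g : V → Finset ℕ),
    MinDisc G M o L P g → ∀ pi : Nd M Pᶜ → ℤ, LevS (IG M Pᶜ) (Tn M Pᶜ) (rt M Pᶜ) pi →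
      Ctx M Pᶜ pi

/-- the `T`-join theorem in the form which is used -/
def S_TJuse : Prop :=
  ∀ (N : Type) [Fintype N] [DecidableEq N] (I : SimpleGraph N), I.Connected →
    (∃ c : N → Bool, ∀ x y, I.Adj x y → c x ≠ c y) → ∀ (T : Finset N) (r : N), Even T.card →
    ∃ pi : N → ℤ, LevS I T r pi ∧ (∃ J, IsJ I T J ∧ J.card = (lcs I pi r).card) ∧
      ∀ x, I.Adj r x → pi x = -1 →
        ∃ J, IsJ I T J ∧ J.card = (lcs I pi r).card ∧ s(r, x) ∈ J

/-- **Quad5.** Allowed: `S_MinOuter, S_FaceLen, S_ShortBd, S_Corner`. The faces at an outer face of length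
five: one of them is long, or two adjacent vertices outside of `P` have neighbours in `P`.
PROOF. `Bd M (univ \ {o}) 5 w`, `P = {w i}`. Let `d_i = (w i, w (i+1))`, `f_i = fc M d_i ≠ o`, and suppose
that all these faces have length `4` (otherwise the first case holds, `S_FaceLen`). So `M.φ^4 d_i = d_i`;
let `φ d_i = (w (i+1), a_i)`, `φ² d_i = (a_i, b_i)`, `φ³ d_i = (b_i, w i)`. Adjacent vertices of `P` are
consecutive (no triangles). `a_i ≠ w i` (`φ d_i` would be `d_i.symm`, which is in `o`) and `b_i ≠ w (i+1)`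
(`φ³ d_i` would be `d_i.symm`). So `a_i ∈ P` implies `a_i = w (i+2)`, and `b_i ∈ P` implies
`b_i = w (i-1)`, and both together are impossible (`w (i+2)`, `w (i-1) = w (i+4)` are not adjacent).
If for some `i` both are not in `P`: `x = b_i`, `y = a_i`.  Otherwise, for every `i`, exactly one of
`α i : a_i = w (i+2)`, `β i : b_i = w (i-1)` holds. `α i` implies `φ d_i = d_(i+1)`, so
`b_(i+1) = w i`, i.e. `β (i+1)`; `β (i+1)` implies `φ³ d_(i+1) = d_i`, so `φ d_i = d_(i+1)` and `α i`.
So `α i ↔ β (i+1) ↔ ¬ α (i+1)` for all `i : ZMod 5`: impossible. -/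
def S_Quad5 : Prop :=
  ∀ (V : Type) [Fintype V] [DecidableEq V] (G : SimpleGraph V) [DecidableRel G.Adj]
    (M : CMap G.Dart V) (o : Fc M) (L : V → Finset ℕ) (P : Finset V) (g : V → Finset ℕ),
    MinDisc G M o L P g → len M o = 5 →
      (∃ f, f ≠ o ∧ RootF M Pᶜ f ∧ 5 ≤ len M f) ∨
      ∃ x y, x ∉ P ∧ y ∉ P ∧ x ≠ y ∧ (∃ c ∈ P, G.Adj x c) ∧ (∃ c ∈ P, G.Adj y c) ∧
        (∃ f, RootF M Pᶜ f ∧ Inc M x f) ∧ ∃ f, RootF M Pᶜ f ∧ Inc M y f

/-- **Fin1.** Allowed: `S_Acc, S_BadRed, S_MkCtx, S_TJuse, S_IncConn, S_Oct, S_JW, S_Fam, S_LC`. Summary: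
if there is no bad disc then the free vertices `X = Pᶜ` have an odd cycle transversal which is small.
PROOF. `S_IncConn` (`P` is not empty), `Tn` has an even number of elements, colouring `nc`; `S_TJuse` with
`r = rt`; `S_MkCtx`; `W = Wj J` (`S_Oct`), `2 |W| ≤ J.card = lcs.card` (`S_JW`).  `nbad = 0`: by `S_BadRed` and
the hypothesis (`fD D` does not contain `o`, which touches `P`).  `3 |lcs| ≤ 2 |X|` gives `3 |W| ≤ |X|`.
Second part: `x`, `y` are on root faces, so `nv x`, `nv y` are adjacent to `rt`, and `pi = 1` or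
`pi = -1` there. If `pi (nv x) = -1` take `J` with `s(rt, nv x) ∈ J`, `x ∈ Wj J`; the same for `y`.  If both are
`1` then `tc (nv x) = tc (nv y)` contains `rt`, and `|VK| ≥ 2`, so the sum in `S_Acc` is at least `4`. -/
def S_Fin1 : Prop :=
  ∀ (V : Type) [Fintype V] [DecidableEq V] (G : SimpleGraph V) [DecidableRel G.Adj]
    (M : CMap G.Dart V) (o : Fc M) (L : V → Finset ℕ) (P : Finset V) (g : V → Finset ℕ),
    MinDisc G M o L P g → (∀ f, 4 ≤ len M f) → (∀ Φ, o ∉ Φ → ¬ BadDisc M Φ) →
      (∃ W ⊆ Pᶜ, BipOn G (Pᶜ \ W) ∧ 3 * W.card ≤ (Pᶜ).card ∧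
        (7 * W.card : ℤ) ≤ (Pᶜ).card + 2 * Lam M Pᶜ) ∧
      ∀ x y, x ∉ P → y ∉ P → x ≠ y → (∃ f, RootF M Pᶜ f ∧ Inc M x f) →
        (∃ f, RootF M Pᶜ f ∧ Inc M y f) →
        ∃ W ⊆ Pᶜ, BipOn G (Pᶜ \ W) ∧ 3 * W.card ≤ (Pᶜ).card ∧
          (7 * W.card : ℤ) ≤ (Pᶜ).card + 2 * Lam M Pᶜ ∧
          (x ∈ W ∨ y ∈ W ∨ (7 * W.card : ℤ) + 2 ≤ (Pᶜ).card + 2 * Lam M Pᶜ)

/-- there is no bad disc in a minimal counterexample (note 1761 (B); see `Bad/Spec.lean`) -/
def S_NoBad : Prop :=
  ∀ (V : Type) [Fintype V] [DecidableEq V] (G : SimpleGraph V) [DecidableRel G.Adj]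
    (M : CMap G.Dart V) (o : Fc M) (L : V → Finset ℕ) (P : Finset V) (g : V → Finset ℕ),
    MinDisc G M o L P g → ∀ Φ, o ∉ Φ → ¬ BadDisc M Φ

/-- **NoMin.** Allowed: `S_Fin1, S_NoBad, S_Quad5, S_Val, S_MinOuter, S_FaceLen`. There are no minimal
counterexamples.
PROOF. `S_MinOuter`: `k = len M o ∈ {4, 5}`, `Bd M (univ \ {o}) k w`, `inV M (univ \ {o}) = Pᶜ`,
nonempty. All faces have length `≥ 4` (`S_FaceLen`).  `∑ (f ≠ o), (len f - 4) ≥ Lam M Pᶜ` (`o` touches `P`),
and `≥ Lam + 1` if a face `f ≠ o` touching `P` has length `≥ 5`.  Let `W` be from `S_Fin1`;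
`Pᶜ \ W` is nonempty because `3 |W| ≤ |Pᶜ|`.  `S_Val` with `R = univ \ {o}`, `U = ∅`:
`|Pᶜ| + 2 ∑ (len f - 4) + 8 + 3 eBt W P < 7 |W| + 2 k`.
`k = 4`: contradiction to `7 |W| ≤ |Pᶜ| + 2 Lam`.  `k = 5`: `|Pᶜ| + 2 ∑ (len f - 4) + 3 eBt W P < 7 |W| + 2`;
`S_Quad5`: a long face gives `∑ ≥ Lam + 1`, contradiction; otherwise `x`, `y` and the second part of
`S_Fin1`: if `x ∈ W` (or `y ∈ W`) then `eBt W P ≥ 1`. -/
def S_NoMin : Prop := NoMin

end C7
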