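import Pool.Agent.Lib.MP_86b854_co.Bad.All
import Pool.Agent.Lib.MP_86b854_co.TJ.Use
import Pool.Agent.Lib.MP_86b854_co.Lv.Acc
import Pool.Agent.Lib.MP_86b854_co.Lv.BadRed
import Pool.Agent.Lib.MP_86b854_co.Lv.Child
import Pool.Agent.Lib.MP_86b854_co.Lv.Fam
import Pool.Agent.Lib.MP_86b854_co.Lv.Fin1
import Pool.Agent.Lib.MP_86b854_co.Lv.IncConn
import Pool.Agent.Lib.MP_86b854_co.Lv.JW
import Pool.Agent.Lib.MP_86b854_co.Lv.Kap
import Pool.Agent.Lib.MP_86b854_co.Lv.LC
import Pool.Agent.Lib.MP_86b854_co.Lv.LenR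
import Pool.Agent.Lib.MP_86b854_co.Lv.Loc
import Pool.Agent.Lib.MP_86b854_co.Lv.MkCtx
import Pool.Agent.Lib.MP_86b854_co.Lv.NoMin
import Pool.Agent.Lib.MP_86b854_co.Lv.Oct
import Pool.Agent.Lib.MP_86b854_co.Lv.Odd
import Pool.Agent.Lib.MP_86b854_co.Lv.One
import Pool.Agent.Lib.MP_86b854_co.Lv.Quad5
import Pool.Agent.Lib.MP_86b854_co.Lv.RegU
import Pool.Agent.Lib.MP_86b854_co.Lv.Regs
import Pool.Agent.Lib.MP_86b854_co.Lv.Root
import Pool.Agent.Lib.MP_86b854_co.Lv.Triv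
import Pool.Agent.Lib.MP_86b854_co.Lv.ValD

set_option autoImplicit false

/-!
# MP_86b854_co : level accounting, everything proved: there are no minimal counterexamples
-/

namespace C7

theorem aRegU : S_RegU := tRegU tEulerSub tRegs
theorem aLenR : S_LenR := tLenR aShortBd
theorem aOne : S_One := tOne aShortBd aDiscEuler
theorem aFam : S_Fam := tFam tLC tIncConn
theorem aChild : S_Child := tChild aFam
theorem aOdd : S_Odd := tOdd aFam aChild aLenR
theorem aBadRed : S_BadRed := tBadRed aFam aChild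
theorem aMkCtx : S_MkCtx := tMkCtx aMinOuter tMinDeg tRoot
theorem aQuad5 : S_Quad5 := tQuad5 aMinOuter tFaceLen
theorem aLoc : S_Loc := tLoc aFam aChild aOdd tTriv aRegU tRegs tKap aLenR aOne aShortBd
theorem aValD : S_ValD := tValD aChild aOdd tTriv aLenR aOne tFaceLen
theorem aAcc : S_Acc := tAcc aFam aLoc aValD
theorem aFin1 : S_Fin1 := tFin1 aAcc aBadRed aMkCtx aTJuse tIncConn tOct tJW

/-- there are no minimal counterexamples -/
theorem aNoMin : NoMin := tNoMin aFin1 aNoBad aQuad5 aVal aMinOuter tFaceLen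

end C7
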