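import Pool.Agent.Lib.MP_86b854_co.Lv.Spec

set_option autoImplicit false
set_option linter.unusedSectionVars false

/-!
# MP_86b854_co : basic lemmas on corners, nodes and level components
-/

namespace C7

open PLM T72 Finset Equiv

variable {V : Type} [Fintype V] [DecidableEq V] {G : SimpleGraph V} [DecidableRel G.Adj]

/-! ### corners -/

theorem fc_phi (M : CMap G.Dart V) (d : G.Dart) : fc M (M.φ d) = fc M d :=
  Quotient.sound (show (M.φ).SameCycle (M.φ d) d from (Perm.SameCycle.refl _ _).apply_left)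

theorem phi_symm {M : CMap G.Dart V} (hM : PlaneMap M) (d : G.Dart) : M.φ d = M.σ d.symm := by
  rw [CMap.φ_apply, hM.2.1]

theorem fc_sigma {M : CMap G.Dart V} (hM : PlaneMap M) (d : G.Dart) :
    fc M (M.σ d) = fc M d.symm := by
  have h := phi_symm hM d.symm
  rw [SimpleGraph.Dart.symm_symm] at h
  rw [← h, fc_phi]

theorem fst_sigma {M : CMap G.Dart V} (hM : PlaneMap M) (d : G.Dart) : (M.σ d).fst = d.fst := by
  have h : M.vt (M.σ d) = M.vt d := (M.hv _ _).2 (Perm.SameCycle.refl _ _).apply_left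
  rwa [hM.1, hM.1] at h

theorem fst_phi {M : CMap G.Dart V} (hM : PlaneMap M) (d : G.Dart) : (M.φ d).fst = d.snd := by
  rw [phi_symm hM, fst_sigma hM]
  rfl

theorem sameCycle_sigma {M : CMap G.Dart V} (hM : PlaneMap M) {d e : G.Dart} (h : d.fst = e.fst) :
    M.σ.SameCycle d e := by
  rw [← hM.1, ← hM.1] at h
  exact (M.hv _ _).1 h

/-- a property of darts which is preserved by `σ` in both directions is constant around vertices -/
theorem around {M : CMap G.Dart V} (hM : PlaneMap M) {p : G.Dart → Prop} {v : V}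
    (h : ∀ d : G.Dart, d.fst = v → (p d ↔ p (M.σ d))) {d e : G.Dart} (hd : d.fst = v)
    (he : e.fst = v) : p d ↔ p e := by
  have key : ∀ n : ℕ, ∀ d : G.Dart, d.fst = v → (p d ↔ p ((M.σ ^ n) d)) := by
    intro n
    induction n with
    | zero => intro d _; simp
    | succ n ih =>
      intro d hd
      rw [pow_succ, Perm.mul_apply]
      exact (h d hd).trans (ih (M.σ d) ((fst_sigma hM d).trans hd))
  obtain ⟨n, hn⟩ := (sameCycle_sigma hM (hd.trans he.symm)).exists_nat_pow_eq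
  rw [← hn]
  exact key n d hd

/-- faces around a vertex: if crossing the edges at `v` does not change the status, all corners at `v`
have the same status -/
theorem corner_iff {M : CMap G.Dart V} (hM : PlaneMap M) {R : Finset (Fc M)} {v : V}
    (h : ∀ d : G.Dart, d.fst = v → (fc M d ∈ R ↔ fc M d.symm ∈ R)) {d e : G.Dart}
    (hd : d.fst = v) (he : e.fst = v) : fc M d ∈ R ↔ fc M e ∈ R :=
  around hM (p := fun d => fc M d ∈ R) (fun d hd => by rw [fc_sigma hM]; exact h d hd) hd he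

theorem Inc_fst (M : CMap G.Dart V) (d : G.Dart) : Inc M d.fst (fc M d) := ⟨d, rfl, rfl⟩

theorem Inc_snd {M : CMap G.Dart V} (hM : PlaneMap M) (d : G.Dart) : Inc M d.snd (fc M d) :=
  ⟨M.φ d, fst_phi hM d, fc_phi M d⟩

theorem Inc_fst_symm {M : CMap G.Dart V} (hM : PlaneMap M) (d : G.Dart) :
    Inc M d.fst (fc M d.symm) := Inc_snd hM d.symm

theorem Inc_snd_symm (M : CMap G.Dart V) (d : G.Dart) : Inc M d.snd (fc M d.symm) :=
  Inc_fst M d.symm

theorem exists_dart (M : CMap G.Dart V) (f : Fc M) : ∃ d, fc M d = f := Quotient.exists_rep f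

theorem mem_inV {M : CMap G.Dart V} {R : Finset (Fc M)} {v : V} :
    v ∈ inV M R ↔ ∀ d : G.Dart, d.fst = v → fc M d ∈ R := by
  simp [inV]

theorem mem_bd {M : CMap G.Dart V} {R : Finset (Fc M)} {d : G.Dart} :
    d ∈ bd M R ↔ fc M d ∈ R ∧ fc M d.symm ∉ R := by
  simp [bd]

theorem mem_dIn {U : Finset V} {d : G.Dart} : d ∈ dIn G U ↔ d.fst ∈ U ∧ d.snd ∈ U := by
  simp [dIn]

theorem dIn_symm {U : Finset V} {d : G.Dart} (h : d ∈ dIn G U) : d.symm ∈ dIn G U := by
  rw [mem_dIn] at h ⊢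
  exact ⟨h.2, h.1⟩

theorem dIn_mono {U X : Finset V} (h : U ⊆ X) : dIn G U ⊆ dIn G X := by
  intro d hd
  rw [mem_dIn] at hd ⊢
  exact ⟨h hd.1, h hd.2⟩

theorem Clo.mono {M : CMap G.Dart V} {H H' : Finset G.Dart} {R : Finset (Fc M)} (h : Clo M H R)
    (hH : H ⊆ H') : Clo M H' R := fun d hd => h d fun h' => hd (hH h')

theorem mem_regs {M : CMap G.Dart V} {H : Finset G.Dart} {R : Finset (Fc M)} :
    R ∈ regs M H ↔ R.Nonempty ∧ Clo M H R ∧ ∀ R' ⊆ R, R'.Nonempty → Clo M H R' → R' = R := by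
  simp [regs]

/-- a connected graph with at least two vertices: every vertex starts a dart -/
theorem exists_dart_at (hG : G.Connected) {u v : V} (h : u ≠ v) : ∃ d : G.Dart, d.fst = u := by
  obtain ⟨p⟩ := hG.preconnected u v
  cases p with
  | nil => exact absurd rfl h
  | cons hadj _ => exact ⟨⟨(_, _), hadj⟩, rfl⟩

/-! ### nodes -/

variable {M : CMap G.Dart V} {X : Finset V}

theorem nv_of_not {v : V} (h : v ∉ X) : nv M X v = rt M X := dif_neg h

theorem nf_of_root {f : Fc M} (h : RootF M X f) : nf M X f = rt M X := dif_pos h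

theorem nv_of {v : V} (h : v ∈ X) : nv M X v = some (Sum.inl ⟨v, h⟩) := dif_pos h

theorem nf_of {f : Fc M} (h : ¬ RootF M X f) : nf M X f = some (Sum.inr ⟨f, h⟩) := dif_neg h

theorem nc_rt : nc M X (rt M X) = false := rfl

theorem nc_nv {v : V} (h : v ∈ X) : nc M X (nv M X v) = true := by rw [nv_of h]; rfl

theorem nc_nf (f : Fc M) : nc M X (nf M X f) = false := by
  by_cases h : RootF M X f
  · rw [nf_of_root h]; rfl
  · rw [nf_of h]; rfl

theorem nv_ne_nf {v : V} (h : v ∈ X) (f : Fc M) : nv M X v ≠ nf M X f := by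
  intro he
  have h1 := nc_nv (M := M) h
  rw [he, nc_nf] at h1
  exact Bool.false_ne_true h1

theorem nv_ne_rt {v : V} (h : v ∈ X) : nv M X v ≠ rt M X := by
  intro he
  have h1 := nc_nv (M := M) h
  rw [he, nc_rt] at h1
  exact Bool.false_ne_true h1

theorem nf_eq_rt {f : Fc M} : nf M X f = rt M X ↔ RootF M X f := by
  constructor
  · intro h
    by_contra h'
    rw [nf_of h'] at h
    cases h
  · exact nf_of_root

theorem nv_inj {u v : V} (hu : u ∈ X) (h : nv M X u = nv M X v) : u = v := by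
  by_cases hv : v ∈ X
  · rw [nv_of hu, nv_of hv] at h
    have h1 := Option.some.inj h
    have h2 := Sum.inl.inj h1
    exact congrArg Subtype.val h2
  · rw [nv_of_not hv] at h
    exact absurd h (nv_ne_rt hu)

theorem nf_inj {f g : Fc M} (hf : ¬ RootF M X f) (h : nf M X f = nf M X g) : f = g := by
  by_cases hg : RootF M X g
  · rw [nf_of_root hg] at h
    exact absurd (nf_eq_rt.1 h) hf
  · rw [nf_of hf, nf_of hg] at h
    have h1 := Option.some.inj h
    have h2 := Sum.inr.inj h1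
    exact congrArg Subtype.val h2

/-- every node is `nv v`, `v ∈ X`, or the node of a face not touching `Xᶜ`, or the root -/
theorem node_cases (x : Nd M X) : (∃ v ∈ X, x = nv M X v) ∨ (∃ f, ¬ RootF M X f ∧ x = nf M X f) ∨
    x = rt M X := by
  match x with
  | some (Sum.inl ⟨v, h⟩) => exact Or.inl ⟨v, h, (nv_of h).symm⟩
  | some (Sum.inr ⟨f, h⟩) => exact Or.inr (Or.inl ⟨f, h, (nf_of h).symm⟩)
  | none => exact Or.inr (Or.inr rfl)

theorem exists_of_nc {x : Nd M X} (h : nc M X x = true) : ∃ v ∈ X, x = nv M X v := by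
  rcases node_cases x with h1 | ⟨f, _, rfl⟩ | rfl
  · exact h1
  · rw [nc_nf] at h; exact absurd h Bool.false_ne_true
  · rw [nc_rt] at h; exact absurd h Bool.false_ne_true

theorem exists_of_nc' {x : Nd M X} (h : nc M X x = false) :
    (∃ f, ¬ RootF M X f ∧ x = nf M X f) ∨ x = rt M X := by
  rcases node_cases x with ⟨v, hv, rfl⟩ | h1
  · rw [nc_nv hv] at h; exact absurd h.symm Bool.false_ne_true
  · exact h1

theorem adj_of_Inc {v : V} (hv : v ∈ X) {f : Fc M} (h : Inc M v f) :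
    (IG M X).Adj (nv M X v) (nf M X f) := by
  refine ⟨?_, v, f, hv, h, Or.inl ⟨rfl, rfl⟩⟩
  rw [nc_nv hv, nc_nf]
  exact Bool.true_eq_false_eq_False

theorem adj_nc {x y : Nd M X} (h : (IG M X).Adj x y) : nc M X x ≠ nc M X y := h.1

/-- neighbours of a vertex node -/
theorem adj_nv {v : V} (hv : v ∈ X) {x : Nd M X} (h : (IG M X).Adj (nv M X v) x) :
    ∃ f, Inc M v f ∧ x = nf M X f := by
  obtain ⟨_, u, f, hu, hi, h1 | h1⟩ := h
  · have : v = u := nv_inj hv h1.1
    subst this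
    exact ⟨f, hi, h1.2⟩
  · exact absurd h1.2 (nv_ne_nf hv f)

/-- neighbours of the node of a face which does not touch `Xᶜ` -/
theorem adj_nf {f : Fc M} (hf : ¬ RootF M X f) {x : Nd M X} (h : (IG M X).Adj (nf M X f) x) :
    ∃ v ∈ X, Inc M v f ∧ x = nv M X v := by
  obtain ⟨_, u, g, hu, hi, h1 | h1⟩ := h
  · exact absurd h1.1.symm (nv_ne_nf hu f)
  · have : f = g := nf_inj hf h1.2
    subst this
    exact ⟨u, hu, hi, h1.1⟩

/-- neighbours of the root -/
theorem adj_rt {x : Nd M X} (h : (IG M X).Adj (rt M X) x) :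
    ∃ v ∈ X, ∃ f, RootF M X f ∧ Inc M v f ∧ x = nv M X v := by
  obtain ⟨_, u, g, hu, hi, h1 | h1⟩ := h
  · exact absurd h1.1.symm (nv_ne_rt hu)
  · exact ⟨u, hu, g, nf_eq_rt.1 h1.2.symm, hi, h1.1⟩

theorem not_rootF_mem {f : Fc M} (hf : ¬ RootF M X f) {v : V} (h : Inc M v f) : v ∈ X := by
  by_contra hv
  exact hf ⟨v, hv, h⟩

theorem mem_fD {D : Finset (Nd M X)} {f : Fc M} : f ∈ fD M X D ↔ nf M X f ∈ D := by
  simp [fD]

theorem mem_VK {pi : Nd M X → ℤ} {K : Finset (Nd M X)} {v : V} :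
    v ∈ VK M X pi K ↔ v ∈ X ∧ tc (IG M X) pi (nv M X v) = K := by
  simp [VK]

theorem mem_FD {pi : Nd M X → ℤ} {D : Finset (Nd M X)} {f : Fc M} :
    f ∈ FD M X pi D ↔ ¬ RootF M X f ∧ tc (IG M X) pi (nf M X f) = D := by
  simp [FD]

theorem mem_KF {pi : Nd M X → ℤ} {K : Finset (Nd M X)} :
    K ∈ KF M X pi ↔ ∃ v ∈ X, tc (IG M X) pi (nv M X v) = K := by
  simp [KF]

theorem mem_DF {pi : Nd M X → ℤ} {D : Finset (Nd M X)} :
    D ∈ DF M X pi ↔ ∃ f, tc (IG M X) pi (nf M X f) = D := by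
  simp [DF]

theorem mem_chK {pi : Nd M X → ℤ} {K D : Finset (Nd M X)} :
    D ∈ chK M X pi K ↔ D ∈ DF M X pi ∧ Ch (IG M X) pi D K ∧ rt M X ∉ D := by
  simp [chK]

theorem mem_chD {pi : Nd M X → ℤ} {K D : Finset (Nd M X)} :
    K ∈ chD M X pi D ↔ K ∈ KF M X pi ∧ Ch (IG M X) pi K D ∧ rt M X ∉ K := by
  simp [chD]

theorem mem_Wj {J : Finset (Sym2 (Nd M X))} {v : V} :
    v ∈ Wj M X J ↔ v ∈ X ∧ ∃ e ∈ J, nv M X v ∈ e := by
  simp [Wj]

/-- the terminals other than the root -/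
theorem mem_Tn {x : Nd M X} (h : x ≠ rt M X) :
    x ∈ Tn M X ↔ ∃ f, ¬ RootF M X f ∧ x = nf M X f ∧ Odd (len M f) := by
  unfold Tn
  split_ifs
  · simp [T0]
  · rw [Finset.mem_insert]
    simp [T0, h]

theorem nf_mem_Tn {f : Fc M} (h : ¬ RootF M X f) : nf M X f ∈ Tn M X ↔ Odd (len M f) := by
  rw [mem_Tn (fun h' => h (nf_eq_rt.1 h'))]
  constructor
  · rintro ⟨g, _, h2, h3⟩
    rwa [nf_inj h h2]
  · exact fun h' => ⟨f, h, rfl, h'⟩

theorem nv_not_mem_Tn {v : V} (h : v ∈ X) : nv M X v ∉ Tn M X := by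
  rw [mem_Tn (nv_ne_rt h)]
  rintro ⟨f, _, h2, _⟩
  exact nv_ne_nf h f h2

theorem Tn_even (M : CMap G.Dart V) (X : Finset V) : Even (Tn M X).card := by
  unfold Tn
  split_ifs with h
  · exact h
  · rw [Finset.card_insert_of_notMem]
    · exact (Nat.not_even_iff_odd.1 h).add_one
    · intro hm
      simp only [T0, mem_filter, mem_univ, true_and] at hm
      obtain ⟨f, h1, h2, _⟩ := hm
      exact h1 (nf_eq_rt.1 h2.symm)

end C7
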