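import Pool.Agent.Lib.MP_86b854_co.Interface2

set_option autoImplicit false

/-!
# MP_86b854_co : regions as sets of faces, the incidence graph, levels (definitions)

Setting: one plane map `M` of the connected graph `G`, a set `X` of free vertices, the root is
everything else (`Xᶜ` and all faces touching `Xᶜ`).
-/

namespace C7

open PLM T72 Finset Equiv

variable {V : Type} [Fintype V] [DecidableEq V] {G : SimpleGraph V} [DecidableRel G.Adj]

/-! ### Regions -/

/-- closed under crossing edges which are not in `H` -/
def Clo (M : CMap G.Dart V) (H : Finset G.Dart) (R : Finset (Fc M)) : Prop :=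
  ∀ d : G.Dart, d ∉ H → (fc M d ∈ R ↔ fc M d.symm ∈ R)

open Classical in
/-- the regions of `H`: the minimal nonempty closed sets of faces -/
noncomputable def regs (M : CMap G.Dart V) (H : Finset G.Dart) : Finset (Finset (Fc M)) :=
  univ.filter fun R => R.Nonempty ∧ Clo M H R ∧ ∀ R' ⊆ R, R'.Nonempty → Clo M H R' → R' = R

/-- length of a region: number of the darts of `H` with the face in `R` -/
noncomputable def lenR (M : CMap G.Dart V) (H : Finset G.Dart) (R : Finset (Fc M)) : ℕ :=
  (H.filter fun d => fc M d ∈ R).card

/-- number of components of `G[U]` -/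
noncomputable def kap (G : SimpleGraph V) [DecidableRel G.Adj] (U : Finset V) : ℤ :=
  (ncmp (dIn G U) : ℤ) - Fintype.card V + U.card

/-! ### The incidence graph of a set `X` of free vertices -/

/-- `f` touches the complement of `X` -/
def RootF (M : CMap G.Dart V) (X : Finset V) (f : Fc M) : Prop := ∃ v, v ∉ X ∧ Inc M v f

/-- the faces touching the complement of `X` are all in one region of `G[X]` -/
def RootConn (M : CMap G.Dart V) (X : Finset V) : Prop :=
  ∀ R : Finset (Fc M), Clo M (dIn G X) R → ∀ f g, RootF M X f → RootF M X g → (f ∈ R ↔ g ∈ R)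

/-- the nodes: vertices in `X`, faces which do not touch the complement of `X`, and the root
`none` -/
def Nd (M : CMap G.Dart V) (X : Finset V) : Type :=
  Option ({v : V // v ∈ X} ⊕ {f : Fc M // ¬ RootF M X f})

/-- the root node -/
def rt (M : CMap G.Dart V) (X : Finset V) : Nd M X := none

noncomputable instance (M : CMap G.Dart V) (X : Finset V) : DecidableEq (Nd M X) :=
  Classical.decEq _

instance (M : CMap G.Dart V) (X : Finset V) : Finite (Nd M X) := by
  unfold Nd
  infer_instance

noncomputable instance (M : CMap G.Dart V) (X : Finset V) : Fintype (Nd M X) :=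
  Fintype.ofFinite _

open Classical in
/-- the node of a vertex (the root for vertices outside of `X`) -/
noncomputable def nv (M : CMap G.Dart V) (X : Finset V) (v : V) : Nd M X :=
  if h : v ∈ X then some (Sum.inl ⟨v, h⟩) else none

open Classical in
/-- the node of a face (the root for faces touching the complement of `X`) -/
noncomputable def nf (M : CMap G.Dart V) (X : Finset V) (f : Fc M) : Nd M X :=
  if h : RootF M X f then none else some (Sum.inr ⟨f, h⟩)

/-- the two-colouring of the nodes: `true` for the vertices -/
def nc (M : CMap G.Dart V) (X : Finset V) : Nd M X → Bool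
  | some (Sum.inl _) => true
  | _ => false

/-- the incidence graph of the nodes -/
def IG (M : CMap G.Dart V) (X : Finset V) : SimpleGraph (Nd M X) where
  Adj a b := nc M X a ≠ nc M X b ∧ ∃ v f, v ∈ X ∧ Inc M v f ∧
    ((a = nv M X v ∧ b = nf M X f) ∨ (b = nv M X v ∧ a = nf M X f))
  symm := ⟨by
    rintro a b ⟨hne, v, f, hv, ho, h⟩
    exact ⟨hne.symm, v, f, hv, ho, h.symm⟩⟩
  loopless := ⟨fun a h => h.1 rfl⟩

open Classical in
/-- the nodes of the odd faces which do not touch the complement of `X` -/
noncomputable def T0 (M : CMap G.Dart V) (X : Finset V) : Finset (Nd M X) :=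
  univ.filter fun x => ∃ f, ¬ RootF M X f ∧ x = nf M X f ∧ Odd (len M f)

/-- the set of terminals: odd faces, and the root if this is needed for parity -/
noncomputable def Tn (M : CMap G.Dart V) (X : Finset V) : Finset (Nd M X) :=
  if Even (T0 M X).card then T0 M X else insert (rt M X) (T0 M X)

/-! ### Level components of a finite graph -/

section Lev

variable {N : Type} [Fintype N] [DecidableEq N]

open Classical in
/-- the nodes which are connected to `x` inside of `{pi ≤ i}` -/
noncomputable def lc (I : SimpleGraph N) (pi : N → ℤ) (i : ℤ) (x : N) : Finset N :=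
  univ.filter fun y => Relation.ReflTransGen (fun a b => I.Adj a b ∧ pi a ≤ i ∧ pi b ≤ i) x y

/-- the level component with `x` at the top level -/
noncomputable def tc (I : SimpleGraph N) (pi : N → ℤ) (x : N) : Finset N := lc I pi (pi x) x

/-- the level components without the root -/
noncomputable def lcs (I : SimpleGraph N) (pi : N → ℤ) (r : N) : Finset (Finset N) :=
  (univ.filter fun x => r ∉ tc I pi x).image (tc I pi)

/-- `C` is a component of one level below the component `C'` which contains it -/
def Ch (I : SimpleGraph N) (pi : N → ℤ) (C C' : Finset N) : Prop :=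
  C ⊆ C' ∧ ∃ x y, tc I pi x = C ∧ tc I pi y = C' ∧ pi y = pi x + 1

/-- what the level accounting needs of the potential `pi` of the `T`-joins -/
structure LevS (I : SimpleGraph N) (T : Finset N) (r : N) (pi : N → ℤ) : Prop where
  step : ∀ x y, I.Adj x y → pi x = pi y + 1 ∨ pi y = pi x + 1
  root : pi r = 0
  odd : ∀ x, r ∉ tc I pi x → Odd (T ∩ tc I pi x).card

/-- `J` is a `T`-join -/
def IsJ (I : SimpleGraph N) (T : Finset N) (J : Finset (Sym2 N)) : Prop :=
  (∀ e ∈ J, e ∈ I.edgeSet) ∧ ∀ x, Odd (J.filter fun e => x ∈ e).card ↔ x ∈ T

end Lev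

/-! ### Vertex components `K` and face components `D` -/

variable (M : CMap G.Dart V) (X : Finset V) (pi : Nd M X → ℤ)

/-- the level components whose top nodes are vertices -/
noncomputable def KF : Finset (Finset (Nd M X)) := X.image fun v => tc (IG M X) pi (nv M X v)

/-- the level components whose top nodes are faces (or the root) -/
noncomputable def DF : Finset (Finset (Nd M X)) := univ.image fun f => tc (IG M X) pi (nf M X f)

/-- the vertices at the top level of `K` -/
noncomputable def VK (K : Finset (Nd M X)) : Finset V :=
  X.filter fun v => tc (IG M X) pi (nv M X v) = K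

open Classical in
/-- the faces at the top level of `D` (without those touching the complement of `X`) -/
noncomputable def FD (D : Finset (Nd M X)) : Finset (Fc M) :=
  univ.filter fun f => ¬ RootF M X f ∧ tc (IG M X) pi (nf M X f) = D

/-- the faces of a set of nodes -/
noncomputable def fD (D : Finset (Nd M X)) : Finset (Fc M) := univ.filter fun f => nf M X f ∈ D

open Classical in
/-- the children of `K` without the root -/
noncomputable def chK (K : Finset (Nd M X)) : Finset (Finset (Nd M X)) :=
  (DF M X pi).filter fun D => Ch (IG M X) pi D K ∧ rt M X ∉ D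

open Classical in
/-- the children of `D` without the root -/
noncomputable def chD (D : Finset (Nd M X)) : Finset (Finset (Nd M X)) :=
  (KF M X pi).filter fun K => Ch (IG M X) pi K D ∧ rt M X ∉ K

/-- the darts inside of the top vertices of `K` -/
noncomputable def HK (K : Finset (Nd M X)) : Finset G.Dart := dIn G (VK M X pi K)

/-- length of the child `D` of `K` -/
noncomputable def lenD (K D : Finset (Nd M X)) : ℕ := lenR M (HK M X pi K) (fD M X D)

open Classical in
/-- number of isolated vertices of `G[VK K]` inside of the child `D` of `K` -/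
noncomputable def iso (K D : Finset (Nd M X)) : ℕ :=
  ((VK M X pi K).filter fun v => v ∈ inV M (fD M X D) ∧ ∀ u ∈ VK M X pi K, ¬ G.Adj v u).card

/-- what remains of `2 |VK K|` after the payments to the children without the root -/
noncomputable def rho (K : Finset (Nd M X)) : ℤ :=
  2 * (VK M X pi K).card -
    ∑ D ∈ chK M X pi K, ((lenD M X pi K D : ℤ) - 2 + 2 * iso M X pi K D)

/-- `K` is a single pentagonal face with its five vertices -/
def Single (K : Finset (Nd M X)) : Prop :=
  ∃ f, ¬ RootF M X f ∧ len M f = 5 ∧ (VK M X pi K).card = 5 ∧ (∀ v, Inc M v f ↔ v ∈ VK M X pi K) ∧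
    ∀ x, x ∈ K ↔ x = nf M X f ∨ ∃ v ∈ VK M X pi K, x = nv M X v

open Classical in
/-- the value of the child `D` of `K` -/
noncomputable def val (K D : Finset (Nd M X)) : ℤ :=
  (lenD M X pi K D : ℤ) - 9 + 2 * iso M X pi K D + 4 * ∑ f ∈ FD M X pi D, ((len M f : ℤ) - 4) +
    2 * ((chD M X pi D).filter fun K' => ¬ Single M X pi K').card

/-- a bad child `D` of `K`: a `7`-cycle whose interior vertices are all in single pentagons, all other
faces inside are quadrangles -/
structure BadD (K D : Finset (Nd M X)) : Prop where
  bd7 : (bd M (fD M X D)).card = 7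
  bdH : bd M (fD M X D) ⊆ HK M X pi K
  ne : ∃ v ∈ X, nv M X v ∈ D
  cov : ∀ v ∈ inV M (fD M X D), v ∈ X ∧ nv M X v ∈ D
  quad : ∀ f ∈ FD M X pi D, len M f = 4
  sing : ∀ K' ∈ chD M X pi D, Single M X pi K'

/-- a bad disc: a region `Φ` bounded by a `7`-cycle, all interior vertices are in pairwise disjoint
pentagonal faces, all other faces inside are quadrangles -/
structure BadDisc (Φ : Finset (Fc M)) : Prop where
  len7 : (bd M Φ).card = 7
  ne : (inV M Φ).Nonempty
  face : ∀ f ∈ Φ, len M f = 4 ∨ len M f = 5 ∧ ∀ v, Inc M v f → v ∈ inV M Φ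
  cover : ∀ v ∈ inV M Φ, ∃! f, f ∈ Φ ∧ len M f = 5 ∧ Inc M v f

/-- the setting of the accounting -/
structure Ctx : Prop where
  plane : PlaneMap M
  conn : G.Connected
  tri : G.CliqueFree 3
  ne : ∃ v, v ∉ X
  deg : ∀ v ∈ X, 3 ≤ G.degree v
  root : RootConn M X
  nosep : ∀ R : Finset (Fc M), R.Nonempty → (∀ f ∈ R, ¬ RootF M X f) → (bd M R).card ≤ 5 →
    R.card = 1
  lev : LevS (IG M X) (Tn M X) (rt M X) pi

open Classical in
/-- number of the bad components `D` without the root -/
noncomputable def nbad : ℕ :=
  ((DF M X pi).filter fun D => rt M X ∉ D ∧ ∃ K ∈ KF M X pi, Ch (IG M X) pi D K ∧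
    BadD M X pi K D).card

open Classical in
/-- the vertices of `X` on the edges of `J` -/
noncomputable def Wj (J : Finset (Sym2 (Nd M X))) : Finset V :=
  X.filter fun v => ∃ e ∈ J, nv M X v ∈ e

open Classical in
/-- total excess length of the faces which do not touch the complement of `X` -/
noncomputable def Lam : ℤ := ∑ f ∈ univ.filter (fun f => ¬ RootF M X f), ((len M f : ℤ) - 4)

end C7
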