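import Pool.Agent.Lib.MP_86b854_co.Lv.Spec
import Pool.Agent.Lib.MP_86b854_co.D.Bas
import Pool.Agent.Lib.MP_86b854_co.D.Corner

set_option autoImplicit false
set_option linter.unusedSectionVars false

/-!
# MP_86b854_co : length and boundary of a closed set of faces
-/

namespace C7

open PLM T72 Finset Equiv

namespace LenRAux

open Bas

variable {V : Type} [Fintype V] [DecidableEq V] {G : SimpleGraph V} [DecidableRel G.Adj]
  {M : CMap G.Dart V}

theorem mem_bth {H : Finset G.Dart} {R : Finset (Fc M)} {d : G.Dart} :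
    d ∈ H.filter (fun d => fc M d ∈ R ∧ fc M d.symm ∈ R) ↔
      d ∈ H ∧ fc M d ∈ R ∧ fc M d.symm ∈ R := by
  simp only [mem_filter]

/-- a symmetric set of darts with both sides in the region has an even number of elements -/
theorem even_bth {H : Finset G.Dart} (hH : ∀ d ∈ H, d.symm ∈ H) (R : Finset (Fc M)) :
    Even (H.filter fun d => fc M d ∈ R ∧ fc M d.symm ∈ R).card := by
  have h4 : (((H.filter fun d : G.Dart => fc M d ∈ R ∧ fc M d.symm ∈ R).card : ℕ) :
      ZMod 2) = 0 := by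
    rw [Finset.card_eq_sum_ones, Nat.cast_sum]
    refine Finset.sum_involution (fun d _ => d.symm) ?_ ?_ ?_ ?_
    · intro d _
      decide
    · intro d _ _
      exact SimpleGraph.Dart.symm_ne d
    · intro d hd
      obtain ⟨h1, h2, h3⟩ := mem_bth.1 hd
      rw [mem_bth, SimpleGraph.Dart.symm_symm]
      exact ⟨hH d h1, h3, h2⟩
    · intro d _
      exact SimpleGraph.Dart.symm_symm d
  rw [ZMod.natCast_eq_zero_iff] at h4
  exact even_iff_two_dvd.2 h4

/-- in a connected graph a nonempty region which is not everything has a boundary -/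
theorem bd_ne (hM : PlaneMap M) (hG : G.Connected) {R : Finset (Fc M)} (hR : R.Nonempty)
    (hR' : R ≠ univ) : (bd M R).Nonempty := by
  obtain ⟨o, ho⟩ : ∃ o, o ∉ R := by
    by_contra h
    push Not at h
    exact hR' (eq_univ_of_forall h)
  by_contra hne
  rw [not_nonempty_iff_eq_empty] at hne
  have hno : ∀ v : V, ∀ d ∈ bd M R, d.fst ≠ v := by
    intro v d hd
    rw [hne] at hd
    exact absurd hd (notMem_empty d)
  have hc : ∀ d e : G.Dart, d.fst = e.fst → (fc M d ∈ R ↔ fc M e ∈ R) :=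
    fun d e h => (tCorner V G M hM R e.fst).2 (hno _) d e h rfl
  have hs : ∀ d : G.Dart, fc M d ∈ R → fc M d.symm ∈ R := by
    intro d hd
    by_contra h
    have hd' : d ∈ bd M R := mem_bd.2 ⟨hd, h⟩
    rw [hne] at hd'
    exact absurd hd' (notMem_empty d)
  obtain ⟨f, hf⟩ := hR
  obtain ⟨d0, rfl⟩ := exists_fc f
  obtain ⟨d1, rfl⟩ := exists_fc o
  have key := conn_closed hG {v : V | ∃ d : G.Dart, d.fst = v ∧ fc M d ∈ R} (by
    rintro x y hxy ⟨e, he, heR⟩
    exact ⟨(⟨(x, y), hxy⟩ : G.Dart).symm, rfl, hs _ ((hc e ⟨(x, y), hxy⟩ he).mp heR)⟩)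
    d0.fst d1.fst ⟨d0, rfl, hf⟩
  obtain ⟨d, hd, hdR⟩ := key
  exact ho ((hc d d1 hd).mp hdR)

end LenRAux

open Bas LenRAux in
/-- **LenR.** -/
theorem tLenR (hS : S_ShortBd) : S_LenR := by
  intro V _ _ G _ M hM hG hT H hH R hcl hne huniv
  have h1 : bd M R ⊆ H := by
    intro d hd
    obtain ⟨h2, h3⟩ := mem_bd.1 hd
    by_contra h4
    exact h3 ((hcl d h4).1 h2)
  have hb := bd_ne hM hG hne huniv
  have h4 : 4 ≤ (bd M R).card := by
    by_cases h5 : (bd M R).card ≤ 7
    · exact (hS V G M hM hT R _ rfl (card_ne_zero.2 hb) h5).1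
    · omega
  have hev := even_bth (M := M) hH R
  have h5 : lenR M H R =
      (bd M R).card + (H.filter fun d => fc M d ∈ R ∧ fc M d.symm ∈ R).card := by
    unfold lenR
    rw [← card_union_of_disjoint]
    · congr 1
      ext d
      rw [mem_union, mem_bth, mem_bd, mem_filter]
      constructor
      · rintro ⟨h6, h7⟩
        by_cases h8 : fc M d.symm ∈ R
        · exact Or.inr ⟨h6, h7, h8⟩
        · exact Or.inl ⟨h7, h8⟩
      · rintro (⟨h6, h7⟩ | ⟨h6, h7, h8⟩)
        · exact ⟨h1 (mem_bd.2 ⟨h6, h7⟩), h6⟩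
        · exact ⟨h6, h7⟩
    · rw [Finset.disjoint_left]
      intro d h6 h7
      exact (mem_bd.1 h6).2 (mem_bth.1 h7).2.2
  refine ⟨h1, h4, h5, hev, ?_⟩
  have hev2 := even_bth (M := M) (H := Hᶜ) (fun d hd => by
    rw [mem_compl] at hd ⊢
    intro h
    have := hH _ h
    rw [SimpleGraph.Dart.symm_symm] at this
    exact hd this) R
  have h6 : (bo M R).card = (H.filter fun d => fc M d ∈ R ∧ fc M d.symm ∈ R).card +
      (Hᶜ.filter fun d => fc M d ∈ R ∧ fc M d.symm ∈ R).card := by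
    rw [← card_union_of_disjoint]
    · congr 1
      ext d
      rw [mem_union, mem_bth, mem_bth, mem_bo, mem_compl]
      tauto
    · rw [Finset.disjoint_left]
      intro d h6 h7
      exact (mem_compl.1 (mem_bth.1 h7).1) (mem_bth.1 h6).1
  obtain ⟨e, he⟩ := hev2
  refine ⟨e, ?_⟩
  rw [sum_len_eq, h5, h6, he]
  ring

end C7
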