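import Pool.Agent.Lib.MP_86b854_co.Lv.Spec
import Pool.Agent.Lib.MP_86b854_co.Bad.Spec

set_option autoImplicit false

/-!
# MP_86b854_co : `C7.S_NoBad` from `BadD.S_NoBad`
-/

namespace C7

open PLM T72 Finset Equiv

theorem tNoBadC (h : BadD.S_NoBad) (hSB : S_ShortBd) : S_NoBad := by
  classical
  intro V _ _ G _ M o L P g hM Φ ho hB
  obtain ⟨_, w, hw⟩ := hSB V G M hM.plane hM.tri Φ 7 hB.len7 (by norm_num) (by norm_num)
  have hinner : ∀ f ∈ Φ.filter (fun f => len M f = 5), ∀ v, Inc M v f → v ∈ inV M Φ := by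
    intro f hf v hv
    obtain ⟨hf1, hf2⟩ := mem_filter.1 hf
    rcases hB.face f hf1 with h4 | h5
    · omega
    · exact h5.2 v hv
  refine h V G M o L P g hM Φ (Φ.filter fun f => len M f = 5) w ho hw ?_ ?_
  · refine ⟨filter_subset _ _, fun f hf => (mem_filter.1 hf).2, ?_, ?_, hinner, ?_⟩
    · intro f hf hf'
      rcases hB.face f hf with h4 | h5
      · exact h4
      · exact absurd (mem_filter.2 ⟨hf, h5.1⟩) hf'
    · intro v hv
      obtain ⟨f, ⟨h1, h2, h3⟩, _⟩ := hB.cover v hv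
      exact ⟨f, mem_filter.2 ⟨h1, h2⟩, h3⟩
    · intro f hf f' hf' v hv hv'
      have hvi := hinner f hf v hv
      obtain ⟨f₀, _, hu⟩ := hB.cover v hvi
      have e1 := hu f ⟨(mem_filter.1 hf).1, (mem_filter.1 hf).2, hv⟩
      have e2 := hu f' ⟨(mem_filter.1 hf').1, (mem_filter.1 hf').2, hv'⟩
      rw [e1, e2]
  · obtain ⟨v, hv⟩ := hB.ne
    obtain ⟨f, ⟨h1, h2, _⟩, _⟩ := hB.cover v hv
    exact ⟨f, mem_filter.2 ⟨h1, h2⟩⟩

end C7
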