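import Pool.Agent.Lib.MP_86b854_co.Lv.Spec
import Pool.Agent.Lib.MP_86b854_co.TJ.Spec

set_option autoImplicit false

/-!
# MP_86b854_co : the `T`-join theorem in the form which is used for the levels
-/

namespace C7

open Finset

section

variable {N : Type} [Fintype N] [DecidableEq N]

theorem TJu_walk_of_refl (I : SimpleGraph N) (pi : N → ℤ) (i : ℤ) (x : N) (hx : pi x ≤ i) (y : N)
    (h : Relation.ReflTransGen (fun a b => I.Adj a b ∧ pi a ≤ i ∧ pi b ≤ i) x y) :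
    ∃ p : I.Walk x y, ∀ z ∈ p.support, pi z ≤ i := by
  induction h with
  | refl => exact ⟨SimpleGraph.Walk.nil, by simpa using hx⟩
  | tail _ hbc ih =>
    obtain ⟨p, hp⟩ := ih
    refine ⟨p.concat hbc.1, fun z hz => ?_⟩
    rw [SimpleGraph.Walk.support_concat] at hz
    simp only [List.concat_eq_append, List.mem_append, List.mem_singleton] at hz
    rcases hz with hz | hz
    · exact hp z hz
    · rw [hz]; exact hbc.2.2

theorem TJu_refl_of_walk (I : SimpleGraph N) (pi : N → ℤ) (i : ℤ) (x y : N) (p : I.Walk x y)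
    (hp : ∀ z ∈ p.support, pi z ≤ i) :
    Relation.ReflTransGen (fun a b => I.Adj a b ∧ pi a ≤ i ∧ pi b ≤ i) x y := by
  induction p with
  | nil => exact Relation.ReflTransGen.refl
  | cons h q ih =>
    refine Relation.ReflTransGen.head ⟨h, ?_, ?_⟩ (ih ?_)
    · exact hp _ (by simp)
    · exact hp _ (by simp)
    · intro z hz
      exact hp z (by simp [hz])

theorem TJu_coe_lc (I : SimpleGraph N) (pi : N → ℤ) (i : ℤ) (x : N) (hx : pi x ≤ i) :
    ((lc I pi i x : Finset N) : Set N) = T72TJ.lc I pi i x := by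
  ext y
  simp only [lc, Finset.coe_filter, Finset.mem_univ, true_and, Set.mem_setOf_eq, T72TJ.lc]
  constructor
  · exact TJu_walk_of_refl I pi i x hx y
  · rintro ⟨p, hp⟩
    exact TJu_refl_of_walk I pi i x y p hp

theorem TJu_coe_tc (I : SimpleGraph N) (pi : N → ℤ) (x : N) :
    ((tc I pi x : Finset N) : Set N) = T72TJ.lc I pi (pi x) x :=
  TJu_coe_lc I pi (pi x) x le_rfl

theorem TJu_mem_tc (I : SimpleGraph N) (pi : N → ℤ) (x y : N) :
    y ∈ tc I pi x ↔ y ∈ T72TJ.lc I pi (pi x) x := by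
  rw [← TJu_coe_tc, Finset.mem_coe]

theorem TJu_card_lcs (I : SimpleGraph N) (pi : N → ℤ) (r : N) :
    {D : Set N | ∃ u, D = T72TJ.lc I pi (pi u) u ∧ r ∉ D}.ncard = (lcs I pi r).card := by
  have h : {D : Set N | ∃ u, D = T72TJ.lc I pi (pi u) u ∧ r ∉ D} =
      (fun F : Finset N => (F : Set N)) '' ((lcs I pi r : Finset (Finset N)) : Set (Finset N)) := by
    ext D
    simp only [Set.mem_setOf_eq, Set.mem_image, Finset.mem_coe, lcs, Finset.mem_image,
      Finset.mem_filter, Finset.mem_univ, true_and]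
    constructor
    · rintro ⟨u, hu, hr⟩
      refine ⟨tc I pi u, ⟨u, ?_, rfl⟩, ?_⟩
      · rw [TJu_mem_tc]
        rw [hu] at hr
        exact hr
      · rw [TJu_coe_tc, hu]
    · rintro ⟨F, ⟨u, hu, hF⟩, hD⟩
      refine ⟨u, ?_, ?_⟩
      · rw [← hD, ← hF, TJu_coe_tc]
      · rw [← hD, ← hF, TJu_coe_tc, ← TJu_mem_tc]
        exact hu
  rw [h, Set.ncard_image_of_injective _ Finset.coe_injective, Set.ncard_coe_finset]

end

/-- the `T`-join theorem in the form which is used -/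
theorem tTJu (h1 : T72TJ.S_Sebo) (_h2 : T72TJ.S_LcB) (h3 : T72TJ.S_LevP) (h4 : T72TJ.S_LevC)
    (h5 : T72TJ.S_Swi) : S_TJuse := by
  intro N _ _ I hI hc T r hT
  obtain ⟨c, hc⟩ := hc
  obtain ⟨pi, hL⟩ := h1 N I c T r hI hc hT
  obtain ⟨hJ, hpar, _⟩ := h3 N I T r pi hI hL
  have hcard : ∀ J, T72TJ.IsMinJoin I T J → J.card = (lcs I pi r).card := by
    intro J hJ
    rw [h4 N I T r pi J hI hL hJ, TJu_card_lcs]
  have hIsJ : ∀ J, T72TJ.IsMinJoin I T J → IsJ I T J := fun J hJ => ⟨hJ.join.sub, hJ.join.par⟩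
  refine ⟨pi, ⟨hL.step, hL.base, fun x hx => ?_⟩, ?_, fun x hrx hpx => ?_⟩
  · have h := (hpar (pi x) x le_rfl).1 (by rwa [← TJu_mem_tc])
    rw [← TJu_coe_tc, ← Finset.coe_inter, Set.ncard_coe_finset] at h
    exact h
  · obtain ⟨J, hJ⟩ := hJ
    exact ⟨J, hIsJ J hJ, hcard J hJ⟩
  · obtain ⟨J, hJ, hm⟩ := (h5 N I T r pi hL).1 x hrx hpx
    exact ⟨J, hIsJ J hJ, hcard J hJ, hm⟩

end C7
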