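import Pool.Agent.Lib.MP_86b854_co.Lv.Spec
import Pool.Agent.Lib.MP_86b854_co.D.Bas

set_option autoImplicit false

/-!
# MP_86b854_co : a child without vertices is a single face
-/

namespace C7

open PLM T72 Finset Equiv

namespace TrvA

section Lev

variable {N : Type} [Fintype N] [DecidableEq N] {I : SimpleGraph N} {pi : N → ℤ}

omit [DecidableEq N] in
theorem mem_lc {i : ℤ} {x y : N} : y ∈ lc I pi i x ↔
    Relation.ReflTransGen (fun a b => I.Adj a b ∧ pi a ≤ i ∧ pi b ≤ i) x y := by
  classical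
  unfold lc
  rw [mem_filter]
  exact ⟨fun h => h.2, fun h => ⟨mem_univ _, h⟩⟩

omit [DecidableEq N] in
theorem self_lc (i : ℤ) (x : N) : x ∈ lc I pi i x := mem_lc.2 Relation.ReflTransGen.refl

omit [DecidableEq N] in
theorem symm_lc {i : ℤ} {x y : N} (h : y ∈ lc I pi i x) : x ∈ lc I pi i y := by
  rw [mem_lc] at h ⊢
  induction h with
  | refl => exact Relation.ReflTransGen.refl
  | tail _ h ih => exact Relation.ReflTransGen.head ⟨h.1.symm, h.2.2, h.2.1⟩ ih

omit [DecidableEq N] in
theorem lc_eq {i : ℤ} {x y : N} (h : y ∈ lc I pi i x) : lc I pi i y = lc I pi i x := by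
  ext z
  constructor
  · intro hz
    exact mem_lc.2 ((mem_lc.1 h).trans (mem_lc.1 hz))
  · intro hz
    exact mem_lc.2 ((mem_lc.1 (symm_lc h)).trans (mem_lc.1 hz))

omit [DecidableEq N] in
theorem le_lc {i : ℤ} {x y : N} (hx : pi x ≤ i) (h : y ∈ lc I pi i x) : pi y ≤ i := by
  rw [mem_lc] at h
  rcases Relation.ReflTransGen.cases_tail h with rfl | ⟨z, -, h⟩
  · exact hx
  · exact h.2.2

omit [DecidableEq N] in
theorem step_lc {i : ℤ} {x y z : N} (hx : pi x ≤ i) (h : y ∈ lc I pi i x) (hyz : I.Adj y z)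
    (hz : pi z ≤ i) : z ∈ lc I pi i x :=
  mem_lc.2 ((mem_lc.1 h).tail ⟨hyz, le_lc hx h, hz⟩)

end Lev

variable {V : Type} [Fintype V] [DecidableEq V] {G : SimpleGraph V} [DecidableRel G.Adj]
  {M : CMap G.Dart V} {X : Finset V}

theorem nf_root {f : Fc M} (h : RootF M X f) : nf M X f = rt M X := dif_pos h

theorem nf_not {f : Fc M} (h : ¬ RootF M X f) : nf M X f = some (Sum.inr ⟨f, h⟩) := dif_neg h

theorem nv_mem {v : V} (h : v ∈ X) : nv M X v = some (Sum.inl ⟨v, h⟩) := dif_pos h

theorem not_root_of {f : Fc M} (h : nf M X f ≠ rt M X) : ¬ RootF M X f :=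
  fun h1 => h (nf_root h1)

theorem nf_inj {f g : Fc M} (hf : ¬ RootF M X f) (h : nf M X g = nf M X f) : g = f := by
  rw [nf_not hf] at h
  by_cases hg : RootF M X g
  · rw [nf_root hg] at h
    exact absurd h (by simp [rt])
  · rw [nf_not hg] at h
    have h1 := Sum.inr.inj (Option.some.inj h)
    exact congrArg Subtype.val h1

theorem nc_nv {v : V} (h : v ∈ X) : nc M X (nv M X v) = true := by
  rw [nv_mem h]
  rfl

theorem nc_nf (f : Fc M) : nc M X (nf M X f) = false := by
  by_cases hf : RootF M X f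
  · rw [nf_root hf]
    rfl
  · rw [nf_not hf]
    rfl

theorem ig_adj {v : V} {f : Fc M} (hv : v ∈ X) (h : Inc M v f) :
    (IG M X).Adj (nf M X f) (nv M X v) := by
  refine ⟨?_, v, f, hv, h, Or.inr ⟨rfl, rfl⟩⟩
  rw [nc_nv hv, nc_nf]
  decide

/-- a level component without vertex nodes has only one node -/
theorem single {pi : Nd M X → ℤ} {i : ℤ} {x : Nd M X} (h : ∀ v ∈ X, nv M X v ∉ lc (IG M X) pi i x) :
    lc (IG M X) pi i x = {x} := by
  ext y
  rw [mem_singleton]
  constructor
  · intro hy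
    rcases Relation.ReflTransGen.cases_head (mem_lc.1 hy) with h1 | ⟨c, h1, -⟩
    · exact h1.symm
    · have hc : c ∈ lc (IG M X) pi i x := mem_lc.2 (Relation.ReflTransGen.single h1)
      obtain ⟨-, v, f, hv, -, ⟨h2, -⟩ | ⟨h2, -⟩⟩ := h1.1
      · exact absurd (by rw [← h2]; exact self_lc i x) (h v hv)
      · exact absurd (by rw [← h2]; exact hc) (h v hv)
  · rintro rfl
    exact self_lc _ _

end TrvA

open TrvA Bas in
/-- **Triv.** -/
theorem tTriv : S_Triv := by
  intro V _ _ G _ M X pi hC K hK D hD hv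
  classical
  rw [chK, mem_filter] at hD
  obtain ⟨hD1, ⟨hDK, x, y, hx, hy, hxy⟩, hr⟩ := hD
  rw [DF, mem_image] at hD1
  obtain ⟨f, -, hf⟩ := hD1
  have hfD : nf M X f ∈ D := by
    rw [← hf]
    exact self_lc _ _
  have hfr : ¬ RootF M X f := not_root_of fun h => hr (h ▸ hfD)
  have hDs : D = {nf M X f} := by
    rw [← hf]
    refine single ?_
    intro v hv1
    have h1 := hv v hv1
    rwa [← hf] at h1
  have hx' : x = nf M X f := by
    have h1 : x ∈ D := by
      rw [← hx]
      exact self_lc _ _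
    rw [hDs, mem_singleton] at h1
    exact h1
  have hVK : ∀ v, Inc M v f → v ∈ VK M X pi K := by
    intro v hvf
    have hvX : v ∈ X := by
      by_contra h
      exact hfr ⟨v, h, hvf⟩
    have h1 := ig_adj hvX hvf
    have h2 : ¬ pi (nv M X v) ≤ pi (nf M X f) := by
      intro h2
      refine hv v hvX ?_
      rw [← hf]
      exact step_lc le_rfl (self_lc _ _) h1 h2
    have h3 : pi (nv M X v) = pi y := by
      rw [hxy, hx']
      rcases hC.lev.step _ _ h1 with h | h
      · omega
      · exact h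
    have h4 : nv M X v ∈ lc (IG M X) pi (pi y) y := by
      refine step_lc le_rfl ?_ h1 h3.le
      have h5 := hDK hfD
      rw [← hy] at h5
      exact h5
    rw [VK, mem_filter]
    refine ⟨hvX, ?_⟩
    rw [← hy]
    unfold tc
    rw [h3]
    exact lc_eq h4
  have hfD' : fD M X D = {f} := by
    ext g
    rw [fD, mem_filter, hDs, mem_singleton, mem_singleton]
    constructor
    · exact fun h => nf_inj hfr h.2
    · rintro rfl
      exact ⟨mem_univ _, rfl⟩
  refine ⟨f, hfr, hDs, hfD', ?_, ?_, hVK⟩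
  · ext g
    rw [FD, mem_filter, mem_singleton]
    constructor
    · rintro ⟨-, -, h⟩
      have h1 : nf M X g ∈ D := by
        rw [← h]
        exact self_lc _ _
      rw [hDs, mem_singleton] at h1
      exact nf_inj hfr h1
    · rintro rfl
      exact ⟨mem_univ _, hfr, hf⟩
  · unfold lenD lenR
    rw [hfD']
    unfold len
    congr 1
    ext d
    rw [mem_filter, mem_filter, mem_singleton]
    constructor
    · exact fun h => ⟨mem_univ _, h.2⟩
    · rintro ⟨-, h⟩
      refine ⟨?_, h⟩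
      unfold HK dIn
      rw [mem_filter]
      refine ⟨mem_univ _, hVK _ ⟨d, rfl, h⟩, hVK _ ⟨M.φ d, phi_fst hC.plane d, ?_⟩⟩
      rw [fc_phi]
      exact h

end C7
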